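import Mathlib

/-!
# A finiteness lemma for classes of involutions
-/

set_option autoImplicit false

namespace Run7.h388

/-- finitely many representatives modulo two -/
lemma exists_parity {ι : Type*} [Finite ι] (L : Submodule ℤ (ι → ℤ)) :
    ∃ (m : ℕ) (p : (ι → ℤ) → Fin m → ZMod 2), ∀ x ∈ L, ∀ y ∈ L, p x = p y →
      ∃ z ∈ L, x - y = z + z := by
  classical
  obtain ⟨m, g, hg⟩ := Submodule.fg_iff_exists_fin_generating_family.1 (IsNoetherian.noetherian L)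
  have h : ∀ x : ι → ℤ, ∃ c : Fin m → ℤ, x ∈ L → ∑ i, c i • g i = x := by
    intro x
    by_cases hx : x ∈ L
    · rw [← hg, Submodule.mem_span_range_iff_exists_fun] at hx
      obtain ⟨c, hc⟩ := hx
      exact ⟨c, fun _ => hc⟩
    · exact ⟨0, fun h => absurd h hx⟩
  choose c hc using h
  refine ⟨m, fun x i => ((c x i : ℤ) : ZMod 2), fun x hx y hy hxy => ?_⟩
  have h2 : ∀ i, ∃ d : ℤ, c x i - c y i = d + d := by
    intro i
    have h3 := congrFun hxy i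
    have h4 : ((c x i - c y i : ℤ) : ZMod 2) = 0 := by
      push_cast
      rw [sub_eq_zero]
      exact h3
    rw [ZMod.intCast_zmod_eq_zero_iff_dvd] at h4
    obtain ⟨d, hd⟩ := h4
    exact ⟨d, by rw [hd]; push_cast; ring⟩
  choose d hd using h2
  refine ⟨∑ i, d i • g i, ?_, ?_⟩
  · rw [← hg]
    exact Submodule.sum_mem _ fun i _ => Submodule.smul_mem _ _ (Submodule.subset_span ⟨i, rfl⟩)
  · rw [← hc x hx, ← hc y hy, ← Finset.sum_sub_distrib, ← Finset.sum_add_distrib]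
    refine Finset.sum_congr rfl fun i _ => ?_
    rw [← sub_smul, hd i, add_smul]

/-- the step inside one coset -/
lemma group_step {E : Type*} [Group E] (M : Set E) (A A' : Subgroup E) (hA' : A' ≤ A)
    (hM2 : ∀ μ ∈ M, μ * μ = 1) (hconj : ∀ a ∈ A, ∀ μ ∈ M, a * μ * a⁻¹ ∈ M)
    (hnorm : ∀ μ ∈ M, ∀ a ∈ A', μ * a * μ⁻¹ ∈ A')
    {ι : Type*} [Finite ι] (k : E → ι → ℤ) (hk : ∀ a ∈ A', ∀ b ∈ A', k (a * b) = k a + k b)
    (hfin : ∀ μ ∈ M, ∃ S : Set E, S.Finite ∧ S ⊆ M ∧ ∀ a ∈ A', k a = 0 →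
      k (μ * a * μ⁻¹) = 0 → a * μ ∈ M → ∃ c ∈ A, ∃ ν ∈ S, c * (a * μ) * c⁻¹ = ν)
    (μ₀ : E) (hμ₀ : μ₀ ∈ M) :
    ∃ S : Set E, S.Finite ∧ S ⊆ M ∧ ∀ μ ∈ M, μ * μ₀⁻¹ ∈ A' →
      ∃ c ∈ A, ∃ ν ∈ S, c * μ * c⁻¹ = ν := by
  classical
  have hk1 : k 1 = 0 := by
    have := hk 1 A'.one_mem 1 A'.one_mem
    rw [mul_one] at this
    simpa using this
  have hkinv : ∀ a ∈ A', k a⁻¹ = - k a := by
    intro a ha
    have := hk a ha a⁻¹ (A'.inv_mem ha)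
    rw [mul_inv_cancel, hk1] at this
    exact (neg_eq_of_add_eq_zero_right this.symm).symm
  have hMinv : ∀ μ ∈ M, μ⁻¹ = μ := fun μ hμ => inv_eq_of_mul_eq_one_left (hM2 μ hμ)
  -- the doubled homomorphism
  set k' : E → (ι ⊕ ι) → ℤ := fun a => Sum.elim (k a) (k (μ₀ * a * μ₀⁻¹)) with hk'
  have hk'add : ∀ a ∈ A', ∀ b ∈ A', k' (a * b) = k' a + k' b := by
    intro a ha b hb
    funext i
    rcases i with i | i
    · simp only [hk', Sum.elim_inl, Pi.add_apply]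
      rw [hk a ha b hb]; rfl
    · simp only [hk', Sum.elim_inr, Pi.add_apply]
      have : μ₀ * (a * b) * μ₀⁻¹ = (μ₀ * a * μ₀⁻¹) * (μ₀ * b * μ₀⁻¹) := by group
      rw [this, hk _ (hnorm _ hμ₀ _ ha) _ (hnorm _ hμ₀ _ hb)]; rfl
  have hk'one : k' 1 = 0 := by
    have := hk'add 1 A'.one_mem 1 A'.one_mem
    rw [mul_one] at this
    simpa using this
  have hk'inv : ∀ a ∈ A', k' a⁻¹ = - k' a := by
    intro a ha
    have := hk'add a ha a⁻¹ (A'.inv_mem ha)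
    rw [mul_inv_cancel, hk'one] at this
    exact (neg_eq_of_add_eq_zero_right this.symm).symm
  let L : AddSubgroup ((ι ⊕ ι) → ℤ) :=
    { carrier := {x | ∃ a ∈ A', k' a = x}
      zero_mem' := ⟨1, A'.one_mem, hk'one⟩
      add_mem' := by
        rintro _ _ ⟨a, ha, rfl⟩ ⟨b, hb, rfl⟩
        exact ⟨a * b, A'.mul_mem ha hb, hk'add a ha b hb⟩
      neg_mem' := by
        rintro _ ⟨a, ha, rfl⟩
        exact ⟨a⁻¹, A'.inv_mem ha, hk'inv a ha⟩ }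
  obtain ⟨m, p, hp⟩ := exists_parity (AddSubgroup.toIntSubmodule L)
  have hLmem : ∀ a ∈ A', k' a ∈ AddSubgroup.toIntSubmodule L := fun a ha => ⟨a, ha, rfl⟩
  -- representatives
  set ty : E → Fin m → ZMod 2 := fun μ => p (k' (μ * μ₀⁻¹)) with hty
  set N : Set E := {μ | μ ∈ M ∧ μ * μ₀⁻¹ ∈ A'} with hN
  have hrep : ∀ t : Fin m → ZMod 2, ∃ S : Set E, S.Finite ∧ S ⊆ M ∧ ∀ μ ∈ N, ty μ = t →
      ∃ c ∈ A, ∃ ν ∈ S, c * μ * c⁻¹ = ν := by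
    intro t
    by_cases hne : ∃ ν ∈ N, ty ν = t
    · obtain ⟨ν, ⟨hνM, hνA⟩, hνt⟩ := hne
      obtain ⟨S, hSf, hSM, hS⟩ := hfin ν hνM
      refine ⟨S, hSf, hSM, ?_⟩
      rintro μ ⟨hμM, hμA⟩ hμt
      obtain ⟨z, ⟨c, hc, hcz⟩, hz⟩ := hp _ (hLmem _ hμA) _ (hLmem _ hνA) (hμt.trans hνt.symm)
      set a := μ * ν⁻¹ with ha
      have haA : a ∈ A' := by
        have : a = (μ * μ₀⁻¹) * (ν * μ₀⁻¹)⁻¹ := by rw [ha]; group
        rw [this]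
        exact A'.mul_mem hμA (A'.inv_mem hνA)
      have hka' : k' a = k' c + k' c := by
        have : a = (μ * μ₀⁻¹) * (ν * μ₀⁻¹)⁻¹ := by rw [ha]; group
        rw [this, hk'add _ hμA _ (A'.inv_mem hνA), hk'inv _ hνA, ← sub_eq_add_neg, hz, hcz]
      have hka : k a = k c + k c := by
        funext i
        have := congrFun hka' (Sum.inl i)
        simpa [hk'] using this
      have hka2 : k (μ₀ * a * μ₀⁻¹) = k (μ₀ * c * μ₀⁻¹) + k (μ₀ * c * μ₀⁻¹) := by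
        funext i
        have := congrFun hka' (Sum.inr i)
        simpa [hk'] using this
      have hνconj : ∀ b ∈ A', k (ν * b * ν⁻¹) = k (μ₀ * b * μ₀⁻¹) := by
        intro b hb
        have h1 : ν * b * ν⁻¹ = (ν * μ₀⁻¹) * (μ₀ * b * μ₀⁻¹) * (ν * μ₀⁻¹)⁻¹ := by group
        have h2 : μ₀ * b * μ₀⁻¹ ∈ A' := hnorm _ hμ₀ _ hb
        rw [h1, hk _ (A'.mul_mem hνA h2) _ (A'.inv_mem hνA), hk _ hνA _ h2, hkinv _ hνA]
        abel
      have haν : ν * a * ν⁻¹ = a⁻¹ := by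
        rw [ha, mul_inv_rev, inv_inv, hMinv μ hμM, hMinv ν hνM]
        have h1 := hM2 ν hνM
        calc ν * (μ * ν) * ν = ν * μ * (ν * ν) := by group
          _ = ν * μ := by rw [h1, mul_one]
      have hkc : k (μ₀ * c * μ₀⁻¹) = - k c := by
        have h1 : k (μ₀ * a * μ₀⁻¹) = - k a := by
          rw [← hνconj a haA, haν, hkinv a haA]
        funext i
        have h2 := congrFun (h1.symm.trans hka2) i
        have h3 := congrFun hka i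
        simp only [Pi.neg_apply, Pi.add_apply] at h2 h3 ⊢
        omega
      set a'' := c⁻¹ * a * (ν * c * ν⁻¹) with ha''
      have hνc : ν * c * ν⁻¹ ∈ A' := hnorm _ hνM _ hc
      have ha''A : a'' ∈ A' := A'.mul_mem (A'.mul_mem (A'.inv_mem hc) haA) hνc
      have hk0 : k a'' = 0 := by
        rw [ha'', hk _ (A'.mul_mem (A'.inv_mem hc) haA) _ hνc, hk _ (A'.inv_mem hc) _ haA,
          hkinv _ hc, hνconj c hc, hkc, hka]
        abel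
      have hk0' : k (ν * a'' * ν⁻¹) = 0 := by
        rw [hνconj _ ha''A]
        have h1 : k (μ₀ * a'' * μ₀⁻¹) = - k (μ₀ * c * μ₀⁻¹) + k (μ₀ * a * μ₀⁻¹) +
            k (μ₀ * (ν * c * ν⁻¹) * μ₀⁻¹) := by
          have h2 : μ₀ * a'' * μ₀⁻¹ = (μ₀ * c * μ₀⁻¹)⁻¹ * (μ₀ * a * μ₀⁻¹) *
              (μ₀ * (ν * c * ν⁻¹) * μ₀⁻¹) := by rw [ha'']; group
          have m1 := hnorm _ hμ₀ _ hc
          have m2 := hnorm _ hμ₀ _ haA
          have m3 := hnorm _ hμ₀ _ hνc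
          rw [h2, hk _ (A'.mul_mem (A'.inv_mem m1) m2) _ m3, hk _ (A'.inv_mem m1) _ m2,
            hkinv _ m1]
        have h3 : k (μ₀ * (ν * c * ν⁻¹) * μ₀⁻¹) = k c := by
          rw [← hνconj _ hνc]
          have h4 : ν * (ν * c * ν⁻¹) * ν⁻¹ = c := by
            have h5 := hM2 ν hνM
            rw [hMinv ν hνM]
            calc ν * (ν * c * ν) * ν = (ν * ν) * c * (ν * ν) := by group
              _ = c := by rw [h5]; group
          rw [h4]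
        rw [h1, h3, hka2, hkc]
        abel
      have hconj' : a'' * ν = c⁻¹ * μ * c := by
        rw [ha'', ha]
        group
      have hmem : a'' * ν ∈ M := by
        rw [hconj']
        have := hconj c⁻¹ (A.inv_mem (hA' hc)) μ hμM
        rwa [inv_inv] at this
      obtain ⟨d, hd, ν', hν', hdν⟩ := hS a'' ha''A hk0 hk0' hmem
      refine ⟨d * c⁻¹, A.mul_mem hd (A.inv_mem (hA' hc)), ν', hν', ?_⟩
      rw [← hdν, hconj']
      group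
    · exact ⟨∅, Set.finite_empty, Set.empty_subset _, fun μ hμ hμt => absurd ⟨μ, hμ, hμt⟩ hne⟩
  choose S hSf hSM hS using hrep
  refine ⟨⋃ t, S t, Set.finite_iUnion hSf, Set.iUnion_subset hSM, fun μ hμ hμA => ?_⟩
  obtain ⟨c, hc, ν, hν, h⟩ := hS (ty μ) μ ⟨hμ, hμA⟩ rfl
  exact ⟨c, hc, ν, Set.mem_iUnion.2 ⟨_, hν⟩, h⟩

/-- **Group lemma.** -/
theorem group_lemma {E : Type*} [Group E] (M : Set E) (A A' : Subgroup E) (hA' : A' ≤ A)
    (hM2 : ∀ μ ∈ M, μ * μ = 1) (hconj : ∀ a ∈ A, ∀ μ ∈ M, a * μ * a⁻¹ ∈ M)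
    (hnorm : ∀ μ ∈ M, ∀ a ∈ A', μ * a * μ⁻¹ ∈ A')
    {Θ : Type*} [Finite Θ] (θ : E → Θ)
    (hθ : ∀ μ ∈ M, ∀ μ' ∈ M, θ μ = θ μ' → μ' * μ⁻¹ ∈ A')
    {ι : Type*} [Finite ι] (k : E → ι → ℤ) (hk : ∀ a ∈ A', ∀ b ∈ A', k (a * b) = k a + k b)
    (hfin : ∀ μ ∈ M, ∃ S : Set E, S.Finite ∧ S ⊆ M ∧ ∀ a ∈ A', k a = 0 →
      k (μ * a * μ⁻¹) = 0 → a * μ ∈ M → ∃ c ∈ A, ∃ ν ∈ S, c * (a * μ) * c⁻¹ = ν) :
    ∃ S : Set E, S.Finite ∧ S ⊆ M ∧ ∀ μ ∈ M, ∃ c ∈ A, ∃ ν ∈ S, c * μ * c⁻¹ = ν := by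
  classical
  have hrep : ∀ t : Θ, ∃ S : Set E, S.Finite ∧ S ⊆ M ∧ ∀ μ ∈ M, θ μ = t →
      ∃ c ∈ A, ∃ ν ∈ S, c * μ * c⁻¹ = ν := by
    intro t
    by_cases hne : ∃ ν ∈ M, θ ν = t
    · obtain ⟨ν, hνM, hνt⟩ := hne
      obtain ⟨S, h1, h2, h3⟩ := group_step M A A' hA' hM2 hconj hnorm k hk hfin ν hνM
      exact ⟨S, h1, h2, fun μ hμ hμt => h3 μ hμ (hθ ν hνM μ hμ (hνt.trans hμt.symm))⟩
    · exact ⟨∅, Set.finite_empty, Set.empty_subset _, fun μ hμ hμt => absurd ⟨μ, hμ, hμt⟩ hne⟩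
  choose S hSf hSM hS using hrep
  refine ⟨⋃ t, S t, Set.finite_iUnion hSf, Set.iUnion_subset hSM, fun μ hμ => ?_⟩
  obtain ⟨c, hc, ν, hν, h⟩ := hS (θ μ) μ hμ rfl
  exact ⟨c, hc, ν, Set.mem_iUnion.2 ⟨_, hν⟩, h⟩

end Run7.h388
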