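import Pool.Agent.Run7.h388.TT
import Pool.Agent.Run7.h388.Grp

namespace Run7.h388

open ComplexConjugate

variable {G R : Type} [CommRing R] [Algebra ℂ R] {γ : G → (R ≃ₐ[ℂ] R)} {s : G → G}

theorem real_inv {μ : R ≃+* R} (hμ : μ ∈ RealStr γ s) : μ⁻¹ = μ :=
  inv_eq_of_mul_eq_one_left hμ.2.1

theorem real_real {μ : R ≃+* R} (hμ : μ ∈ RealStr γ s) (x : R) : μ (μ x) = x := by
  have := congrArg (fun f : R ≃+* R => f x) hμ.2.1
  exact this

theorem real_ss {μ : R ≃+* R} (hμ : μ ∈ RealStr γ s) (g : G) (x : R) :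
    γ (s (s g)) x = γ g x := by
  have h1 : μ (μ (γ g x)) = γ (s (s g)) (μ (μ x)) := by rw [hμ.2.2, hμ.2.2]
  rw [real_real hμ, real_real hμ] at h1
  exact h1.symm

theorem real_mul {μ μ' : R ≃+* R} (hμ : μ ∈ RealStr γ s) (hμ' : μ' ∈ RealStr γ s) :
    μ' * μ ∈ AutG γ := by
  refine ⟨fun c x => ?_, fun g x => ?_⟩
  · rw [RingAut.mul_apply, hμ.1, hμ'.1, Complex.conj_conj]; rfl
  · rw [RingAut.mul_apply, hμ.2.2, hμ'.2.2, real_ss hμ]; rfl

theorem real_conj {a μ : R ≃+* R} (ha : a ∈ AutG γ) (hμ : μ ∈ RealStr γ s) :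
    a * μ * a⁻¹ ∈ RealStr γ s := by
  have ha' := (AutG γ).inv_mem ha
  refine ⟨fun c x => ?_, ?_, fun g x => ?_⟩
  · change a (μ (a⁻¹ (c • x))) = conj c • a (μ (a⁻¹ x))
    rw [ha'.1, hμ.1, ha.1]
  · calc a * μ * a⁻¹ * (a * μ * a⁻¹) = a * (μ * μ) * a⁻¹ := by group
      _ = 1 := by rw [hμ.2.1]; group
  · change a (μ (a⁻¹ (γ g x))) = γ (s g) (a (μ (a⁻¹ x)))
    rw [ha'.2, hμ.2.2, ha.2]

theorem real_norm {a μ : R ≃+* R} (ha : a ∈ AutG γ) (hμ : μ ∈ RealStr γ s) :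
    μ * a * μ⁻¹ ∈ AutG γ := by
  rw [real_inv hμ]
  refine ⟨fun c x => ?_, fun g x => ?_⟩
  · change μ (a (μ (c • x))) = c • μ (a (μ x))
    rw [hμ.1, ha.1, hμ.1, Complex.conj_conj]
  · change μ (a (μ (γ g x))) = γ g (μ (a (μ x)))
    rw [hμ.2.2, ha.2, hμ.2.2, real_ss hμ]

/-- The image of a subspace under a real structure. -/
def mapR {μ : R ≃+* R} (hμ : μ ∈ RealStr γ s) (W : Submodule ℂ R) : Submodule ℂ R where
  carrier := {y | μ y ∈ W}
  zero_mem' := by simp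
  add_mem' := by
    intro a b ha hb
    simp only [Set.mem_ofPred_eq, map_add] at *
    exact W.add_mem ha hb
  smul_mem' := by
    intro c x hx
    simp only [Set.mem_ofPred_eq] at *
    rw [hμ.1]
    exact W.smul_mem _ hx

theorem mapR_fd {μ : R ≃+* R} (hμ : μ ∈ RealStr γ s) (W : Submodule ℂ R)
    [FiniteDimensional ℂ W] : FiniteDimensional ℂ (mapR hμ W) := by
  obtain ⟨t, ht⟩ := (Submodule.fg_iff_finiteDimensional W).2 inferInstance
  have hle : mapR hμ W ≤ Submodule.span ℂ (μ '' t) := by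
    intro y hy
    have h1 : μ y ∈ Submodule.span ℂ (t : Set R) := by rw [ht]; exact hy
    have h2 : ∀ z ∈ Submodule.span ℂ (t : Set R), μ z ∈ Submodule.span ℂ (μ '' t) := by
      intro z hz
      induction hz using Submodule.span_induction with
      | mem x hx => exact Submodule.subset_span ⟨x, hx, rfl⟩
      | zero => simp
      | add x y _ _ hx hy => rw [map_add]; exact Submodule.add_mem _ hx hy
      | smul c x _ hx => rw [hμ.1]; exact Submodule.smul_mem _ _ hx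
    have h3 := h2 _ h1
    rwa [real_real hμ] at h3
  have : FiniteDimensional ℂ (Submodule.span ℂ (μ '' t)) :=
    FiniteDimensional.span_of_finite ℂ (t.finite_toSet.image μ)
  exact Submodule.finiteDimensional_of_le hle

/-- The assembly of Theorem T with the group lemma. -/
theorem assemble (γ : G → (R ≃ₐ[ℂ] R)) (s : G → G) (A' : Subgroup (R ≃+* R))
    (hA' : A' ≤ AutG γ)
    (hnorm : ∀ μ ∈ RealStr γ s, ∀ a ∈ A', μ * a * μ⁻¹ ∈ A')
    {Θ : Type*} [Finite Θ] (θ : (R ≃+* R) → Θ)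
    (hθ : ∀ μ ∈ RealStr γ s, ∀ μ' ∈ RealStr γ s, θ μ = θ μ' → μ' * μ⁻¹ ∈ A')
    {ι : Type*} [Finite ι] (k : (R ≃+* R) → ι → ℤ)
    (hk : ∀ a ∈ A', ∀ b ∈ A', k (a * b) = k a + k b)
    (W : Submodule ℂ R) [FiniteDimensional ℂ W] (hgen : Algebra.adjoin ℂ (W : Set R) = ⊤)
    (hW : ∀ g, ∀ x ∈ W, γ g x ∈ W)
    (hWA : ∀ a ∈ A', k a = 0 → ∀ x ∈ W, a x ∈ W) :
    ∃ S : Set (R ≃+* R), S.Finite ∧ S ⊆ RealStr γ s ∧
      ∀ μ ∈ RealStr γ s, ∃ c ∈ AutG γ, ∃ ν ∈ S, c * μ * c⁻¹ = ν := by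
  refine group_lemma (RealStr γ s) (AutG γ) A' hA' (fun μ hμ => hμ.2.1)
    (fun a ha μ hμ => real_conj ha hμ) hnorm θ hθ k hk ?_
  intro μ hμ
  have hfd := mapR_fd hμ W
  let W' : Submodule ℂ R := W ⊔ mapR hμ W
  have hfd' : FiniteDimensional ℂ W' := Submodule.finiteDimensional_sup _ _
  obtain ⟨S, hSf, hSM, hS⟩ := finite_classes γ s W' (by
    rw [eq_top_iff, ← hgen]
    exact Algebra.adjoin_mono (show (W : Set R) ⊆ W' from fun x hx =>
      (le_sup_left : W ≤ W') hx)) (by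
    intro g x hx
    obtain ⟨a, ha, b, hb, rfl⟩ := Submodule.mem_sup.1 hx
    rw [map_add]
    refine Submodule.add_mem _ ((le_sup_left : W ≤ W') (hW g a ha))
      ((le_sup_right : _ ≤ W') ?_)
    change μ (γ g b) ∈ W
    rw [hμ.2.2]
    exact hW _ _ hb)
  refine ⟨S, hSf, hSM, ?_⟩
  intro a ha hka hkm haM
  refine hS _ haM ?_
  intro x hx
  obtain ⟨y, hy, z, hz, rfl⟩ := Submodule.mem_sup.1 hx
  rw [map_add]
  have h1 : μ * a * μ⁻¹ ∈ A' := hnorm μ hμ a ha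
  refine Submodule.add_mem _ ((le_sup_right : _ ≤ W') ?_) ((le_sup_left : W ≤ W') ?_)
  · change μ ((a * μ) y) ∈ W
    have h2 := hWA _ h1 hkm y hy
    rw [real_inv hμ] at h2
    exact h2
  · exact hWA a ha hka _ hz

end Run7.h388
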