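import Pool.Agent.Run7.h388.Curve

namespace Run7.h388

open Polynomial WithZero

/-- The curve lemma for a ring: the finite set of places at infinity, seen as functions. -/
theorem curve_package {R₀ : Type*} [CommRing R₀] [IsDomain R₀] [Algebra ℂ R₀]
    [Algebra.FiniteType ℂ R₀] (hTr : TrOne (FractionRing R₀)) :
    ∃ 𝒱 : Set (R₀ → ℤᵐ⁰), 𝒱.Finite ∧
      (∀ v ∈ 𝒱, (∀ x y, v (x * y) = v x * v y) ∧ (∀ x, v x = 0 ↔ x = 0)) ∧
      (∀ v ∈ 𝒱, ∀ e : R₀ ≃+* R₀, (∀ c : ℂ, ∃ c' : ℂ, e (algebraMap ℂ R₀ c) = algebraMap ℂ R₀ c') →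
        (fun x => v (e x)) ∈ 𝒱) ∧
      ∀ c : R₀, c ≠ 0 → ∃ L : Submodule ℂ R₀, FiniteDimensional ℂ L ∧
        ∀ e, (∀ v ∈ 𝒱, v e ≤ v c) → e ∈ L := by
  let F := FractionRing R₀
  have hinjF : Function.Injective (algebraMap R₀ F) := IsFractionRing.injective R₀ F
  let RF : Subalgebra ℂ F := (IsScalarTower.toAlgHom ℂ R₀ F).range
  have hmemRF : ∀ x : R₀, algebraMap R₀ F x ∈ RF := fun x => ⟨x, rfl⟩
  have hess : Algebra.EssFiniteType ℂ F := by
    have h1 : Algebra.EssFiniteType R₀ F :=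
      Algebra.EssFiniteType.of_isLocalization _ (nonZeroDivisors R₀)
    exact Algebra.EssFiniteType.comp ℂ R₀ F
  have hfg : RF.FG := by
    have h1 : (⊤ : Subalgebra ℂ R₀).FG := Algebra.FiniteType.out
    have h2 := h1.map (IsScalarTower.toAlgHom ℂ R₀ F)
    rwa [Algebra.map_top] at h2
  have hfin := infPl_finite hTr RF hfg
  refine ⟨(fun v : Valuation F ℤᵐ⁰ => fun x : R₀ => v (algebraMap R₀ F x)) '' (InfPl RF),
    hfin.image _, ?_, ?_, ?_⟩
  · rintro _ ⟨v, hv, rfl⟩
    refine ⟨fun x y => by simp only [map_mul], fun x => ?_⟩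
    simp only [map_eq_zero]
    exact map_eq_zero_iff _ hinjF
  · rintro _ ⟨v, hv, rfl⟩ e he
    let eF : F ≃+* F := IsFractionRing.ringEquivOfRingEquiv e
    have heF : ∀ x : R₀, eF (algebraMap R₀ F x) = algebraMap R₀ F (e x) := by
      intro x
      exact IsFractionRing.ringEquivOfRingEquiv_algebraMap e x
    refine ⟨v.comap (eF : F →+* F), ⟨⟨?_, ?_⟩, ?_⟩, ?_⟩
    · intro y
      obtain ⟨x, hx⟩ := hv.1.surj y
      refine ⟨eF.symm x, ?_⟩
      rw [Valuation.comap_apply]
      simp [hx]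
    · intro c hc
      obtain ⟨c', hc'⟩ := he c
      have h1 : eF (algebraMap ℂ F c) = algebraMap ℂ F c' := by
        rw [IsScalarTower.algebraMap_apply ℂ R₀ F, heF, hc', ← IsScalarTower.algebraMap_apply]
      have hc0 : c' ≠ 0 := by
        rintro rfl
        rw [map_zero] at h1
        have h2 := (map_eq_zero_iff _ eF.injective).1 h1
        rw [map_eq_zero] at h2
        exact hc h2
      rw [Valuation.comap_apply]
      change v (eF _) = 1
      rw [h1, hv.1.triv c' hc0]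
    · obtain ⟨r, ⟨x, rfl⟩, hr⟩ := hv.2
      refine ⟨algebraMap R₀ F (e.symm x), hmemRF _, ?_⟩
      rw [Valuation.comap_apply]
      change 1 < v (eF _)
      rw [heF, e.apply_symm_apply]
      exact hr
    · funext x
      change v (eF (algebraMap R₀ F x)) = v (algebraMap R₀ F (e x))
      rw [heF]
  · intro c hc
    have hc0 : algebraMap R₀ F c ≠ 0 := fun h => hc (hinjF (by rw [h, map_zero]))
    have hfd := curve_fd hTr RF hfg (fun v => log (v (algebraMap R₀ F c)))
    let f : R₀ →ₗ[ℂ] F := (IsScalarTower.toAlgHom ℂ R₀ F).toLinearMap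
    have hf : Function.Injective f := hinjF
    set Q := LL (InfPl RF) (fun v hv => hv.1) RF (fun v => log (v (algebraMap R₀ F c))) with hQ
    refine ⟨Q.comap f, ?_, ?_⟩
    · exact Module.Finite.of_injective
        (f.restrict (p := Q.comap f) (q := Q) (fun x hx => hx))
        (fun x y hxy => Subtype.ext (hf (congrArg Subtype.val hxy)))
    · intro e he
      rw [Submodule.mem_comap, mem_LL]
      refine ⟨hmemRF e, fun v hv => ?_⟩
      have h1 := he _ ⟨v, hv, rfl⟩
      rw [exp_log ((Valuation.ne_zero_iff _).2 hc0)]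
      exact h1

end Run7.h388
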