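import Mathlib

namespace Run7.h388

open Module Polynomial

section

variable {G : Type} [Group G] {R : Type} [CommRing R] [Algebra ℂ R]

/-- The algebra of invariants of the subgroup `H`. -/
def invS (γ : G →* (R ≃ₐ[ℂ] R)) (H : Subgroup G) : Subalgebra ℂ R where
  carrier := {r | ∀ h ∈ H, γ h r = r}
  mul_mem' := by
    intro a b ha hb h hh
    rw [map_mul, ha h hh, hb h hh]
  add_mem' := by
    intro a b ha hb h hh
    rw [map_add, ha h hh, hb h hh]
  algebraMap_mem' := by
    intro c h _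
    exact (γ h).commutes c

theorem mem_invS {γ : G →* (R ≃ₐ[ℂ] R)} {H : Subgroup G} {r : R} :
    r ∈ invS γ H ↔ ∀ h ∈ H, γ h r = r := Iff.rfl

/-- Invariants lift along equivariant maps out of finite-dimensional stable subspaces of
finite powers of `R`. -/
def InvProp (γ : G →* (R ≃ₐ[ℂ] R)) (H : Subgroup G) : Prop :=
  ∀ (J : Type) [Fintype J] (N : Type) [AddCommGroup N] [Module ℂ N]
    (Φ : (J → R) →ₗ[ℂ] N) (τ : G → N →ₗ[ℂ] N) (W : Submodule ℂ (J → R)),
    FiniteDimensional ℂ W → (∀ g, ∀ x ∈ W, (fun j => γ g (x j)) ∈ W) →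
    (∀ h ∈ H, ∀ x ∈ W, Φ (fun j => γ h (x j)) = τ h (Φ x)) →
    ∀ x₀ ∈ W, (∀ h ∈ H, τ h (Φ x₀) = Φ x₀) →
      ∃ x ∈ W, Φ x = Φ x₀ ∧ ∀ h ∈ H, ∀ j, γ h (x j) = x j

theorem fd_pi {J : Type} [Fintype J] (M : J → Submodule ℂ R)
    (hM : ∀ j, FiniteDimensional ℂ (M j)) :
    FiniteDimensional ℂ (Submodule.pi Set.univ M : Submodule ℂ (J → R)) := by
  let f : (∀ j, M j) →ₗ[ℂ] (J → R) := LinearMap.pi fun j => (M j).subtype ∘ₗ LinearMap.proj j
  have h1 : FiniteDimensional ℂ (LinearMap.range f) := inferInstance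
  refine Submodule.finiteDimensional_of_le (S₂ := LinearMap.range f) ?_
  intro x hx
  rw [Submodule.mem_pi] at hx
  exact ⟨fun j => ⟨x j, hx j trivial⟩, by ext j; rfl⟩

/-- The Rees algebra. -/
noncomputable def Rees (W₁ : Submodule ℂ R) : Subalgebra ℂ R[X] :=
  Algebra.adjoin ℂ {p | ∃ w ∈ W₁, p = C w * X}

theorem coeff_mem_of_mem_Rees (W₁ : Submodule ℂ R) {p : R[X]} (hp : p ∈ Rees W₁) :
    ∀ n, p.coeff n ∈ W₁ ^ n := by
  induction hp using Algebra.adjoin_induction with
  | mem p hp =>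
    obtain ⟨w, hw, rfl⟩ := hp
    intro n
    rw [coeff_C_mul, coeff_X]
    split_ifs with h
    · subst h; simpa using hw
    · simp
  | algebraMap c =>
    intro n
    change (C (algebraMap ℂ R c)).coeff n ∈ _
    rw [coeff_C]
    split_ifs with h
    · subst h; rw [pow_zero]; exact Submodule.algebraMap_mem c
    · simp
  | add a b _ _ ha hb => intro n; rw [coeff_add]; exact Submodule.add_mem _ (ha n) (hb n)
  | mul a b _ _ ha hb =>
    intro n
    rw [coeff_mul]
    refine Submodule.sum_mem _ fun x hx => ?_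
    rw [Finset.HasAntidiagonal.mem_antidiagonal] at hx
    rw [← hx, pow_add]
    exact Submodule.mul_mem_mul (ha _) (hb _)

theorem mem_Rees (W₁ : Submodule ℂ R) {n : ℕ} {f : R} (hf : f ∈ W₁ ^ n) :
    C f * X ^ n ∈ Rees W₁ := by
  induction hf using Submodule.pow_induction_on_left' with
  | algebraMap c =>
    have : C (algebraMap ℂ R c) * X ^ 0 = algebraMap ℂ R[X] c := by
      rw [pow_zero, mul_one]; rfl
    rw [this]
    exact Subalgebra.algebraMap_mem _ c
  | add x y i _ _ hx hy => rw [C_add, add_mul]; exact Subalgebra.add_mem _ hx hy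
  | mem_mul m hm i x _ hx =>
    have : C (m * x) * X ^ i.succ = (C m * X) * (C x * X ^ i) := by
      rw [C_mul, Nat.succ_eq_add_one, pow_succ]; ring
    rw [this]
    exact Subalgebra.mul_mem _ (Algebra.subset_adjoin ⟨m, hm, rfl⟩) hx

theorem Rees_noeth (W₁ : Submodule ℂ R) (hfg : W₁.FG) : IsNoetherianRing (Rees W₁) := by
  obtain ⟨t, ht⟩ := hfg
  have hfgR : (Rees W₁).FG := by
    classical
    refine ⟨t.image (fun w => C w * X), ?_⟩
    apply le_antisymm
    · apply Algebra.adjoin_mono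
      intro p hp
      simp only [Finset.coe_image, Set.mem_image, Finset.mem_coe] at hp
      obtain ⟨w, hw, rfl⟩ := hp
      exact ⟨w, by rw [← ht]; exact Submodule.subset_span hw, rfl⟩
    · apply Algebra.adjoin_le
      rintro p ⟨w, hw, rfl⟩
      rw [← ht] at hw
      induction hw using Submodule.span_induction with
      | mem x hx => exact Algebra.subset_adjoin (by simpa using ⟨x, hx, rfl⟩)
      | zero => simp
      | add x y _ _ hx hy => rw [C_add, add_mul]; exact Subalgebra.add_mem _ hx hy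
      | smul c x _ hx =>
        have : C (c • x) * X = c • (C x * X) := by
          rw [← smul_C, smul_mul_assoc]
        rw [this]
        exact Subalgebra.smul_mem _ hx c
  have : Algebra.FiniteType ℂ (Rees W₁) := (Subalgebra.fg_iff_finiteType _).1 hfgR
  exact Algebra.FiniteType.isNoetherianRing ℂ (Rees W₁)

/-- **Hilbert**: the algebra of invariants is finitely generated. -/
theorem hilbert (γ : G →* (R ≃ₐ[ℂ] R)) (H : Subgroup G) (hInv : InvProp γ H)
    (W₁ : Submodule ℂ R) [FiniteDimensional ℂ W₁] (h1 : (1 : R) ∈ W₁)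
    (hst : ∀ g, ∀ x ∈ W₁, γ g x ∈ W₁) (hgen : Algebra.adjoin ℂ (W₁ : Set R) = ⊤) :
    (invS γ H).FG := by
  classical
  have hfgW : W₁.FG := (Submodule.fg_iff_finiteDimensional _).2 inferInstance
  have hnoeth := Rees_noeth W₁ hfgW
  -- generators
  let GS : Set (Rees W₁) := {p | ∃ n, 1 ≤ n ∧ ∃ f ∈ W₁ ^ n, f ∈ invS γ H ∧ (p : R[X]) = C f * X ^ n}
  have hI : (Submodule.span (Rees W₁) GS).FG := IsNoetherian.noetherian _
  obtain ⟨s, hsG, hs⟩ := (Submodule.fg_span_iff_fg_span_finset_subset GS).1 hI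
  have hch : ∀ p : s, ∃ nf : ℕ × R, 1 ≤ nf.1 ∧ nf.2 ∈ W₁ ^ nf.1 ∧ nf.2 ∈ invS γ H ∧
      ((p : Rees W₁) : R[X]) = C nf.2 * X ^ nf.1 := by
    intro p
    obtain ⟨n, hn, f, hf, hf', hp⟩ := hsG p.2
    exact ⟨(n, f), hn, hf, hf', hp⟩
  choose nf hnf1 hnfW hnfI hnfp using hch
  have hpowst : ∀ n, ∀ g, ∀ x ∈ W₁ ^ n, γ g x ∈ W₁ ^ n := by
    intro n g x hx
    have h2 : (W₁ ^ n).map (γ g : R →ₐ[ℂ] R).toLinearMap ≤ W₁ ^ n := by
      rw [Submodule.map_pow]
      refine pow_le_pow_left' ?_ n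
      rintro _ ⟨y, hy, rfl⟩
      exact hst g y hy
    exact h2 ⟨x, hx, rfl⟩
  have hfdpow : ∀ n, FiniteDimensional ℂ (W₁ ^ n : Submodule ℂ R) := by
    intro n
    exact (Submodule.fg_iff_finiteDimensional _).1 (hfgW.pow n)
  let A₀ : Subalgebra ℂ R := Algebra.adjoin ℂ (Set.range fun p : s => (nf p).2)
  have key : ∀ n, ∀ f ∈ W₁ ^ n, f ∈ invS γ H → f ∈ A₀ := by
    intro n
    induction n using Nat.strong_induction_on with
    | _ n ih =>
      intro f hf hfI
      rcases Nat.eq_zero_or_pos n with rfl | hn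
      · rw [pow_zero, Submodule.mem_one] at hf
        obtain ⟨c, rfl⟩ := hf
        exact A₀.algebraMap_mem c
      · have hmem : (⟨C f * X ^ n, mem_Rees W₁ hf⟩ : Rees W₁) ∈ Submodule.span (Rees W₁) (s : Set (Rees W₁)) := by
          rw [← hs]
          exact Submodule.subset_span ⟨n, hn, f, hf, hfI, rfl⟩
        obtain ⟨c, hc⟩ := Submodule.mem_span_finset'.1 hmem
        -- coefficients
        let x₀ : s → R := fun p => if (nf p).1 ≤ n then ((c p : Rees W₁) : R[X]).coeff (n - (nf p).1) else 0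
        let M : s → Submodule ℂ R := fun p => if (nf p).1 ≤ n then W₁ ^ (n - (nf p).1) else ⊥
        let Φ : (s → R) →ₗ[ℂ] R :=
          { toFun := fun x => ∑ p, x p * (nf p).2
            map_add' := by intro x y; simp [add_mul, Finset.sum_add_distrib]
            map_smul' := by intro a x; simp [Finset.smul_sum] }
        have hMfd : ∀ p, FiniteDimensional ℂ (M p) := by
          intro p
          by_cases h : (nf p).1 ≤ n
          · have : M p = W₁ ^ (n - (nf p).1) := by simp only [M, if_pos h]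
            rw [this]; exact hfdpow _
          · have : M p = ⊥ := by simp only [M, if_neg h]
            rw [this]; infer_instance
        have hx₀ : x₀ ∈ Submodule.pi Set.univ M := by
          rw [Submodule.mem_pi]
          intro p _
          by_cases h : (nf p).1 ≤ n
          · simp only [x₀, M, if_pos h]
            exact coeff_mem_of_mem_Rees W₁ (c p).2 _
          · simp only [x₀, M, if_neg h]
            simp
        have hΦx₀ : Φ x₀ = f := by
          have h3 := congrArg (fun q : Rees W₁ => (q : R[X]).coeff n) hc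
          simp only [coeff_C_mul, coeff_X_pow, if_true, mul_one] at h3
          rw [← h3]
          change ∑ p, x₀ p * (nf p).2 = _
          rw [AddSubmonoidClass.coe_finsetSum, finsetSum_coeff]
          apply Finset.sum_congr rfl
          intro p _
          change _ = (((c p : Rees W₁) : R[X]) * ((p : Rees W₁) : R[X])).coeff n
          rw [hnfp p, ← mul_assoc, coeff_mul_X_pow']
          by_cases h : (nf p).1 ≤ n
          · simp only [x₀, if_pos h, coeff_mul_C]
          · simp only [x₀, if_neg h, zero_mul]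
        obtain ⟨x, hxM, hxf, hxI⟩ := hInv s R Φ (fun g => (γ g : R →ₐ[ℂ] R).toLinearMap)
          (Submodule.pi Set.univ M) (fd_pi M hMfd) (by
            intro g x hx
            rw [Submodule.mem_pi] at hx ⊢
            intro p _
            have hxp := hx p trivial
            by_cases h : (nf p).1 ≤ n
            · simp only [M, if_pos h] at hxp ⊢
              exact hpowst _ g _ hxp
            · simp only [M, if_neg h, Submodule.mem_bot] at hxp ⊢
              rw [hxp, map_zero]) (by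
            intro h hh x _
            change ∑ p, γ h (x p) * (nf p).2 = γ h (∑ p, x p * (nf p).2)
            rw [map_sum]
            apply Finset.sum_congr rfl
            intro p _
            rw [map_mul, hnfI p h hh]) x₀ hx₀ (by
            intro h hh
            rw [hΦx₀]
            exact hfI h hh)
        rw [hΦx₀] at hxf
        rw [← hxf]
        change ∑ p, x p * (nf p).2 ∈ A₀
        refine A₀.sum_mem fun p _ => ?_
        refine A₀.mul_mem ?_ (Algebra.subset_adjoin ⟨p, rfl⟩)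
        rw [Submodule.mem_pi] at hxM
        have hxp := hxM p trivial
        by_cases h : (nf p).1 ≤ n
        · simp only [M, if_pos h] at hxp
          exact ih (n - (nf p).1) (by have := hnf1 p; omega) _ hxp (fun h hh => hxI h hh p)
        · simp only [M, if_neg h, Submodule.mem_bot] at hxp
          rw [hxp]; exact A₀.zero_mem
  refine ⟨Finset.univ.image (fun p : s => (nf p).2), ?_⟩
  have hA : Algebra.adjoin ℂ ((Finset.univ.image (fun p : s => (nf p).2) : Finset R) : Set R) = A₀ := by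
    simp [A₀]
  rw [hA]
  apply le_antisymm
  · apply Algebra.adjoin_le
    rintro _ ⟨p, rfl⟩
    exact hnfI p
  · intro f hf
    have hf2 : f ∈ Algebra.adjoin ℂ (W₁ : Set R) := by rw [hgen]; trivial
    have hmono : ∀ i j, i ≤ j → W₁ ^ i ≤ W₁ ^ j := by
      intro i j hij
      exact pow_le_pow_right' (by rwa [Submodule.one_le]) hij
    have hex : ∃ n, f ∈ W₁ ^ n := by
      clear hf
      induction hf2 using Algebra.adjoin_induction with
      | mem x hx => exact ⟨1, by simpa using hx⟩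
      | algebraMap c => exact ⟨0, by rw [pow_zero]; exact Submodule.algebraMap_mem c⟩
      | add a b _ _ ha hb =>
        obtain ⟨i, hi⟩ := ha
        obtain ⟨j, hj⟩ := hb
        exact ⟨max i j, Submodule.add_mem _ (hmono _ _ (le_max_left _ _) hi)
          (hmono _ _ (le_max_right _ _) hj)⟩
      | mul a b _ _ ha hb =>
        obtain ⟨i, hi⟩ := ha
        obtain ⟨j, hj⟩ := hb
        exact ⟨i + j, by rw [pow_add]; exact Submodule.mul_mem_mul hi hj⟩
    obtain ⟨n, hn⟩ := hex
    exact key n f hn hf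

/-- Local finiteness of the action. -/
def LF (γ : G →* (R ≃ₐ[ℂ] R)) : Prop :=
  ∀ r : R, ∃ W : Submodule ℂ R, FiniteDimensional ℂ W ∧ r ∈ W ∧ ∀ g, ∀ x ∈ W, γ g x ∈ W

/-- The module of `H`-equivariant maps from a subspace of `R` to `R` is finitely generated over
the invariants. -/
theorem hom_fg (γ : G →* (R ≃ₐ[ℂ] R)) (H : Subgroup G) (hInv : InvProp γ H) (hLF : LF γ)
    [IsNoetherianRing R] (V : Submodule ℂ R) [FiniteDimensional ℂ V]
    (hV : ∀ h ∈ H, ∀ x ∈ V, γ h x ∈ V) :
    ∃ (J : Type) (_ : Fintype J) (φ : J → (V →ₗ[ℂ] R)),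
      (∀ j, ∀ h (hh : h ∈ H), ∀ w : V, φ j ⟨γ h w, hV h hh w w.2⟩ = γ h (φ j w)) ∧
      ∀ ψ : V →ₗ[ℂ] R, (∀ h (hh : h ∈ H), ∀ w : V, ψ ⟨γ h w, hV h hh w w.2⟩ = γ h (ψ w)) →
        ∃ r : J → R, (∀ j, r j ∈ invS γ H) ∧ ∀ w, ψ w = ∑ j, r j * φ j w := by
  classical
  have hnoeth : IsNoetherian R (V →ₗ[ℂ] R) :=
    isNoetherian_of_linearEquiv ((finBasis ℂ V).constr R)
  let HS : Set (V →ₗ[ℂ] R) := {ψ | ∀ h (hh : h ∈ H), ∀ w : V, ψ ⟨γ h w, hV h hh w w.2⟩ = γ h (ψ w)}
  have hI : (Submodule.span R HS).FG := IsNoetherian.noetherian _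
  obtain ⟨s, hsG, hs⟩ := (Submodule.fg_span_iff_fg_span_finset_subset HS).1 hI
  refine ⟨s, inferInstance, fun j => j, fun j => hsG j.2, ?_⟩
  intro ψ hψ
  have hmem : ψ ∈ Submodule.span R (s : Set (V →ₗ[ℂ] R)) := by
    rw [← hs]; exact Submodule.subset_span hψ
  obtain ⟨c, hc⟩ := Submodule.mem_span_finset'.1 hmem
  choose Wf hWfd hWmem hWst using hLF
  let Φ : (s → R) →ₗ[ℂ] (V →ₗ[ℂ] R) :=
    { toFun := fun x => ∑ p, x p • (p : V →ₗ[ℂ] R)
      map_add' := by intro x y; simp [add_smul, Finset.sum_add_distrib]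
      map_smul' := by intro a x; simp [Finset.smul_sum] }
  have hΦa : ∀ x w, Φ x w = ∑ p, x p * (p : V →ₗ[ℂ] R) w := by
    intro x w
    change (∑ p, x p • (p : V →ₗ[ℂ] R)) w = _
    rw [LinearMap.sum_apply]
    rfl
  have hVinv : ∀ h ∈ H, ∀ x ∈ V, γ h⁻¹ x ∈ V := fun h hh x hx => hV _ (H.inv_mem hh) x hx
  let τ : G → (V →ₗ[ℂ] R) →ₗ[ℂ] (V →ₗ[ℂ] R) := fun g =>
    if hg : g ∈ H then
      { toFun := fun ψ => (γ g : R →ₐ[ℂ] R).toLinearMap ∘ₗ ψ ∘ₗ
          ((γ g⁻¹ : R →ₐ[ℂ] R).toLinearMap.restrict (hVinv g hg))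
        map_add' := by intro x y; ext w; simp
        map_smul' := by intro a x; ext w; simp }
    else 0
  have hτ : ∀ g (hg : g ∈ H) ψ w, τ g ψ w = γ g (ψ ⟨γ g⁻¹ w, hVinv g hg w w.2⟩) := by
    intro g hg ψ w
    simp only [τ, dif_pos hg]
    rfl
  have hcancel : ∀ g (x : R), γ g (γ g⁻¹ x) = x := by
    intro g x
    rw [← AlgEquiv.mul_apply, ← map_mul]; simp
  have hfix : ∀ ψ ∈ HS, ∀ h ∈ H, τ h ψ = ψ := by
    intro ψ hψ h hh
    ext w
    rw [hτ h hh, ← hψ h hh]
    congr 1
    ext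
    exact hcancel h w
  obtain ⟨x, -, hxψ, hxI⟩ := hInv s (V →ₗ[ℂ] R) Φ τ (Submodule.pi Set.univ fun p => Wf (c p))
    (fd_pi _ fun p => hWfd _) (by
      intro g x hx
      rw [Submodule.mem_pi] at hx ⊢
      intro p _
      exact hWst _ g _ (hx p trivial)) (by
      intro h hh x _
      ext w
      rw [hΦa, hτ h hh, hΦa, map_sum]
      apply Finset.sum_congr rfl
      intro p _
      rw [map_mul]
      congr 1
      rw [← hsG p.2 h hh]
      congr 1
      ext
      exact (hcancel h w).symm) c (by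
      rw [Submodule.mem_pi]
      intro p _
      exact hWmem _) (by
      intro h hh
      have : Φ c = ψ := hc
      rw [this]
      exact hfix ψ hψ h hh)
  have hcψ : Φ c = ψ := hc
  rw [hcψ] at hxψ
  exact ⟨x, fun j h hh => hxI h hh j, fun w => by rw [← hxψ, hΦa]⟩

end

end Run7.h388
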