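import Pool.Agent.Run7.h388.Asm
import Pool.Agent.Run7.h388.CurveR
import Pool.Agent.Run7.h388.Hilb

namespace Run7.h388

open Polynomial WithZero

variable {G R : Type} [Group G] [CommRing R] [Algebra ℂ R]

/-- Translates of a finite-dimensional subspace span a finite-dimensional subspace. -/
theorem exists_fd_stable {γ : G →* (R ≃ₐ[ℂ] R)} (hLF : LF γ) (W : Submodule ℂ R)
    [FiniteDimensional ℂ W] : ∃ W' : Submodule ℂ R, FiniteDimensional ℂ W' ∧ W ≤ W' ∧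
      ∀ g, ∀ x ∈ W', γ g x ∈ W' := by
  classical
  obtain ⟨t, ht⟩ := (Submodule.fg_iff_finiteDimensional W).2 inferInstance
  choose Wf h1 h2 h3 using hLF
  refine ⟨⨆ x : t, Wf x, ?_, ?_, ?_⟩
  · have : ∀ x : t, FiniteDimensional ℂ (Wf x) := fun x => h1 _
    exact Submodule.finiteDimensional_iSup _
  · rw [← ht, Submodule.span_le]
    intro x hx
    exact (le_iSup (fun x : t => Wf x) ⟨x, hx⟩) (h2 x)
  · intro g
    change _ ≤ (⨆ x : t, Wf x).comap (γ g : R →ₐ[ℂ] R).toLinearMap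
    apply iSup_le
    intro x y hy
    exact (le_iSup (fun x : t => Wf x) x) (h3 x g y hy)

/-- The sum of all translates. -/
def gspan (γ : G → (R ≃ₐ[ℂ] R)) (W : Submodule ℂ R) : Submodule ℂ R :=
  ⨆ g, W.map (γ g : R →ₐ[ℂ] R).toLinearMap

theorem le_gspan (γ : G →* (R ≃ₐ[ℂ] R)) (W : Submodule ℂ R) : W ≤ gspan γ W := by
  intro x hx
  refine (le_iSup (fun g => W.map (γ g : R →ₐ[ℂ] R).toLinearMap) 1) ⟨x, hx, ?_⟩
  change γ 1 x = x
  simp

theorem gspan_stable (γ : G →* (R ≃ₐ[ℂ] R)) (W : Submodule ℂ R) (g : G) :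
    ∀ x ∈ gspan γ W, γ g x ∈ gspan γ W := by
  change _ ≤ (gspan γ W).comap (γ g : R →ₐ[ℂ] R).toLinearMap
  apply iSup_le
  rintro g' _ ⟨x, hx, rfl⟩
  refine (le_iSup (fun g => W.map (γ g : R →ₐ[ℂ] R).toLinearMap) (g * g')) ⟨x, hx, ?_⟩
  change γ (g * g') x = γ g (γ g' x)
  rw [map_mul]; rfl

theorem gspan_fd {γ : G →* (R ≃ₐ[ℂ] R)} (hLF : LF γ) (W : Submodule ℂ R)
    [FiniteDimensional ℂ W] : FiniteDimensional ℂ (gspan γ W) := by
  obtain ⟨W', h1, h2, h3⟩ := exists_fd_stable hLF W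
  refine Submodule.finiteDimensional_of_le (S₂ := W') ?_
  apply iSup_le
  rintro g _ ⟨x, hx, rfl⟩
  exact h3 g x (h2 hx)

omit [Group G] in
theorem gspan_aut (γ : G → (R ≃ₐ[ℂ] R)) (W : Submodule ℂ R) {a : R ≃+* R} (ha : a ∈ AutG γ)
    (haW : ∀ x ∈ W, a x ∈ W) : ∀ x ∈ gspan γ W, a x ∈ gspan γ W := by
  let al : R →ₗ[ℂ] R := { toFun := a, map_add' := map_add a, map_smul' := ha.1 }
  change _ ≤ (gspan γ W).comap al
  apply iSup_le
  rintro g _ ⟨x, hx, rfl⟩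
  refine (le_iSup (fun g => W.map (γ g : R →ₐ[ℂ] R).toLinearMap) g) ⟨a x, haW x hx, ?_⟩
  change γ g (a x) = a (γ g x)
  rw [ha.2]

/-- The hypotheses which describe the action. `H` plays the role of the identity component and
`B` of its Borel subgroup. -/
structure Setting [IsDomain R] (γ : G →* (R ≃ₐ[ℂ] R)) (H B : Subgroup G) : Prop where
  le : B ≤ H
  lf : LF γ
  inv : InvProp γ H
  dec : ∀ W : Submodule ℂ R, FiniteDimensional ℂ W → (∀ g, ∀ x ∈ W, γ g x ∈ W) →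
    ∃ (n : ℕ) (V : Fin n → Submodule ℂ R), (⨆ i, V i = W) ∧ ∀ i, V i ≤ W ∧
      (∀ h ∈ H, ∀ x ∈ V i, γ h x ∈ V i) ∧
      (∀ U ≤ V i, (∀ h ∈ H, ∀ x ∈ U, γ h x ∈ U) → U = ⊥ ∨ U = V i) ∧
      ∃ w ∈ V i, w ≠ 0 ∧ ∀ b ∈ B, ∃ c : ℂ, γ b w = c • w
  orb : ∀ p q : R, q ≠ 0 →
    {z : FractionRing R | ∃ h ∈ H, z = algebraMap R (FractionRing R) (γ h p) / algebraMap R (FractionRing R) (γ h q)}.Finite →
      ∀ h ∈ H, γ h p * q = p * γ h q

section Alpha

variable {γ : G →* (R ≃ₐ[ℂ] R)} {H B : Subgroup G}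

/-- The case without nonconstant invariants. -/
theorem core_alpha [IsDomain R] [IsNoetherianRing R] (hS : Setting γ H B) (s : G → G)
    (W₀ : Submodule ℂ R) [FiniteDimensional ℂ W₀] (hgen : Algebra.adjoin ℂ (W₀ : Set R) = ⊤)
    (hW₀ : ∀ g, ∀ x ∈ W₀, γ g x ∈ W₀) (hconst : invS γ H = ⊥) :
    ∃ S : Set (R ≃+* R), S.Finite ∧ S ⊆ RealStr γ s ∧
      ∀ μ ∈ RealStr γ s, ∃ c ∈ AutG γ, ∃ ν ∈ S, c * μ * c⁻¹ = ν := by
  obtain ⟨n, V, hVsup, hV⟩ := hS.dec W₀ inferInstance hW₀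
  have hfdV : ∀ i, FiniteDimensional ℂ (V i) := fun i =>
    Submodule.finiteDimensional_of_le (hV i).1
  choose J hJ φ hφ hφgen using fun i => hom_fg γ H hS.inv hS.lf (V i) (hV i).2.1
  let W₁ : Submodule ℂ R := ⨆ i, ⨆ j : J i, LinearMap.range (φ i j)
  have hfd1 : FiniteDimensional ℂ W₁ := by
    have : ∀ i, Finite (J i) := fun i => @Finite.of_fintype _ (hJ i)
    have h2 : ∀ i, FiniteDimensional ℂ ↥(⨆ j : J i, LinearMap.range (φ i j)) := fun i =>
      Submodule.finiteDimensional_iSup _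
    exact Submodule.finiteDimensional_iSup _
  have hmem : ∀ i (ψ : V i →ₗ[ℂ] R), (∀ h (hh : h ∈ H), ∀ w : V i,
      ψ ⟨γ h w, (hV i).2.1 h hh w w.2⟩ = γ h (ψ w)) → ∀ w, ψ w ∈ W₁ := by
    intro i ψ hψ w
    obtain ⟨r, hr, hrψ⟩ := hφgen i ψ hψ
    rw [hrψ]
    refine Submodule.sum_mem _ fun j _ => ?_
    have h1 := hr j
    rw [hconst, Algebra.mem_bot] at h1
    obtain ⟨c, hc⟩ := h1
    rw [← hc, ← Algebra.smul_def]
    refine Submodule.smul_mem _ _ ?_
    have hle : LinearMap.range (φ i j) ≤ W₁ :=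
      le_iSup_of_le (f := fun i => ⨆ j : J i, LinearMap.range (φ i j)) i
        (le_iSup (fun j : J i => LinearMap.range (φ i j)) j)
    exact hle ⟨w, rfl⟩
  have hW₀W₁ : W₀ ≤ W₁ := by
    rw [← hVsup]
    apply iSup_le
    intro i w hw
    exact hmem i (V i).subtype (fun h hh w => rfl) ⟨w, hw⟩
  have haut : ∀ a ∈ AutG γ, ∀ x ∈ W₁, a x ∈ W₁ := by
    intro a ha
    let al : R →ₗ[ℂ] R := { toFun := a, map_add' := map_add a, map_smul' := ha.1 }
    change _ ≤ W₁.comap al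
    refine iSup_le fun i => iSup_le fun j => ?_
    rintro _ ⟨w, rfl⟩
    refine hmem i (al ∘ₗ φ i j) ?_ w
    intro h hh w
    change a (φ i j _) = γ h (a (φ i j w))
    rw [hφ i j h hh, ha.2]
  have hfdg := gspan_fd hS.lf W₁
  refine assemble γ s (AutG γ) le_rfl (fun μ hμ a ha => real_norm ha hμ)
    (fun _ => ()) ?_ (fun _ (i : Empty) => i.elim) (fun _ _ _ _ => by ext i; exact i.elim)
    (gspan γ W₁) ?_ (gspan_stable γ W₁) (fun a ha _ => gspan_aut γ W₁ ha (haut a ha))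
  · intro μ hμ μ' hμ' _
    rw [real_inv hμ]
    exact real_mul hμ hμ'
  · rw [eq_top_iff, ← hgen]
    exact Algebra.adjoin_mono (show (W₀ : Set R) ⊆ (gspan γ W₁ : Set R) from fun x hx =>
      le_gspan γ W₁ (hW₀W₁ hx))

end Alpha

section Frac

variable {γ : G →* (R ≃ₐ[ℂ] R)} {H B : Subgroup G}

/-- `z` is a fraction invariant under `B`. -/
def FracInv [IsDomain R] (γ : G →* (R ≃ₐ[ℂ] R)) (B : Subgroup G) (z : FractionRing R) : Prop :=
  ∃ p q : R, q ≠ 0 ∧ z = algebraMap R (FractionRing R) p / algebraMap R (FractionRing R) q ∧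
    ∀ b ∈ B, γ b p * q = p * γ b q

/-- Any two `B`-invariant fractions are algebraically dependent. -/
def TrB (γ : G →* (R ≃ₐ[ℂ] R)) (B : Subgroup G) [IsDomain R] : Prop :=
  ∀ z z' : FractionRing R, FracInv γ B z → FracInv γ B z' → ∃ P : ℂ[X][X], P ≠ 0 ∧
    P.eval₂ (aeval z' : ℂ[X] →ₐ[ℂ] FractionRing R).toRingHom z = 0

variable [IsDomain R]

theorem frac_inv [IsIntegrallyClosed R] (hS : Setting γ H B) (hTr : TrB γ B) (h₀ : R)
    (hh₀ : h₀ ∈ invS γ H) (hnc : h₀ ∉ (⊥ : Subalgebra ℂ R)) (x y : R) (hy : y ≠ 0)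
    (hxy : ∀ b ∈ B, γ b x * y = x * γ b y) :
    ∃ p ∈ invS γ H, ∃ q ∈ invS γ H, q ≠ 0 ∧ q * x = p * y := by
  let K := FractionRing R
  let m : R →+* K := algebraMap R K
  have hm : Function.Injective m := IsFractionRing.injective R K
  let f : K := m x / m y
  have hmy : m y ≠ 0 := fun h => hy (hm (by rw [h, map_zero]))
  -- transcendence of `h₀`
  have htr : Transcendental ℂ (m h₀) := by
    intro halg
    obtain ⟨c, hc⟩ := alg_const halg
    apply hnc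
    rw [Algebra.mem_bot]
    refine ⟨c, hm ?_⟩
    rw [← hc]
    exact (IsScalarTower.algebraMap_apply ℂ R K c).symm
  obtain ⟨P, hP0, hP⟩ := hTr f (m h₀) ⟨x, y, hy, rfl, hxy⟩
    ⟨h₀, 1, one_ne_zero, by simp [m, K], fun b hb => by
      rw [hh₀ b (hS.le hb)]; simp⟩
  let g : ℂ[X] →+* K := (aeval (m h₀) : ℂ[X] →ₐ[ℂ] K).toRingHom
  have hg : Function.Injective g := transcendental_iff_injective.1 htr
  have hPK : P.map g ≠ 0 := (Polynomial.map_ne_zero_iff hg).2 hP0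
  have hfin : {z : K | ∃ h ∈ H, z = m (γ h x) / m (γ h y)}.Finite := by
    refine (Polynomial.finite_setOfPred_isRoot hPK).subset ?_
    rintro z ⟨h, hh, rfl⟩
    let e : K ≃+* K := IsFractionRing.ringEquivOfRingEquiv ((γ h : R ≃ₐ[ℂ] R) : R ≃+* R)
    have he : ∀ r : R, e (m r) = m (γ h r) := fun r =>
      IsFractionRing.ringEquivOfRingEquiv_algebraMap ((γ h : R ≃ₐ[ℂ] R) : R ≃+* R) r
    have hef : e f = m (γ h x) / m (γ h y) := by
      rw [map_div₀, he, he]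
    have hcomp : (e : K →+* K).comp g = g := by
      apply Polynomial.ringHom_ext
      · intro c
        change e (aeval (m h₀) (C c)) = aeval (m h₀) (C c)
        rw [aeval_C]
        have : algebraMap ℂ K c = m (algebraMap ℂ R c) := IsScalarTower.algebraMap_apply ℂ R K c
        rw [this, he, (γ h).commutes]
      · change e (aeval (m h₀) X) = aeval (m h₀) X
        rw [aeval_X, he, hh₀ h hh]
    change (P.map g).IsRoot _
    rw [IsRoot, eval_map, ← hef]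
    have h1 := Polynomial.hom_eval₂ P g (e : K →+* K) f
    rw [hcomp] at h1
    change P.eval₂ g (e f) = 0
    rw [← RingHom.coe_coe, ← h1]
    have h2 : P.eval₂ g f = 0 := hP
    rw [h2, map_zero]
  have hfix := hS.orb x y hy hfin
  -- integrality
  let gR : ℂ[X] →+* R := (aeval h₀ : ℂ[X] →ₐ[ℂ] R).toRingHom
  have hgR : (m.comp gR) = g := by
    apply Polynomial.ringHom_ext
    · intro c
      change m (aeval h₀ (C c)) = aeval (m h₀) (C c)
      rw [aeval_C, aeval_C]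
      exact (IsScalarTower.algebraMap_apply ℂ R K c).symm
    · change m (aeval h₀ X) = aeval (m h₀) X
      rw [aeval_X, aeval_X]
  let PR : R[X] := P.map gR
  have hPR0 : PR ≠ 0 := by
    intro h
    apply hPK
    rw [← hgR, ← Polynomial.map_map]
    change PR.map m = 0
    rw [h, Polynomial.map_zero]
  have hint : IsIntegral R (PR.leadingCoeff • f) := by
    apply isIntegral_leadingCoeff_smul
    change eval₂ m f PR = 0
    rw [Polynomial.eval₂_map, hgR]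
    exact hP
  obtain ⟨p, hp⟩ := IsIntegrallyClosed.isIntegral_iff.1 hint
  have hqmem : PR.leadingCoeff ∈ invS γ H := by
    change PR.coeff _ ∈ _
    rw [Polynomial.coeff_map]
    change aeval h₀ _ ∈ invS γ H
    have := Polynomial.aeval_mem_adjoin_singleton ℂ h₀ (p := P.coeff PR.natDegree)
    exact (Algebra.adjoin_le (by simpa using hh₀) : Algebra.adjoin ℂ {h₀} ≤ invS γ H) this
  have hpy : PR.leadingCoeff * x = p * y := by
    apply hm
    rw [map_mul, map_mul]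
    change m _ * m x = m p * m y
    have h3 : m p = m PR.leadingCoeff * (m x / m y) := by
      rw [← Algebra.smul_def]; exact hp
    rw [h3, mul_assoc, div_mul_cancel₀ _ hmy]
  refine ⟨p, ?_, PR.leadingCoeff, hqmem, leadingCoeff_ne_zero.2 hPR0, hpy⟩
  intro h hh
  have hyh : γ h y ≠ 0 := by
    intro h0
    exact hy ((map_eq_zero_iff _ (γ h).injective).1 h0)
  have h4 : γ h PR.leadingCoeff * γ h x = γ h p * γ h y := by
    rw [← map_mul, ← map_mul, hpy]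
  rw [hqmem h hh] at h4
  have h5 : γ h p * (γ h y * y) = p * (γ h y * y) := by
    calc γ h p * (γ h y * y) = (γ h p * γ h y) * y := by ring
      _ = PR.leadingCoeff * (γ h x * y) := by rw [← h4]; ring
      _ = PR.leadingCoeff * x * γ h y := by rw [hfix h hh]; ring
      _ = p * (γ h y * y) := by rw [hpy]; ring
  exact mul_right_cancel₀ (mul_ne_zero hyh hy) h5

theorem trOne_inv (hS : Setting γ H B) (hTr : TrB γ B) : TrOne (FractionRing (invS γ H)) := by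
  let K := FractionRing R
  have hinj : Function.Injective (((IsScalarTower.toAlgHom ℂ R K).comp (invS γ H).val) :
      invS γ H →ₐ[ℂ] K) := by
    intro a b hab
    exact Subtype.ext (IsFractionRing.injective R K hab)
  let j : FractionRing (invS γ H) →ₐ[ℂ] K := IsFractionRing.liftAlgHom hinj
  have hj : Function.Injective j := (j : FractionRing (invS γ H) →+* K).injective
  have hjm : ∀ r : invS γ H, j (algebraMap _ _ r) = algebraMap R K r := by
    intro r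
    exact IsFractionRing.lift_algebraMap hinj r
  have hFI : ∀ z, FracInv γ B (j z) := by
    intro z
    obtain ⟨p, q, hq, rfl⟩ := IsFractionRing.div_surjective (A := invS γ H) z
    have hq0 := nonZeroDivisors.ne_zero hq
    refine ⟨p, q, fun h => hq0 (Subtype.ext h), ?_, ?_⟩
    · have := map_div₀ (j : FractionRing (invS γ H) →+* K) (algebraMap _ _ p) (algebraMap _ _ q)
      refine this.trans ?_
      change j _ / j _ = _
      rw [hjm, hjm]
    · intro b hb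
      rw [p.2 b (hS.le hb), q.2 b (hS.le hb)]
  intro y _ x
  obtain ⟨P, hP0, hP⟩ := hTr (j x) (j y) (hFI x) (hFI y)
  refine ⟨P, hP0, hj ?_⟩
  rw [map_zero, ← hP]
  have h1 := Polynomial.hom_eval₂ P (aeval y : ℂ[X] →ₐ[ℂ] _).toRingHom (j : _ →+* K) x
  refine h1.trans ?_
  congr 1
  apply Polynomial.ringHom_ext
  · intro c
    change j (aeval y (C c)) = aeval (j y) (C c)
    rw [aeval_C, aeval_C, j.commutes]
  · change j (aeval y X) = aeval (j y) X
    rw [aeval_X, aeval_X]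

end Frac

section Beta

variable {γ : G →* (R ≃ₐ[ℂ] R)} {H B : Subgroup G} [IsDomain R] [IsIntegrallyClosed R]

/-- An equivariant map from a simple submodule to `R` is multiplication by an invariant
fraction. -/
theorem exists_ratio (hS : Setting γ H B) (hTr : TrB γ B) (h₀ : R)
    (hh₀ : h₀ ∈ invS γ H) (hnc : h₀ ∉ (⊥ : Subalgebra ℂ R)) (V : Submodule ℂ R)
    (hVst : ∀ h ∈ H, ∀ x ∈ V, γ h x ∈ V)
    (hVs : ∀ U ≤ V, (∀ h ∈ H, ∀ x ∈ U, γ h x ∈ U) → U = ⊥ ∨ U = V)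
    (w₀ : R) (hw₀ : w₀ ∈ V) (hw0 : w₀ ≠ 0) (hwB : ∀ b ∈ B, ∃ c : ℂ, γ b w₀ = c • w₀)
    (ψ : V →ₗ[ℂ] R) (hψ : ∀ h (hh : h ∈ H), ∀ w : V, ψ ⟨γ h w, hVst h hh w w.2⟩ = γ h (ψ w)) :
    ∃ p ∈ invS γ H, ∃ q ∈ invS γ H, q ≠ 0 ∧ ∀ w : V, q * ψ w = p * w := by
  obtain ⟨p, hp, q, hq, hq0, hpq⟩ := frac_inv hS hTr h₀ hh₀ hnc (ψ ⟨w₀, hw₀⟩) w₀ hw0 (by
    intro b hb
    obtain ⟨c, hc⟩ := hwB b hb
    rw [← hψ b (hS.le hb)]
    have h1 : (⟨γ b w₀, hVst b (hS.le hb) w₀ hw₀⟩ : V) = c • ⟨w₀, hw₀⟩ := Subtype.ext hc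
    change ψ ⟨γ b w₀, hVst b (hS.le hb) w₀ hw₀⟩ * w₀ = _
    rw [h1, map_smul, hc]
    simp)
  refine ⟨p, hp, q, hq, hq0, ?_⟩
  let U : Submodule ℂ R :=
    { carrier := {w | ∃ hw : w ∈ V, q * ψ ⟨w, hw⟩ = p * w}
      zero_mem' := ⟨V.zero_mem, by
        have : (⟨0, V.zero_mem⟩ : V) = 0 := rfl
        rw [this, map_zero]; simp⟩
      add_mem' := by
        rintro a b ⟨ha, ha'⟩ ⟨hb, hb'⟩
        refine ⟨V.add_mem ha hb, ?_⟩
        have : (⟨a + b, V.add_mem ha hb⟩ : V) = ⟨a, ha⟩ + ⟨b, hb⟩ := rfl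
        rw [this, map_add, mul_add, ha', hb', mul_add]
      smul_mem' := by
        rintro c a ⟨ha, ha'⟩
        refine ⟨V.smul_mem c ha, ?_⟩
        have : (⟨c • a, V.smul_mem c ha⟩ : V) = c • ⟨a, ha⟩ := rfl
        rw [this, map_smul, mul_smul_comm, ha', mul_smul_comm] }
  have hU : U = ⊥ ∨ U = V := by
    refine hVs U (fun w hw => hw.1) ?_
    rintro h hh w ⟨hw, hw'⟩
    refine ⟨hVst h hh w hw, ?_⟩
    have h1 := hψ h hh ⟨w, hw⟩
    simp only at h1
    rw [h1]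
    have h2 := congrArg (γ h) hw'
    rw [map_mul, map_mul, hq h hh, hp h hh] at h2
    exact h2
  have hUV : U = V := by
    rcases hU with h | h
    · exfalso
      have : w₀ ∈ U := ⟨hw₀, hpq⟩
      rw [h, Submodule.mem_bot] at this
      exact hw0 this
    · exact h
  intro w
  have : (w : R) ∈ U := by rw [hUV]; exact w.2
  exact this.2

/-- The bounded part of the isotypic component. -/
def Wb (γ : G →* (R ≃ₐ[ℂ] R)) (H : Subgroup G) (𝒰 : Set (R → ℤᵐ⁰)) (V : Submodule ℂ R) :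
    Submodule ℂ R :=
  Submodule.span ℂ {r | ∃ p ∈ invS γ H, ∃ q ∈ invS γ H, q ≠ 0 ∧ (∀ u ∈ 𝒰, u p ≤ u q) ∧
    (∀ w' ∈ V, ∃ r', q * r' = p * w') ∧ ∃ w ∈ V, q * r = p * w}

/-- The bounded part is finite-dimensional. -/
theorem Wb_fd [IsNoetherianRing R] (hS : Setting γ H B) (hTr : TrB γ B) (h₀ : R)
    (hh₀ : h₀ ∈ invS γ H) (hnc : h₀ ∉ (⊥ : Subalgebra ℂ R)) (V : Submodule ℂ R)
    [FiniteDimensional ℂ V]
    (hVst : ∀ h ∈ H, ∀ x ∈ V, γ h x ∈ V)
    (hVs : ∀ U ≤ V, (∀ h ∈ H, ∀ x ∈ U, γ h x ∈ U) → U = ⊥ ∨ U = V)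
    (w₀ : R) (hw₀ : w₀ ∈ V) (hw0 : w₀ ≠ 0) (hwB : ∀ b ∈ B, ∃ c : ℂ, γ b w₀ = c • w₀)
    (𝒰 : Set (R → ℤᵐ⁰)) (hmul : ∀ u ∈ 𝒰, ∀ x ∈ invS γ H, ∀ y ∈ invS γ H, u (x * y) = u x * u y)
    (hzero : ∀ u ∈ 𝒰, ∀ x ∈ invS γ H, u x = 0 ↔ x = 0)
    (hL : ∀ c ∈ invS γ H, c ≠ 0 → ∃ L : Submodule ℂ R, FiniteDimensional ℂ L ∧
      ∀ e ∈ invS γ H, (∀ u ∈ 𝒰, u e ≤ u c) → e ∈ L) :
    FiniteDimensional ℂ (Wb γ H 𝒰 V) := by
  classical
  obtain ⟨J, hJ, φ, hφ, hφgen⟩ := hom_fg γ H hS.inv hS.lf V hVst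
  choose P hP Q hQ hQ0 hPQ using fun j => exists_ratio hS hTr h₀ hh₀ hnc V hVst hVs w₀ hw₀ hw0
    hwB (φ j) (hφ j)
  let c : R := ∏ j, Q j
  have hc : c ∈ invS γ H := Subalgebra.prod_mem _ fun j _ => hQ j
  have hc0 : c ≠ 0 := Finset.prod_ne_zero_iff.2 fun j _ => hQ0 j
  -- every equivariant map becomes integral after multiplication by `c`
  have hclear : ∀ ψ : V →ₗ[ℂ] R, (∀ h (hh : h ∈ H), ∀ w : V,
      ψ ⟨γ h w, hVst h hh w w.2⟩ = γ h (ψ w)) → ∃ e ∈ invS γ H, ∀ w, c * ψ w = e * w := by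
    intro ψ hψ
    obtain ⟨r, hr, hrψ⟩ := hφgen ψ hψ
    refine ⟨∑ j, r j * ((∏ l ∈ Finset.univ.erase j, Q l) * P j), ?_, ?_⟩
    · exact Subalgebra.sum_mem _ fun j _ => Subalgebra.mul_mem _ (hr j)
        (Subalgebra.mul_mem _ (Subalgebra.prod_mem _ fun l _ => hQ l) (hP j))
    · intro w
      rw [hrψ, Finset.mul_sum, Finset.sum_mul]
      apply Finset.sum_congr rfl
      intro j _
      have h1 : c = Q j * ∏ l ∈ Finset.univ.erase j, Q l :=
        (Finset.mul_prod_erase Finset.univ Q (Finset.mem_univ j)).symm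
      rw [h1]
      calc _ = r j * (∏ l ∈ Finset.univ.erase j, Q l) * (Q j * φ j w) := by ring
        _ = _ := by rw [hPQ]; ring
  obtain ⟨L, hLfd, hLmem⟩ := hL c hc hc0
  -- the target
  let T : Submodule ℂ R := (L * V).comap (LinearMap.mulLeft ℂ c)
  have hTfd : FiniteDimensional ℂ T := by
    have hLV : FiniteDimensional ℂ ↥(L * V) := by
      apply (Submodule.fg_iff_finiteDimensional _).1
      exact ((Submodule.fg_iff_finiteDimensional _).2 hLfd).mul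
        ((Submodule.fg_iff_finiteDimensional _).2 inferInstance)
    exact Module.Finite.of_injective
      ((LinearMap.mulLeft ℂ c).restrict (p := T) (q := L * V) (fun x hx => hx))
      (fun x y hxy => Subtype.ext (mul_left_cancel₀ hc0 (congrArg Subtype.val hxy)))
  refine Submodule.finiteDimensional_of_le (S₂ := T) ?_
  rw [Wb, Submodule.span_le]
  rintro r ⟨p, hp, q, hq, hq0, hpq, hall, w, hw, hrw⟩
  -- the associated equivariant map
  choose ρ hρ using fun w' : V => hall w' w'.2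
  have hρu : ∀ (w' : V) (z : R), q * z = p * w' → z = ρ w' := fun w' z hz =>
    mul_left_cancel₀ hq0 (hz.trans (hρ w').symm)
  let ψ : V →ₗ[ℂ] R :=
    { toFun := ρ
      map_add' := by
        intro x y
        refine (hρu _ _ ?_).symm
        rw [mul_add, hρ, hρ, Submodule.coe_add, mul_add]
      map_smul' := by
        intro a x
        refine (hρu _ _ ?_).symm
        rw [RingHom.id_apply, mul_smul_comm, hρ, Submodule.coe_smul, mul_smul_comm] }
  obtain ⟨e, he, hce⟩ := hclear ψ (by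
    intro h hh x
    refine (hρu _ _ ?_).symm
    change q * γ h (ρ x) = p * γ h x
    have h1 := congrArg (γ h) (hρ x)
    rw [map_mul, map_mul, hq h hh, hp h hh] at h1
    exact h1)
  have hψw : ∀ w' : V, q * ψ w' = p * w' := hρ
  have hqe : q * e = c * p := by
    apply mul_right_cancel₀ hw0
    have h1 := hce ⟨w₀, hw₀⟩
    have h2 := hψw ⟨w₀, hw₀⟩
    simp only at h1 h2
    calc q * e * w₀ = q * (e * w₀) := by ring
      _ = c * (q * ψ ⟨w₀, hw₀⟩) := by rw [← h1]; ring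
      _ = c * p * w₀ := by rw [h2]; ring
  have heL : e ∈ L := by
    apply hLmem e he
    intro u hu
    have h1 : u q * u e = u c * u p := by
      rw [← hmul u hu q hq e he, ← hmul u hu c hc p hp, hqe]
    have hq' : u q ≠ 0 := fun h => hq0 ((hzero u hu q hq).1 h)
    have h2 : u q * u e ≤ u q * u c := by
      rw [h1, mul_comm (u q)]
      exact mul_le_mul_right (hpq u hu) _
    exact (mul_le_mul_iff_right₀ (zero_lt_iff.2 hq')).1 h2
  have hr : r = ψ ⟨w, hw⟩ := hρu ⟨w, hw⟩ r hrw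
  change r ∈ T
  rw [Submodule.mem_comap]
  change c * r ∈ L * V
  rw [hr, hce]
  exact Submodule.mul_mem_mul heL hw

/-- The case with a nonconstant invariant. -/
theorem core_beta [IsNoetherianRing R] (hS : Setting γ H B) (hTr : TrB γ B) (s : G → G)
    (hsH : ∀ h ∈ H, s h ∈ H)
    (W₀ : Submodule ℂ R) [FiniteDimensional ℂ W₀] (hgen : Algebra.adjoin ℂ (W₀ : Set R) = ⊤)
    (h1W : (1 : R) ∈ W₀)
    (hW₀ : ∀ g, ∀ x ∈ W₀, γ g x ∈ W₀) (h₀ : R)
    (hh₀ : h₀ ∈ invS γ H) (hnc : h₀ ∉ (⊥ : Subalgebra ℂ R)) :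
    ∃ S : Set (R ≃+* R), S.Finite ∧ S ⊆ RealStr γ s ∧
      ∀ μ ∈ RealStr γ s, ∃ c ∈ AutG γ, ∃ ν ∈ S, c * μ * c⁻¹ = ν := by
  classical
  have hfgI : (invS γ H).FG := hilbert γ H hS.inv W₀ h1W hW₀ hgen
  have hft : Algebra.FiniteType ℂ (invS γ H) := (Subalgebra.fg_iff_finiteType _).1 hfgI
  obtain ⟨𝒱, h𝒱fin, h𝒱val, h𝒱aut, h𝒱L⟩ := curve_package (trOne_inv hS hTr)
  let ext0 : (invS γ H → ℤᵐ⁰) → (R → ℤᵐ⁰) := fun v r => if h : r ∈ invS γ H then v ⟨r, h⟩ else 0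
  have ext0_of : ∀ v (r : R) (h : r ∈ invS γ H), ext0 v r = v ⟨r, h⟩ := by
    intro v r h; simp only [ext0, dif_pos h]
  let 𝒰 : Set (R → ℤᵐ⁰) := ext0 '' 𝒱
  have h𝒰fin : 𝒰.Finite := h𝒱fin.image _
  have hmul : ∀ u ∈ 𝒰, ∀ x ∈ invS γ H, ∀ y ∈ invS γ H, u (x * y) = u x * u y := by
    rintro _ ⟨v, hv, rfl⟩ x hx y hy
    rw [ext0_of v x hx, ext0_of v y hy, ext0_of v (x * y) (Subalgebra.mul_mem _ hx hy),
      ← (h𝒱val v hv).1]
    rfl
  have hzero : ∀ u ∈ 𝒰, ∀ x ∈ invS γ H, u x = 0 ↔ x = 0 := by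
    rintro _ ⟨v, hv, rfl⟩ x hx
    rw [ext0_of v x hx, (h𝒱val v hv).2]
    exact ⟨fun h => congrArg Subtype.val h, fun h => Subtype.ext h⟩
  have hL : ∀ c ∈ invS γ H, c ≠ 0 → ∃ L : Submodule ℂ R, FiniteDimensional ℂ L ∧
      ∀ e ∈ invS γ H, (∀ u ∈ 𝒰, u e ≤ u c) → e ∈ L := by
    intro c hc hc0
    obtain ⟨L, hLfd, hL⟩ := h𝒱L ⟨c, hc⟩ (fun h => hc0 (congrArg Subtype.val h))
    refine ⟨L.map (invS γ H).val.toLinearMap, inferInstance, ?_⟩
    intro e he hue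
    refine ⟨⟨e, he⟩, hL ⟨e, he⟩ ?_, rfl⟩
    intro v hv
    have := hue _ ⟨v, hv, rfl⟩
    rwa [ext0_of v e he, ext0_of v c hc] at this
  -- action of automorphisms on the places
  have haut : ∀ e : R ≃+* R, (∀ x ∈ invS γ H, e x ∈ invS γ H) →
      (∀ x ∈ invS γ H, e⁻¹ x ∈ invS γ H) →
      (∀ c : ℂ, ∃ c' : ℂ, e (algebraMap ℂ R c) = algebraMap ℂ R c') →
      ∀ u ∈ 𝒰, (fun x => u (e x)) ∈ 𝒰 := by
    rintro e he he' hec _ ⟨v, hv, rfl⟩
    let e₀ : invS γ H ≃+* invS γ H :=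
      { toFun := fun x => ⟨e x, he x x.2⟩
        invFun := fun x => ⟨e⁻¹ x, he' x x.2⟩
        left_inv := fun x => Subtype.ext (e.symm_apply_apply x)
        right_inv := fun x => Subtype.ext (e.apply_symm_apply x)
        map_mul' := fun x y => Subtype.ext (map_mul e (x : R) (y : R))
        map_add' := fun x y => Subtype.ext (map_add e (x : R) (y : R)) }
    refine ⟨fun x => v (e₀ x), h𝒱aut v hv e₀ ?_, ?_⟩
    · intro c
      obtain ⟨c', hc'⟩ := hec c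
      exact ⟨c', Subtype.ext hc'⟩
    · funext x
      by_cases hx : x ∈ invS γ H
      · change _ = ext0 v (e x)
        rw [ext0_of v (e x) (he x hx)]
        exact ext0_of (fun x => v (e₀ x)) x hx
      · have hx' : e x ∉ invS γ H := by
          intro h
          apply hx
          have := he' _ h
          have h2 : e⁻¹ (e x) = x := e.symm_apply_apply x
          rwa [h2] at this
        change _ = ext0 v (e x)
        simp only [ext0, dif_neg hx, dif_neg hx']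
  have hAinv : ∀ a ∈ AutG γ, ∀ x ∈ invS γ H, a x ∈ invS γ H := by
    intro a ha x hx h hh
    rw [← ha.2, hx h hh]
  have hMinv : ∀ μ ∈ RealStr γ s, ∀ x ∈ invS γ H, μ x ∈ invS γ H := by
    intro μ hμ x hx h hh
    rw [← real_ss hμ h, ← hμ.2.2, hx _ (hsH h hh)]
  have hAaut : ∀ a ∈ AutG γ, ∀ u ∈ 𝒰, (fun x => u (a x)) ∈ 𝒰 := by
    intro a ha
    refine haut a (hAinv a ha) (hAinv _ ((AutG γ).inv_mem ha)) (fun c => ⟨c, ?_⟩)
    rw [Algebra.algebraMap_eq_smul_one, ha.1, map_one]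
  have hMaut : ∀ μ ∈ RealStr γ s, ∀ u ∈ 𝒰, (fun x => u (μ x)) ∈ 𝒰 := by
    intro μ hμ
    refine haut μ (hMinv μ hμ) (by rw [real_inv hμ]; exact hMinv μ hμ)
      (fun c => ⟨starRingEnd ℂ c, ?_⟩)
    rw [Algebra.algebraMap_eq_smul_one, hμ.1, map_one, ← Algebra.algebraMap_eq_smul_one]
  let A' : Subgroup (R ≃+* R) :=
    { carrier := {a | a ∈ AutG γ ∧ ∀ u ∈ 𝒰, ∀ x, u (a x) = u x}
      one_mem' := ⟨(AutG γ).one_mem, fun _ _ _ => rfl⟩
      mul_mem' := by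
        rintro a b ⟨ha, ha'⟩ ⟨hb, hb'⟩
        refine ⟨(AutG γ).mul_mem ha hb, fun u hu x => ?_⟩
        change u (a (b x)) = u x
        rw [ha' u hu, hb' u hu]
      inv_mem' := by
        rintro a ⟨ha, ha'⟩
        refine ⟨(AutG γ).inv_mem ha, fun u hu x => ?_⟩
        have := ha' u hu (a⁻¹ x)
        have h2 : a (a⁻¹ x) = x := a.apply_symm_apply x
        rw [h2] at this
        exact this.symm }
  -- decomposition
  obtain ⟨n, V, hVsup, hV⟩ := hS.dec W₀ inferInstance hW₀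
  have hfdV : ∀ i, FiniteDimensional ℂ (V i) := fun i =>
    Submodule.finiteDimensional_of_le (hV i).1
  have hVst : ∀ i, ∀ h ∈ H, ∀ x ∈ V i, γ h x ∈ V i := fun i => (hV i).2.1
  have hVs : ∀ i, ∀ U ≤ V i, (∀ h ∈ H, ∀ x ∈ U, γ h x ∈ U) → U = ⊥ ∨ U = V i :=
    fun i => (hV i).2.2.1
  choose w hw hw0 hwB using fun i => (hV i).2.2.2
  have hrat : ∀ (a : R ≃+* R) (i : Fin n), ∃ p q : R, a ∈ AutG γ →
      (p ∈ invS γ H ∧ q ∈ invS γ H ∧ p ≠ 0 ∧ q ≠ 0 ∧ ∀ x ∈ V i, q * a x = p * x) := by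
    intro a i
    by_cases ha : a ∈ AutG γ
    · let al : R →ₗ[ℂ] R := { toFun := a, map_add' := map_add a, map_smul' := ha.1 }
      obtain ⟨p, hp, q, hq, hq0, hpq⟩ := exists_ratio hS hTr h₀ hh₀ hnc (V i) (hVst i) (hVs i)
        (w i) (hw i) (hw0 i) (hwB i) (al ∘ₗ (V i).subtype) (by
          intro h hh x
          change a (γ h x) = γ h (a x)
          rw [ha.2])
      refine ⟨p, q, fun _ => ⟨hp, hq, ?_, hq0, fun x hx => hpq ⟨x, hx⟩⟩⟩
      rintro rfl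
      have h1 := hpq ⟨w i, hw i⟩
      change q * a (w i) = 0 * _ at h1
      rw [zero_mul, mul_eq_zero] at h1
      rcases h1 with h1 | h1
      · exact hq0 h1
      · exact hw0 i ((map_eq_zero_iff a a.injective).1 h1)
    · exact ⟨0, 0, fun h => absurd h ha⟩
  choose P Q hPQ using hrat
  have hfin𝒰 : Finite 𝒰 := h𝒰fin
  let k : (R ≃+* R) → (𝒰 × Fin n) → ℤ := fun a ui => log (ui.1.1 (P a ui.2)) - log (ui.1.1 (Q a ui.2))
  let θ : (R ≃+* R) → (𝒰 → Option 𝒰) := fun e u =>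
    if h : (fun x => u.1 (e x)) ∈ 𝒰 then some ⟨_, h⟩ else none
  -- the space
  let W₁ : Submodule ℂ R := ⨆ i, Wb γ H 𝒰 (V i)
  have hW₁fd : FiniteDimensional ℂ W₁ := by
    have : ∀ i, FiniteDimensional ℂ (Wb γ H 𝒰 (V i)) := fun i =>
      Wb_fd hS hTr h₀ hh₀ hnc (V i) (hVst i) (hVs i) (w i) (hw i) (hw0 i) (hwB i) 𝒰 hmul hzero hL
    exact Submodule.finiteDimensional_iSup _
  have hW₀W₁ : W₀ ≤ W₁ := by
    rw [← hVsup]
    apply iSup_le
    intro i x hx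
    refine (le_iSup (fun i => Wb γ H 𝒰 (V i)) i) (Submodule.subset_span ?_)
    exact ⟨1, Subalgebra.one_mem _, 1, Subalgebra.one_mem _, one_ne_zero, fun _ _ => le_rfl,
      fun w' _ => ⟨w', rfl⟩, x, hx, rfl⟩
  have hW₁A : ∀ a ∈ A', k a = 0 → ∀ x ∈ W₁, a x ∈ W₁ := by
    intro a ha hka
    have haG : a ∈ AutG γ := ha.1
    let al : R →ₗ[ℂ] R := { toFun := a, map_add' := map_add a, map_smul' := haG.1 }
    change _ ≤ W₁.comap al
    refine iSup_le fun i => ?_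
    rw [Wb, Submodule.span_le]
    rintro r ⟨p, hp, q, hq, hq0, hpq, hall, x, hx, hrx⟩
    change a r ∈ W₁
    refine (le_iSup (fun i => Wb γ H 𝒰 (V i)) i) (Submodule.subset_span ?_)
    obtain ⟨hP1, hQ1, hP0, hQ0, hPQx⟩ := hPQ a i haG
    refine ⟨a p * P a i, Subalgebra.mul_mem _ (hAinv a haG p hp) hP1, a q * Q a i,
      Subalgebra.mul_mem _ (hAinv a haG q hq) hQ1, ?_, ?_, ?_, x, hx, ?_⟩
    · refine mul_ne_zero (fun h => hq0 ((map_eq_zero_iff a a.injective).1 h)) hQ0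
    · intro u hu
      rw [hmul u hu _ (hAinv a haG p hp) _ hP1, hmul u hu _ (hAinv a haG q hq) _ hQ1,
        ha.2 u hu, ha.2 u hu]
      have h1 : u (P a i) = u (Q a i) := by
        have h2 : log (u (P a i)) - log (u (Q a i)) = 0 := congrFun hka (⟨u, hu⟩, i)
        have h3 : u (P a i) ≠ 0 := fun h => hP0 ((hzero u hu _ hP1).1 h)
        have h4 : u (Q a i) ≠ 0 := fun h => hQ0 ((hzero u hu _ hQ1).1 h)
        rw [← exp_log h3, ← exp_log h4, sub_eq_zero.1 h2]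
      rw [h1]
      exact mul_le_mul_left (hpq u hu) _
    · intro w' hw'
      obtain ⟨r', hr'⟩ := hall w' hw'
      refine ⟨a r', ?_⟩
      have h1 := congrArg a hr'
      rw [map_mul, map_mul] at h1
      calc a q * Q a i * a r' = Q a i * (a q * a r') := by ring
        _ = a p * (Q a i * a w') := by rw [h1]; ring
        _ = a p * P a i * w' := by rw [hPQx w' hw']; ring
    · have h1 := congrArg a hrx
      rw [map_mul, map_mul] at h1
      calc a q * Q a i * a r = Q a i * (a q * a r) := by ring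
        _ = a p * (Q a i * a x) := by rw [h1]; ring
        _ = a p * P a i * x := by rw [hPQx x hx]; ring
  have hfdg := gspan_fd hS.lf W₁
  refine assemble γ s A' (fun a ha => ha.1) ?_ θ ?_ k ?_ (gspan γ W₁) ?_ (gspan_stable γ W₁)
    (fun a ha hka => gspan_aut γ W₁ ha.1 (hW₁A a ha hka))
  · intro μ hμ a ha
    refine ⟨real_norm ha.1 hμ, fun u hu x => ?_⟩
    rw [real_inv hμ]
    change u (μ (a (μ x))) = u x
    have h1 : u (μ (a (μ x))) = u (μ (μ x)) := ha.2 _ (hMaut μ hμ u hu) (μ x)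
    rw [h1, real_real hμ]
  · intro μ hμ μ' hμ' hθ
    refine ⟨by rw [real_inv hμ]; exact real_mul hμ hμ', fun u hu x => ?_⟩
    rw [real_inv hμ]
    change u (μ' (μ x)) = u x
    have h1 := congrFun hθ ⟨u, hu⟩
    simp only [θ, dif_pos (hMaut μ hμ u hu), dif_pos (hMaut μ' hμ' u hu), Option.some.injEq,
      Subtype.mk.injEq] at h1
    have h2 : u (μ (μ x)) = u (μ' (μ x)) := congrFun h1 (μ x)
    rw [← h2, real_real hμ]
  · intro a ha b hb
    funext ui
    obtain ⟨⟨u, hu⟩, i⟩ := ui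
    obtain ⟨hPa, hQa, hPa0, hQa0, ha'⟩ := hPQ a i ha.1
    obtain ⟨hPb, hQb, hPb0, hQb0, hb'⟩ := hPQ b i hb.1
    obtain ⟨hPc, hQc, hPc0, hQc0, hc'⟩ := hPQ (a * b) i ((AutG γ).mul_mem ha.1 hb.1)
    have e1 := hb' _ (hw i)
    have e2 := congrArg a e1
    rw [map_mul, map_mul] at e2
    have e3 := ha' _ (hw i)
    have e4 := hc' _ (hw i)
    change Q (a * b) i * a (b (w i)) = _ at e4
    have key : Q a i * a (Q b i) * P (a * b) i = Q (a * b) i * (a (P b i) * P a i) := by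
      apply mul_right_cancel₀ (hw0 i)
      calc Q a i * a (Q b i) * P (a * b) i * w i = Q a i * a (Q b i) * (P (a * b) i * w i) := by ring
        _ = Q (a * b) i * (Q a i * (a (Q b i) * a (b (w i)))) := by rw [← e4]; ring
        _ = Q (a * b) i * (a (P b i) * (Q a i * a (w i))) := by rw [e2]; ring
        _ = Q (a * b) i * (a (P b i) * P a i) * w i := by rw [e3]; ring
    have hnz : ∀ x ∈ invS γ H, x ≠ 0 → u x ≠ 0 := fun x hx hx0 h => hx0 ((hzero u hu x hx).1 h)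
    have hI := hAinv a ha.1
    have key2 := congrArg u key
    rw [hmul u hu _ (Subalgebra.mul_mem _ hQa (hI _ hQb)) _ hPc, hmul u hu _ hQa _ (hI _ hQb),
      hmul u hu _ hQc _ (Subalgebra.mul_mem _ (hI _ hPb) hPa), hmul u hu _ (hI _ hPb) _ hPa,
      ha.2 u hu, ha.2 u hu] at key2
    have key3 := congrArg log key2
    rw [log_mul (mul_ne_zero (hnz _ hQa hQa0) (hnz _ hQb hQb0)) (hnz _ hPc hPc0),
      log_mul (hnz _ hQa hQa0) (hnz _ hQb hQb0),
      log_mul (hnz _ hQc hQc0) (mul_ne_zero (hnz _ hPb hPb0) (hnz _ hPa hPa0)),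
      log_mul (hnz _ hPb hPb0) (hnz _ hPa hPa0)] at key3
    change log (u (P (a * b) i)) - log (u (Q (a * b) i)) =
      (log (u (P a i)) - log (u (Q a i))) + (log (u (P b i)) - log (u (Q b i)))
    linarith
  · rw [eq_top_iff, ← hgen]
    exact Algebra.adjoin_mono (show (W₀ : Set R) ⊆ (gspan γ W₁ : Set R) from fun x hx =>
      le_gspan γ W₁ (hW₀W₁ hx))

end Beta

end Run7.h388
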