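import Mathlib

namespace Run7.h388

open Polynomial WithZero IsDedekindDomain

/-- A discrete place of a field `F` over the complex numbers: a surjective `ℤᵐ⁰`-valued
valuation, trivial on the constants. -/
structure IsPlace {F : Type*} [Field F] [Algebra ℂ F] (v : Valuation F ℤᵐ⁰) : Prop where
  surj : Function.Surjective v
  triv : ∀ c : ℂ, c ≠ 0 → v (algebraMap ℂ F c) = 1

theorem val_eq_of_le_one_iff {F : Type*} [Field F] (v w : Valuation F ℤᵐ⁰)
    (hv : Function.Surjective v) (hw : Function.Surjective w)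
    (h : ∀ x, v x ≤ 1 ↔ w x ≤ 1) : v = w := by
  have hlt : ∀ x, v x < 1 ↔ w x < 1 := by
    intro x
    by_cases hx : x = 0
    · simp [hx]
    have hvx : v x ≠ 0 := (Valuation.ne_zero_iff _).2 hx
    have hwx : w x ≠ 0 := (Valuation.ne_zero_iff _).2 hx
    have h1 := h x⁻¹
    rw [map_inv₀, map_inv₀] at h1
    have e1 : v x < 1 ↔ ¬ (v x)⁻¹ ≤ 1 := by
      rw [not_le, one_lt_inv₀ (zero_lt_iff.2 hvx)]
    have e2 : w x < 1 ↔ ¬ (w x)⁻¹ ≤ 1 := by
      rw [not_le, one_lt_inv₀ (zero_lt_iff.2 hwx)]
    rw [e1, e2, h1]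
  have heq : ∀ x, v x = 1 ↔ w x = 1 := by
    intro x
    constructor
    · intro e
      exact le_antisymm ((h x).1 e.le) (not_lt.1 fun hh => absurd ((hlt x).2 hh) (by simp [e]))
    · intro e
      exact le_antisymm ((h x).2 e.le) (not_lt.1 fun hh => absurd ((hlt x).1 hh) (by simp [e]))
  obtain ⟨p, hp⟩ := hw (exp (-1))
  have hp0 : p ≠ 0 := by
    rintro rfl
    rw [map_zero] at hp
    exact exp_ne_zero hp.symm
  have hvp0 : v p ≠ 0 := (Valuation.ne_zero_iff _).2 hp0
  -- every x is a power of p times a unit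
  have key : ∀ x, x ≠ 0 → v x = v p ^ (-(log (w x))) := by
    intro x hx
    have hwx : w x ≠ 0 := (Valuation.ne_zero_iff _).2 hx
    have h1 : w (x * (p ^ (-(log (w x))))⁻¹) = 1 := by
      rw [map_mul, map_inv₀, map_zpow₀, hp, ← exp_zsmul]
      rw [mul_inv_eq_one₀ exp_ne_zero]
      have : (-(log (w x))) • (-1 : ℤ) = log (w x) := by simp
      rw [this, exp_log hwx]
    have h2 := (heq _).2 h1
    rw [map_mul, map_inv₀, map_zpow₀, mul_inv_eq_one₀ (zpow_ne_zero _ hvp0)] at h2
    exact h2
  have hvp : v p = exp (-1) := by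
    obtain ⟨q, hq⟩ := hv (exp (-1))
    have hq0 : q ≠ 0 := by
      rintro rfl
      rw [map_zero] at hq
      exact exp_ne_zero hq.symm
    have h1 := key q hq0
    rw [hq] at h1
    have h2 : log (v p ^ (-(log (w q)))) = -1 := by rw [← h1, log_exp]
    rw [log_zpow] at h2
    have h3 : v p < 1 := (hlt p).2 (by rw [hp, ← exp_zero, exp_lt_exp]; norm_num)
    have h4 : log (v p) < 0 := by
      have := (log_lt_log hvp0 one_ne_zero).2 h3
      simpa using this
    have h5 : log (v p) = -1 := by
      have hd : log (v p) ∣ 1 := by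
        refine ⟨log (w q), ?_⟩
        have : (-(log (w q))) * log (v p) = -1 := by simpa using h2
        linarith
      rcases Int.isUnit_iff.1 (isUnit_of_dvd_one hd) with h | h
      · rw [h] at h4; norm_num at h4
      · exact h
    rw [← exp_log hvp0, h5]
  ext x
  by_cases hx : x = 0
  · simp [hx]
  · have hwx : w x ≠ 0 := (Valuation.ne_zero_iff _).2 hx
    rw [key x hx, hvp, ← exp_zsmul]
    have : (-(log (w x))) • (-1 : ℤ) = log (w x) := by simp
    rw [this, exp_log hwx]

section Dedekind

variable {F : Type*} [Field F] {D : Type*} [CommRing D] [IsDedekindDomain D] [Algebra D F]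
  [IsFractionRing D F]

/-- A valuation that is at most `1` on a Dedekind domain with fraction field `F` and smaller
than one somewhere is the adic valuation of a prime. -/
theorem exists_adic (v : Valuation F ℤᵐ⁰) (hv : Function.Surjective v)
    (hD : ∀ d : D, v (algebraMap D F d) ≤ 1) (y : D) (hy0 : y ≠ 0)
    (hy : v (algebraMap D F y) < 1) :
    ∃ p : HeightOneSpectrum D, y ∈ p.asIdeal ∧ v = p.valuation F := by
  let P : Ideal D :=
    { carrier := {d | v (algebraMap D F d) < 1}
      zero_mem' := by simp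
      add_mem' := by
        intro a b ha hb
        simp only [Set.mem_ofPred_eq, map_add] at *
        exact v.map_add_lt ha hb
      smul_mem' := by
        intro c x hx
        simp only [Set.mem_ofPred_eq, smul_eq_mul, map_mul] at *
        calc v (algebraMap D F c) * v (algebraMap D F x) ≤ 1 * v (algebraMap D F x) := by
              gcongr; exact hD c
          _ < 1 := by rwa [one_mul] }
  have memP : ∀ d, d ∈ P ↔ v (algebraMap D F d) < 1 := fun d => Iff.rfl
  have hPprime : P.IsPrime := by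
    refine ⟨?_, ?_⟩
    · intro h
      have : (1 : D) ∈ P := by rw [h]; trivial
      rw [memP] at this
      simp at this
    · intro a b hab
      by_contra hcon
      push Not at hcon
      rw [memP, memP, not_lt, not_lt] at hcon
      have ha := le_antisymm (hD a) hcon.1
      have hb := le_antisymm (hD b) hcon.2
      rw [memP, map_mul, map_mul, ha, hb] at hab
      simp at hab
  have hPbot : P ≠ ⊥ := by
    intro h
    have : y ∈ P := hy
    rw [h] at this
    exact hy0 (by simpa using this)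
  let p : HeightOneSpectrum D := ⟨P, hPprime, hPbot⟩
  refine ⟨p, hy, ?_⟩
  have hunit : ∀ d : D, d ∉ P → v (algebraMap D F d) = 1 := by
    intro d hd
    rw [memP, not_lt] at hd
    exact le_antisymm (hD d) hd
  apply val_eq_of_le_one_iff v (p.valuation F) hv (p.valuation_surjective F)
  intro x
  constructor
  · intro hx
    by_contra hcon
    rw [not_le] at hcon
    have hx0 : x ≠ 0 := by rintro rfl; simp at hcon
    have h1 : p.valuation F x⁻¹ < 1 := by
      rw [map_inv₀]
      exact inv_lt_one_of_one_lt₀ hcon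
    obtain ⟨n, d, hnd⟩ := p.exists_primeCompl_mul_eq_of_integer x⁻¹ h1.le
    have hd : (d : D) ∉ P := d.2
    have hn : n ∈ P := by
      have : p.valuation F (algebraMap D F n) < 1 := by
        rw [← hnd, map_mul]
        calc _ ≤ p.valuation F x⁻¹ * 1 := by gcongr; exact p.valuation_le_one _
          _ < 1 := by rwa [mul_one]
      rwa [p.valuation_lt_one_iff_mem] at this
    have h2 : v x⁻¹ < 1 := by
      have h3 : v x⁻¹ * v (algebraMap D F d) = v (algebraMap D F n) := by
        rw [← map_mul, hnd]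
      rw [hunit d hd, mul_one] at h3
      rw [h3]
      exact hn
    rw [map_inv₀] at h2
    have h4 : v x ≠ 0 := (Valuation.ne_zero_iff _).2 hx0
    rw [inv_lt_one₀ (zero_lt_iff.2 h4)] at h2
    exact absurd hx (not_le.2 h2)
  · intro hx
    obtain ⟨n, d, hnd⟩ := p.exists_primeCompl_mul_eq_of_integer x hx
    have hd : (d : D) ∉ P := d.2
    have h3 : v x * v (algebraMap D F d) = v (algebraMap D F n) := by
      rw [← map_mul, hnd]
    rw [hunit d hd, mul_one] at h3
    rw [h3]
    exact hD n

end Dedekind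

theorem charZ (F : Type*) [Field F] [Algebra ℂ F] : CharZero F :=
  charZero_of_injective_algebraMap (algebraMap ℂ F).injective

section Poly

variable {F : Type*} [Field F] [Algebra ℂ F] [Algebra ℂ[X] F] [IsScalarTower ℂ ℂ[X] F]

/-- integral over `ℂ[X]` implies valuation at most one, if the valuation of `X` is. -/
theorem val_le_one_of_isIntegral (v : Valuation F ℤᵐ⁰) (hv : IsPlace v)
    (hX : v (algebraMap ℂ[X] F X) ≤ 1) {x : F} (hx : IsIntegral ℂ[X] x) : v x ≤ 1 := by
  have hpol : ∀ p : ℂ[X], v (algebraMap ℂ[X] F p) ≤ 1 := by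
    intro p
    induction p using Polynomial.induction_on' with
    | add p q hp hq => rw [map_add]; exact v.map_add_le hp hq
    | monomial n a =>
      rw [← C_mul_X_pow_eq_monomial, map_mul, map_mul, map_pow, map_pow]
      have h1 : v (algebraMap ℂ[X] F (C a)) ≤ 1 := by
        have : algebraMap ℂ[X] F (C a) = algebraMap ℂ F a := by
          rw [IsScalarTower.algebraMap_apply ℂ ℂ[X] F]; rfl
        rw [this]
        by_cases ha : a = 0
        · simp [ha]
        · rw [hv.triv a ha]
      calc _ ≤ (1 : ℤᵐ⁰) * 1 ^ n := by gcongr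
        _ = 1 := by simp
  have h1 : x ∈ v.integer := by
    have : IsIntegral v.integer x := by
      obtain ⟨p, hp, hpx⟩ := hx
      refine ⟨p.map ((algebraMap ℂ[X] F).codRestrict v.integer hpol), hp.map _, ?_⟩
      rw [eval₂_map]
      exact hpx
    exact (Valuation.integer.integers v).mem_of_integral this
  exact h1

variable [Algebra (FractionRing ℂ[X]) F] [IsScalarTower ℂ[X] (FractionRing ℂ[X]) F]
  [FiniteDimensional (FractionRing ℂ[X]) F]

omit [Algebra ℂ F] [IsScalarTower ℂ ℂ[X] F] [FiniteDimensional (FractionRing ℂ[X]) F] in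
theorem algebraMap_inj : Function.Injective (algebraMap ℂ[X] F) := by
  rw [IsScalarTower.algebraMap_eq ℂ[X] (FractionRing ℂ[X]) F]
  exact (algebraMap (FractionRing ℂ[X]) F).injective.comp (IsFractionRing.injective ℂ[X] _)

/-- Finiteness of the places with `v X < 1`. -/
theorem finite_places_aux : {v : Valuation F ℤᵐ⁰ | IsPlace v ∧ v (algebraMap ℂ[X] F X) < 1}.Finite := by
  have : CharZero F := charZ F
  have : CharZero (FractionRing ℂ[X]) := inferInstance
  have : IsDedekindDomain (integralClosure ℂ[X] F) :=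
    integralClosure.isDedekindDomain ℂ[X] (FractionRing ℂ[X]) F
  have : IsFractionRing (integralClosure ℂ[X] F) F :=
    integralClosure.isFractionRing_of_finite_extension (FractionRing ℂ[X]) F
  let y : integralClosure ℂ[X] F := algebraMap ℂ[X] _ X
  have hy0 : y ≠ 0 := by
    intro h
    have h1 : algebraMap ℂ[X] F X = 0 := by
      have := congrArg (algebraMap (integralClosure ℂ[X] F) F) h
      rwa [map_zero] at this
    exact X_ne_zero (algebraMap_inj (F := F) (by rw [h1, map_zero]))
  have hfin := Ideal.finite_factors (R := integralClosure ℂ[X] F) (I := Ideal.span {y})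
    (by simpa using hy0)
  refine (hfin.image (fun p => p.valuation F)).subset ?_
  rintro v ⟨hv, hvX⟩
  obtain ⟨p, hp, hvp⟩ := exists_adic (D := integralClosure ℂ[X] F) v hv.surj
    (fun d => val_le_one_of_isIntegral v hv hvX.le
      (show IsIntegral ℂ[X] (d : F) from d.2)) y hy0 hvX
  refine ⟨p, ?_, hvp.symm⟩
  simp only [Set.mem_ofPred_eq, Ideal.dvd_span_singleton]
  exact hp

theorem exists_place_aux : ∃ v : Valuation F ℤᵐ⁰, IsPlace v ∧ v (algebraMap ℂ[X] F X) < 1 := by
  have : CharZero F := charZ F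
  have : CharZero (FractionRing ℂ[X]) := inferInstance
  have : IsDedekindDomain (integralClosure ℂ[X] F) :=
    integralClosure.isDedekindDomain ℂ[X] (FractionRing ℂ[X]) F
  have : IsFractionRing (integralClosure ℂ[X] F) F :=
    integralClosure.isFractionRing_of_finite_extension (FractionRing ℂ[X]) F
  let y : integralClosure ℂ[X] F := algebraMap ℂ[X] _ X
  have hy0 : y ≠ 0 := by
    intro h
    have h1 : algebraMap ℂ[X] F X = 0 := by
      have := congrArg (algebraMap (integralClosure ℂ[X] F) F) h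
      rwa [map_zero] at this
    exact X_ne_zero (algebraMap_inj (F := F) (by rw [h1, map_zero]))
  have hinj : Function.Injective (algebraMap ℂ[X] (integralClosure ℂ[X] F)) := by
    intro a b hab
    exact algebraMap_inj (F := F) (congrArg (algebraMap (integralClosure ℂ[X] F) F) hab)
  have hmax : (Ideal.span {(X : ℂ[X])}).IsMaximal :=
    PrincipalIdealRing.isMaximal_of_irreducible irreducible_X
  obtain ⟨P, hP, hPX⟩ := Ideal.exists_ideal_over_maximal_of_isIntegral
    (S := integralClosure ℂ[X] F) (Ideal.span {(X : ℂ[X])}) (by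
      rw [(RingHom.injective_iff_ker_eq_bot _).1 hinj]
      exact bot_le)
  have hyP : y ∈ P := by
    have : (X : ℂ[X]) ∈ Ideal.comap (algebraMap ℂ[X] (integralClosure ℂ[X] F)) P := by
      rw [hPX]; exact Ideal.mem_span_singleton_self _
    exact this
  let p : HeightOneSpectrum (integralClosure ℂ[X] F) := ⟨P, hP.isPrime, by
    rintro rfl
    exact hy0 (by simpa using hyP)⟩
  refine ⟨p.valuation F, ⟨p.valuation_surjective F, ?_⟩, ?_⟩
  · intro c hc
    have h1 : algebraMap ℂ F c = algebraMap (integralClosure ℂ[X] F) F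
        (algebraMap ℂ[X] _ (C c)) := by
      rw [IsScalarTower.algebraMap_apply ℂ ℂ[X] F]; rfl
    have h2 : algebraMap ℂ F c⁻¹ = algebraMap (integralClosure ℂ[X] F) F
        (algebraMap ℂ[X] _ (C c⁻¹)) := by
      rw [IsScalarTower.algebraMap_apply ℂ ℂ[X] F]; rfl
    apply le_antisymm
    · rw [h1]; exact p.valuation_le_one _
    · have h3 : p.valuation F (algebraMap ℂ F c⁻¹) ≤ 1 := by
        rw [h2]; exact p.valuation_le_one _
      rw [map_inv₀, map_inv₀] at h3
      have h4 : p.valuation F (algebraMap ℂ F c) ≠ 0 := by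
        rw [Valuation.ne_zero_iff]
        simpa using hc
      rwa [inv_le_one₀ (zero_lt_iff.2 h4)] at h3
  · have := (p.valuation_lt_one_iff_mem (K := F) y).2 hyP
    exact this

end Poly

/-- Any element of `F` is algebraic over `ℂ[y]`, for every transcendental `y`. -/
def TrOne (F : Type*) [Field F] [Algebra ℂ F] : Prop :=
  ∀ y : F, Transcendental ℂ y → ∀ x : F, ∃ P : ℂ[X][X], P ≠ 0 ∧
    P.eval₂ (aeval y : ℂ[X] →ₐ[ℂ] F).toRingHom x = 0

section Main

variable {F : Type*} [Field F] [Algebra ℂ F]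

theorem alg_const {x : F} (hx : IsAlgebraic ℂ x) : ∃ c : ℂ, algebraMap ℂ F c = x := by
  obtain ⟨p, hp0, hp⟩ := hx
  have hs := IsAlgClosed.splits p
  have hl : algebraMap ℂ F p.leadingCoeff ≠ 0 := by
    simpa using hp0
  rw [hs.eq_prod_roots, map_mul, aeval_C, mul_eq_zero] at hp
  have h1 := hp.resolve_left hl
  rw [map_multiset_prod, Multiset.map_map, Multiset.prod_eq_zero_iff, Multiset.mem_map] at h1
  obtain ⟨c, -, hc⟩ := h1
  refine ⟨c, ?_⟩
  simp only [Function.comp_apply, map_sub, aeval_X, aeval_C, sub_eq_zero] at hc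
  exact hc.symm

theorem transc_of_lt_one (v : Valuation F ℤᵐ⁰) (hv : IsPlace v) {y : F} (hy0 : y ≠ 0)
    (hy : v y < 1) : Transcendental ℂ y := by
  intro h
  obtain ⟨c, rfl⟩ := alg_const h
  have hc : c ≠ 0 := by rintro rfl; simp at hy0
  rw [hv.triv c hc] at hy
  exact lt_irrefl _ hy

theorem places_inst (hF : TrOne F) [Algebra.EssFiniteType ℂ F] (y : F)
    (hy : Transcendental ℂ y) :
    {v : Valuation F ℤᵐ⁰ | IsPlace v ∧ v y < 1}.Finite ∧
      ∃ v : Valuation F ℤᵐ⁰, IsPlace v ∧ v y < 1 := by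
  let : Algebra ℂ[X] F := (aeval y : ℂ[X] →ₐ[ℂ] F).toRingHom.toAlgebra
  have hst : IsScalarTower ℂ ℂ[X] F := IsScalarTower.of_algebraMap_eq (fun c => by
    change _ = aeval y (C c)
    simp)
  have hinj : Function.Injective (algebraMap ℂ[X] F) := by
    exact transcendental_iff_injective.1 hy
  have hfs : FaithfulSMul ℂ[X] F := (faithfulSMul_iff_algebraMap_injective _ _).2 hinj
  let : Algebra (FractionRing ℂ[X]) F := FractionRing.liftAlgebra ℂ[X] F
  have hst2 : IsScalarTower ℂ[X] (FractionRing ℂ[X]) F :=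
    FractionRing.isScalarTower_liftAlgebra ℂ[X] F
  have hst3 : IsScalarTower ℂ (FractionRing ℂ[X]) F := IsScalarTower.of_algebraMap_eq (fun c => by
    rw [IsScalarTower.algebraMap_apply ℂ ℂ[X] F, IsScalarTower.algebraMap_apply ℂ[X]
      (FractionRing ℂ[X]) F, ← IsScalarTower.algebraMap_apply ℂ ℂ[X] (FractionRing ℂ[X])])
  have hess : Algebra.EssFiniteType (FractionRing ℂ[X]) F :=
    Algebra.EssFiniteType.of_comp ℂ (FractionRing ℂ[X]) F
  have hfd : FiniteDimensional (FractionRing ℂ[X]) F := by
    obtain ⟨s, hs⟩ := IntermediateField.fg_top (FractionRing ℂ[X]) F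
    have hint : ∀ x : F, IsIntegral (FractionRing ℂ[X]) x := by
      intro x
      obtain ⟨P, hP0, hP⟩ := hF y hy x
      have h1 : IsAlgebraic ℂ[X] x := ⟨P, hP0, hP⟩
      exact (h1.extendScalars (IsFractionRing.injective ℂ[X] (FractionRing ℂ[X]))).isIntegral
    have h2 : FiniteDimensional (FractionRing ℂ[X])
        (IntermediateField.adjoin (FractionRing ℂ[X]) (s : Set F)) :=
      IntermediateField.finiteDimensional_adjoin (fun x _ => hint x)
    rw [hs] at h2
    exact LinearEquiv.finiteDimensional (IntermediateField.topEquiv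
      (F := FractionRing ℂ[X]) (E := F)).toLinearEquiv
  have hX : algebraMap ℂ[X] F X = y := by
    change aeval y X = y
    simp
  have h1 := finite_places_aux (F := F)
  have h2 := exists_place_aux (F := F)
  rw [hX] at h1 h2
  exact ⟨h1, h2⟩

theorem residue (hF : TrOne F) (v : Valuation F ℤᵐ⁰) (hv : IsPlace v) (x : F) (hx : v x = 1) :
    ∃ c : ℂ, v (x - algebraMap ℂ F c) < 1 := by
  by_contra hcon
  push Not at hcon
  have hx1 : ∀ c : ℂ, v (x - algebraMap ℂ F c) = 1 := by
    intro c
    refine le_antisymm ?_ (hcon c)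
    refine (v.map_sub _ _).trans (max_le hx.le ?_)
    by_cases hc : c = 0
    · simp [hc]
    · rw [hv.triv c hc]
  have hq : ∀ q : ℂ[X], q ≠ 0 → v (aeval x q) = 1 := by
    intro q hq0
    have hs := IsAlgClosed.splits q
    have hl : q.leadingCoeff ≠ 0 := leadingCoeff_ne_zero.2 hq0
    rw [hs.eq_prod_roots, map_mul, aeval_C, map_mul, hv.triv _ hl, one_mul,
      map_multiset_prod, map_multiset_prod, Multiset.map_map, Multiset.map_map]
    apply Multiset.prod_eq_one
    intro z hz
    rw [Multiset.mem_map] at hz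
    obtain ⟨c, -, rfl⟩ := hz
    simp [hx1]
  have htr : Transcendental ℂ x := by
    intro h
    obtain ⟨q, hq0, hqx⟩ := h
    have := hq q hq0
    rw [hqx] at this
    simp at this
  obtain ⟨y, hy⟩ := hv.surj (exp (-1))
  have hy0 : y ≠ 0 := by
    rintro rfl
    rw [map_zero] at hy
    exact exp_ne_zero hy.symm
  have hy1 : v y < 1 := by rw [hy, ← exp_zero, exp_lt_exp]; norm_num
  let : Algebra ℂ[X] F := (aeval x : ℂ[X] →ₐ[ℂ] F).toRingHom.toAlgebra
  obtain ⟨P, hP0, hP⟩ := hF x htr y
  have h1 : IsAlgebraic ℂ[X] y := ⟨P, hP0, hP⟩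
  obtain ⟨t, ht, r, hr, hrt⟩ := h1.exists_nonzero_eq_adjoin_mul (mem_nonZeroDivisors_of_ne_zero hy0)
  have hvt : v t ≤ 1 := by
    clear hrt
    induction ht using Algebra.adjoin_induction with
    | mem z hz =>
      rw [Set.mem_singleton_iff.1 hz]; exact hy1.le
    | algebraMap q =>
      change v (aeval x q) ≤ 1
      by_cases hq0 : q = 0
      · simp [hq0]
      · exact (hq q hq0).le
    | add a b _ _ ha hb => exact v.map_add_le ha hb
    | mul a b _ _ ha hb => rw [map_mul]; exact mul_le_one' ha hb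
  have h2 : v (algebraMap ℂ[X] F r) = 1 := hq r hr
  rw [← hrt, map_mul] at h2
  have h3 : v y * v t < 1 := by
    calc v y * v t ≤ v y * 1 := by gcongr
      _ < 1 := by rwa [mul_one]
  rw [h2] at h3
  exact lt_irrefl _ h3

/-- The places of `F` at which some element of `R₀` has a pole. -/
def InfPl (R₀ : Subalgebra ℂ F) : Set (Valuation F ℤᵐ⁰) := {v | IsPlace v ∧ ∃ r ∈ R₀, 1 < v r}

theorem infPl_finite (hF : TrOne F) [Algebra.EssFiniteType ℂ F] (R₀ : Subalgebra ℂ F)
    (hfg : R₀.FG) : (InfPl R₀).Finite := by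
  obtain ⟨s, hs⟩ := hfg
  have hone : ∀ z : F, {v : Valuation F ℤᵐ⁰ | IsPlace v ∧ 1 < v z}.Finite := by
    intro z
    rcases Set.eq_empty_or_nonempty {v : Valuation F ℤᵐ⁰ | IsPlace v ∧ 1 < v z} with h | ⟨w, hw, hwz⟩
    · rw [h]; exact Set.finite_empty
    · have hz0 : z ≠ 0 := by rintro rfl; simp at hwz
      have hwz' : w z⁻¹ < 1 := by
        rw [map_inv₀]; exact inv_lt_one_of_one_lt₀ hwz
      have htr := transc_of_lt_one w hw (inv_ne_zero hz0) hwz'
      refine (places_inst hF z⁻¹ htr).1.subset ?_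
      rintro v ⟨hv, hvz⟩
      refine ⟨hv, ?_⟩
      rw [map_inv₀]; exact inv_lt_one_of_one_lt₀ hvz
  refine ((s.finite_toSet.biUnion (fun z _ => hone z))).subset ?_
  rintro v ⟨hv, r, hr, hvr⟩
  by_contra hcon
  simp only [Set.mem_iUnion, Set.mem_ofPred_eq, not_exists, not_and] at hcon
  have : v r ≤ 1 := by
    clear hvr
    rw [← hs] at hr
    induction hr using Algebra.adjoin_induction with
    | mem z hz => exact not_lt.1 (hcon z hz hv)
    | algebraMap c =>
      by_cases hc : c = 0
      · simp [hc]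
      · exact (hv.triv c hc).le
    | add a b _ _ ha hb => exact v.map_add_le ha hb
    | mul a b _ _ ha hb => rw [map_mul]; exact mul_le_one' ha hb
  exact absurd hvr (not_lt.2 this)

theorem const_of_le_one (hF : TrOne F) [Algebra.EssFiniteType ℂ F] (R₀ : Subalgebra ℂ F)
    (h : F) (hh : h ∈ R₀) (hv : ∀ v ∈ InfPl R₀, v h ≤ 1) : ∃ c : ℂ, algebraMap ℂ F c = h := by
  by_cases ha : IsAlgebraic ℂ h
  · exact alg_const ha
  · exfalso
    have h0 : h ≠ 0 := by rintro rfl; exact ha isAlgebraic_zero
    have htr : Transcendental ℂ h⁻¹ := fun hc => ha (by simpa using hc.inv)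
    obtain ⟨v, hvp, hlt⟩ := (places_inst hF h⁻¹ htr).2
    have h1 : 1 < v h := by
      rw [map_inv₀] at hlt
      have h4 : v h ≠ 0 := (Valuation.ne_zero_iff _).2 h0
      rwa [inv_lt_one₀ (zero_lt_iff.2 h4)] at hlt
    exact absurd h1 (not_lt.2 (hv v ⟨hvp, h, hh, h1⟩))

/-- The space of functions with poles bounded by `n` at the places in `V`. -/
def LL (V : Set (Valuation F ℤᵐ⁰)) (hV : ∀ v ∈ V, IsPlace v) (R₀ : Subalgebra ℂ F)
    (n : Valuation F ℤᵐ⁰ → ℤ) : Submodule ℂ F where
  carrier := {h | h ∈ R₀ ∧ ∀ v ∈ V, v h ≤ exp (n v)}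
  zero_mem' := ⟨R₀.zero_mem, by simp⟩
  add_mem' := by
    rintro a b ⟨ha, ha'⟩ ⟨hb, hb'⟩
    exact ⟨R₀.add_mem ha hb, fun v hv => v.map_add_le (ha' v hv) (hb' v hv)⟩
  smul_mem' := by
    rintro c x ⟨hx, hx'⟩
    refine ⟨R₀.smul_mem hx c, fun v hv => ?_⟩
    rw [Algebra.smul_def, map_mul]
    by_cases hc : c = 0
    · simp [hc]
    · rw [(hV v hv).triv c hc, one_mul]; exact hx' v hv

theorem mem_LL {V : Set (Valuation F ℤᵐ⁰)} {hV : ∀ v ∈ V, IsPlace v} {R₀ : Subalgebra ℂ F}
    {n : Valuation F ℤᵐ⁰ → ℤ} {h : F} :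
    h ∈ LL V hV R₀ n ↔ h ∈ R₀ ∧ ∀ v ∈ V, v h ≤ exp (n v) := Iff.rfl

theorem fd_LL (hF : TrOne F) [Algebra.EssFiniteType ℂ F] (R₀ : Subalgebra ℂ F)
    (hfg : R₀.FG) : ∀ (N : ℕ) (n : Valuation F ℤᵐ⁰ → ℤ),
    (∑ v ∈ (infPl_finite hF R₀ hfg).toFinset, (n v).toNat) = N →
    FiniteDimensional ℂ (LL (InfPl R₀) (fun v hv => hv.1) R₀ n) := by
  intro N
  induction N with
  | zero =>
    intro n hn
    have h0 : ∀ v ∈ InfPl R₀, n v ≤ 0 := by
      intro v hv
      have := (Finset.sum_eq_zero_iff.1 hn) v (by simpa using hv)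
      exact Int.toNat_eq_zero.1 this
    have hle : LL (InfPl R₀) (fun v hv => hv.1) R₀ n ≤ Submodule.span ℂ {(1 : F)} := by
      rintro h ⟨hh, hh'⟩
      obtain ⟨c, rfl⟩ := const_of_le_one hF R₀ h hh (fun v hv => by
        refine (hh' v hv).trans ?_
        rw [← exp_zero, exp_le_exp]; exact h0 v hv)
      rw [Algebra.algebraMap_eq_smul_one]
      exact Submodule.smul_mem _ _ (Submodule.mem_span_singleton_self _)
    exact Submodule.finiteDimensional_of_le hle
  | succ N ih =>
    intro n hn
    have hex : ∃ v₀ ∈ InfPl R₀, 0 < n v₀ := by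
      by_contra hcon
      push Not at hcon
      have : (∑ v ∈ (infPl_finite hF R₀ hfg).toFinset, (n v).toNat) = 0 := by
        apply Finset.sum_eq_zero
        intro v hv
        exact Int.toNat_eq_zero.2 (hcon v (by simpa using hv))
      omega
    obtain ⟨v₀, hv₀, hpos⟩ := hex
    classical
    let n' : Valuation F ℤᵐ⁰ → ℤ := Function.update n v₀ (n v₀ - 1)
    have hsum : (∑ v ∈ (infPl_finite hF R₀ hfg).toFinset, (n' v).toNat) = N := by
      have hmem : v₀ ∈ (infPl_finite hF R₀ hfg).toFinset := by simpa using hv₀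
      rw [← Finset.add_sum_erase _ _ hmem] at hn ⊢
      have e1 : ∑ v ∈ (infPl_finite hF R₀ hfg).toFinset.erase v₀, (n' v).toNat =
          ∑ v ∈ (infPl_finite hF R₀ hfg).toFinset.erase v₀, (n v).toNat := by
        apply Finset.sum_congr rfl
        intro v hv
        have : v ≠ v₀ := Finset.ne_of_mem_erase hv
        simp [n', this]
      rw [e1]
      have e2 : n' v₀ = n v₀ - 1 := by simp [n']
      rw [e2]
      omega
    have hfd := ih n' hsum
    by_cases hall : ∀ h ∈ LL (InfPl R₀) (fun v hv => hv.1) R₀ n, v₀ h ≤ exp (n v₀ - 1)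
    · have hle : LL (InfPl R₀) (fun v hv => hv.1) R₀ n ≤
          LL (InfPl R₀) (fun v hv => hv.1) R₀ n' := by
        rintro h hh
        refine ⟨hh.1, fun v hv => ?_⟩
        by_cases hvv : v = v₀
        · subst hvv
          simpa [n'] using hall h hh
        · simpa [n', hvv] using hh.2 v hv
      exact Submodule.finiteDimensional_of_le hle
    · push Not at hall
      obtain ⟨h₀, hh₀, hlt⟩ := hall
      have hv0 : v₀ h₀ ≠ 0 := by
        intro h; rw [h] at hlt; simp at hlt
      have hv0eq : v₀ h₀ = exp (n v₀) := by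
        apply le_antisymm (hh₀.2 v₀ hv₀)
        have h1 : n v₀ - 1 < log (v₀ h₀) := by
          rw [← exp_log hv0, exp_lt_exp] at hlt; exact hlt
        rw [← exp_log hv0, exp_le_exp]; omega
      have h00 : h₀ ≠ 0 := by rintro rfl; simp at hv0
      have hle : LL (InfPl R₀) (fun v hv => hv.1) R₀ n ≤
          LL (InfPl R₀) (fun v hv => hv.1) R₀ n' ⊔ Submodule.span ℂ {h₀} := by
        intro h hh
        have hdrop : ∃ c : ℂ, v₀ (h - algebraMap ℂ F c * h₀) ≤ exp (n v₀ - 1) := by
          by_cases hlt2 : v₀ h ≤ exp (n v₀ - 1)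
          · exact ⟨0, by simpa using hlt2⟩
          · rw [not_le] at hlt2
            have hv1 : v₀ h ≠ 0 := by
              intro h; rw [h] at hlt2; simp at hlt2
            have hv1eq : v₀ h = exp (n v₀) := by
              apply le_antisymm (hh.2 v₀ hv₀)
              have h1 : n v₀ - 1 < log (v₀ h) := by
                rw [← exp_log hv1, exp_lt_exp] at hlt2; exact hlt2
              rw [← exp_log hv1, exp_le_exp]; omega
            have hq : v₀ (h / h₀) = 1 := by
              rw [map_div₀, hv0eq, hv1eq, div_self exp_ne_zero]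
            obtain ⟨c, hc⟩ := residue hF v₀ hv₀.1 (h / h₀) hq
            refine ⟨c, ?_⟩
            have e : h - algebraMap ℂ F c * h₀ = (h / h₀ - algebraMap ℂ F c) * h₀ := by
              field_simp
            rw [e, map_mul, hv0eq]
            by_cases hz : v₀ (h / h₀ - algebraMap ℂ F c) = 0
            · rw [hz, zero_mul]; simp
            · have h2 : log (v₀ (h / h₀ - algebraMap ℂ F c)) < 0 := by
                have := (log_lt_log hz one_ne_zero).2 hc
                simpa using this
              rw [← exp_log hz, ← exp_add, exp_le_exp]; omega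
        obtain ⟨c, hc⟩ := hdrop
        have hsm : algebraMap ℂ F c * h₀ = c • h₀ := by rw [Algebra.smul_def]
        rw [hsm] at hc
        have hmem : h - c • h₀ ∈ LL (InfPl R₀) (fun v hv => hv.1) R₀ n' := by
          have h3 : h - c • h₀ ∈ LL (InfPl R₀) (fun v hv => hv.1) R₀ n :=
            Submodule.sub_mem _ hh (Submodule.smul_mem _ _ hh₀)
          refine ⟨h3.1, fun v hv => ?_⟩
          by_cases hvv : v = v₀
          · subst hvv
            simpa [n'] using hc
          · simpa [n', hvv] using h3.2 v hv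
        rw [Submodule.mem_sup]
        exact ⟨_, hmem, c • h₀, Submodule.smul_mem _ _ (Submodule.mem_span_singleton_self _), by simp⟩
      exact Submodule.finiteDimensional_of_le hle

/-- The curve lemma: functions in `R₀` with bounded poles form a finite-dimensional space. -/
theorem curve_fd (hF : TrOne F) [Algebra.EssFiniteType ℂ F] (R₀ : Subalgebra ℂ F)
    (hfg : R₀.FG) (n : Valuation F ℤᵐ⁰ → ℤ) :
    FiniteDimensional ℂ (LL (InfPl R₀) (fun v hv => hv.1) R₀ n) :=
  fd_LL hF R₀ hfg _ n rfl

end Main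

end Run7.h388
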