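import Pool.Agent.Run7.h388.Irr

namespace Run7.h388

section Defs

variable {G X : Type} [Group G] [MulAction G X]

/-- A real group structure: an antiregular group involution. -/
structure IsRealGroupStructure (OG : Subalgebra ℂ (G → ℂ)) (σ : G →* G) : Prop where
  involutive : ∀ g, σ (σ g) = g
  antiregular : IsAntiregularMap OG OG σ

/-- A `(G, σ)`-equivariant real structure: an antiregular involution `μ` of `X` with
`μ (g x) = σ (g) μ (x)`. -/
structure IsRealStructure (OX : Subalgebra ℂ (X → ℂ)) (σ : G →* G) (μ : X → X) : Prop where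
  involutive : ∀ x, μ (μ x) = x
  antiregular : IsAntiregularMap OX OX μ
  equivariant : ∀ (g : G) (x : X), μ (g • x) = σ g • μ x

variable (G) in
/-- A `G`-equivariant automorphism of `X`. -/
structure IsEquivariantAut (OX : Subalgebra ℂ (X → ℂ)) (φ : Equiv.Perm X) : Prop where
  regular : IsRegularMap OX OX φ
  regular_inv : IsRegularMap OX OX φ.symm
  equivariant : ∀ (g : G) (x : X), φ (g • x) = g • φ x

/-- The set `Z` has codimension at most `n` in `X`; the dimension is the transcendence degree
over `ℂ` of the algebra of (restrictions of) regular functions. -/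
def CodimAtMost (OX : Subalgebra ℂ (X → ℂ)) (Z : Set X) (n : ℕ) : Prop :=
  Algebra.trdeg ℂ OX ≤ Algebra.trdeg ℂ (restr OX Z) + n

/-- The complexity of `X` is at most `n`: some orbit of a Borel subgroup has codimension at most
`n`. -/
def ComplexityAtMost (OG : Subalgebra ℂ (G → ℂ)) (OX : Subalgebra ℂ (X → ℂ)) (n : ℕ) : Prop :=
  ∃ B : Subgroup G, IsBorel OG B ∧ ∃ x : X, CodimAtMost OX (MulAction.orbit B x) n

end Defs

section Main

variable {G X : Type} [Group G] [MulAction G X] {OG : Subalgebra ℂ (G → ℂ)}
  {OX : Subalgebra ℂ (X → ℂ)}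

theorem point_ext (hX : IsAffineVariety OX) {x y : X}
    (h : ∀ f : OX, (f : X → ℂ) x = (f : X → ℂ) y) : x = y := by
  let φ : OX →ₐ[ℂ] ℂ :=
    { toFun := fun f => (f : X → ℂ) x
      map_one' := rfl
      map_mul' := fun _ _ => rfl
      map_zero' := rfl
      map_add' := fun _ _ => rfl
      commutes' := fun _ => rfl }
  obtain ⟨z, -, hz⟩ := hX.point φ
  rw [hz x (fun f => rfl), hz y (fun f => h f)]

/-- finiteness of the classes of real structures on the coordinate ring -/
theorem ring_finite [IsDomain OX] [IsIntegrallyClosed OX] (hG : IsAlgebraicGroup OG)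
    (hred : IsReductive OG) (hX : IsAffineVariety OX) (hact : IsRegularAction OG OX)
    (hc : ComplexityAtMost OG OX 1) (σ : G →* G) (hσ : IsRealGroupStructure OG σ) :
    ∃ S : Set (OX ≃+* OX), S.Finite ∧ S ⊆ RealStr (act hact) σ ∧
      ∀ μ ∈ RealStr (act hact) σ, ∃ c ∈ AutG (act hact), ∃ ν ∈ S, c * μ * c⁻¹ = ν := by
  classical
  obtain ⟨B, hB, x₀, hcod⟩ := hc
  have hcod' : Algebra.trdeg ℂ OX ≤ Algebra.trdeg ℂ (restr OX (MulAction.orbit B x₀)) + 1 := by
    have := hcod
    unfold CodimAtMost at this
    exact_mod_cast this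
  have hTr := act_trB hG hX hact B hB.closed hB.connected x₀ hcod'
  have hnormal := idc_normal hG
  have hBH := le_idc hG B hB.connected
  have hLF : LF (act hact) := act_LF hG hact
  have hS : Setting (act hact) (idc OG) B :=
    { le := hBH
      lf := hLF
      inv := act_inv hG hred hact (idc OG)
      dec := fun W hfd hW => act_dec hG hred hact (idc OG) B hBH hB.connected hB.solvable W hfd hW
      orb := fun p q hq hfin => act_orb hG hact p q hq hfin }
  have hft : Algebra.FiniteType ℂ OX := (Subalgebra.fg_iff_finiteType _).1 hX.fg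
  have hnoeth : IsNoetherianRing OX := Algebra.FiniteType.isNoetherianRing ℂ OX
  obtain ⟨t, ht⟩ := hft.out
  have hfdt : FiniteDimensional ℂ (Submodule.span ℂ ((insert 1 t : Finset OX) : Set OX)) :=
    FiniteDimensional.span_of_finite ℂ (Finset.finite_toSet _)
  have hfd := gspan_fd hLF (Submodule.span ℂ ((insert 1 t : Finset OX) : Set OX))
  have hle := le_gspan (act hact) (Submodule.span ℂ ((insert 1 t : Finset OX) : Set OX))
  have hgen : Algebra.adjoin ℂ ((gspan (act hact)
      (Submodule.span ℂ ((insert 1 t : Finset OX) : Set OX)) : Submodule ℂ OX) : Set OX) = ⊤ := by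
    rw [eq_top_iff, ← ht]
    apply Algebra.adjoin_mono
    intro x hx
    exact hle (Submodule.subset_span (by simp [Finset.mem_coe.1 hx]))
  have h1 : (1 : OX) ∈ gspan (act hact)
      (Submodule.span ℂ ((insert 1 t : Finset OX) : Set OX)) :=
    hle (Submodule.subset_span (by simp))
  by_cases hconst : invS (act hact) (idc OG) = ⊥
  · exact core_alpha hS σ _ hgen (gspan_stable _ _) hconst
  · have hex : ∃ h₀ ∈ invS (act hact) (idc OG), h₀ ∉ (⊥ : Subalgebra ℂ OX) := by
      by_contra hcon
      push Not at hcon
      exact hconst (le_antisymm hcon bot_le)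
    obtain ⟨h₀, hh₀, hnc⟩ := hex
    exact core_beta hS hTr σ (idc_anti σ hσ.involutive hσ.antiregular) _ hgen h1
      (gspan_stable _ _) h₀ hh₀ hnc

/-- **Finiteness of equivariant real structures, affine case.** -/
theorem main_affine [IsDomain OX] [IsIntegrallyClosed OX] (hG : IsAlgebraicGroup OG)
    (hred : IsReductive OG) (hX : IsAffineVariety OX) (hact : IsRegularAction OG OX)
    (hc : ComplexityAtMost OG OX 1) (σ : G →* G) (hσ : IsRealGroupStructure OG σ) :
    ∃ S : Set (X → X), S.Finite ∧ (∀ ν ∈ S, IsRealStructure OX σ ν) ∧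
      ∀ μ : X → X, IsRealStructure OX σ μ → ∃ ν ∈ S, ∃ φ : Equiv.Perm X,
        IsEquivariantAut G OX φ ∧ ∀ x, ν x = φ (μ (φ.symm x)) := by
  classical
  obtain ⟨S, hSf, hSR, hS⟩ := ring_finite hG hred hX hact hc σ hσ
  -- the map on points attached to a real structure of the ring
  have hpt : ∀ ν : OX ≃+* OX, ∀ x : X, ∃ y : X, ν ∈ RealStr (act hact) σ →
      ∀ f : OX, (f : X → ℂ) y = starRingEnd ℂ ((ν f : X → ℂ) x) := by
    intro ν x
    by_cases hν : ν ∈ RealStr (act hact) σ
    · let φ : OX →ₐ[ℂ] ℂ :=
        { toFun := fun f => starRingEnd ℂ ((ν f : X → ℂ) x)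
          map_one' := by rw [map_one]; simp
          map_mul' := fun f g => by rw [map_mul]; simp
          map_zero' := by rw [map_zero]; simp
          map_add' := fun f g => by rw [map_add]; simp
          commutes' := fun c => by
            rw [Algebra.algebraMap_eq_smul_one, hν.1, map_one]
            simp }
      obtain ⟨y, hy, -⟩ := hX.point φ
      exact ⟨y, fun _ f => (hy f).symm⟩
    · exact ⟨x, fun h => absurd h hν⟩
  choose pt hpt using hpt
  have hreal : ∀ ν ∈ RealStr (act hact) σ, IsRealStructure OX σ (pt ν) := by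
    intro ν hν
    refine ⟨fun x => ?_, fun f hf => ?_, fun g x => ?_⟩
    · apply point_ext hX
      intro f
      rw [hpt ν _ hν, hpt ν _ hν, real_real hν, Complex.conj_conj]
    · have h1 : (fun x => starRingEnd ℂ (f (pt ν x))) = (ν ⟨f, hf⟩ : X → ℂ) := by
        funext x
        have h2 := hpt ν x hν ⟨f, hf⟩
        simp only at h2
        rw [h2, Complex.conj_conj]
      rw [h1]
      exact (ν ⟨f, hf⟩).2
    · apply point_ext hX
      intro f
      rw [hpt ν _ hν]
      have h1 : (f : X → ℂ) (σ g • pt ν x) = (act hact (σ g⁻¹) f : X → ℂ) (pt ν x) := by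
        rw [act_apply, map_inv, inv_inv]
      rw [h1, hpt ν _ hν, hν.2.2, hσ.involutive]
      rw [act_apply, inv_inv]
  refine ⟨pt '' S, hSf.image _, ?_, ?_⟩
  · rintro _ ⟨ν, hν, rfl⟩
    exact hreal ν (hSR hν)
  · intro μ hμ
    -- the real structure on the ring
    let ms : OX ≃+* OX :=
      { toFun := fun f => ⟨fun x => starRingEnd ℂ ((f : X → ℂ) (μ x)), hμ.antiregular f f.2⟩
        invFun := fun f => ⟨fun x => starRingEnd ℂ ((f : X → ℂ) (μ x)), hμ.antiregular f f.2⟩
        left_inv := fun f => Subtype.ext (funext fun x => by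
          simp [hμ.involutive])
        right_inv := fun f => Subtype.ext (funext fun x => by
          simp [hμ.involutive])
        map_mul' := fun f g => Subtype.ext (funext fun x => by simp)
        map_add' := fun f g => Subtype.ext (funext fun x => by simp) }
    have hms : ∀ (f : OX) (x : X), (ms f : X → ℂ) x = starRingEnd ℂ ((f : X → ℂ) (μ x)) :=
      fun _ _ => rfl
    have hmsR : ms ∈ RealStr (act hact) σ := by
      refine ⟨fun c f => Subtype.ext (funext fun x => ?_), RingEquiv.ext fun f =>
        Subtype.ext (funext fun x => ?_), fun g f => Subtype.ext (funext fun x => ?_)⟩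
      · rw [hms]
        simp [hms]
      · change (ms (ms f) : X → ℂ) x = (f : X → ℂ) x
        rw [hms, hms, Complex.conj_conj, hμ.involutive]
      · rw [hms, act_apply, act_apply, hms]
        have : μ ((σ g)⁻¹ • x) = g⁻¹ • μ x := by
          rw [← map_inv, hμ.equivariant, hσ.involutive]
        rw [this]
    obtain ⟨c, hc, ν, hν, hcν⟩ := hS ms hmsR
    -- automorphisms on points
    have hap : ∀ a ∈ AutG (act hact), ∀ x : X, ∃ y : X, ∀ f : OX, (f : X → ℂ) y = (a f : X → ℂ) x := by
      intro a ha x
      let φ : OX →ₐ[ℂ] ℂ :=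
        { toFun := fun f => (a f : X → ℂ) x
          map_one' := by rw [map_one]; rfl
          map_mul' := fun f g => by rw [map_mul]; rfl
          map_zero' := by rw [map_zero]; rfl
          map_add' := fun f g => by rw [map_add]; rfl
          commutes' := fun c => by
            rw [Algebra.algebraMap_eq_smul_one, ha.1, map_one]
            simp }
      obtain ⟨y, hy, -⟩ := hX.point φ
      exact ⟨y, fun f => (hy f).symm⟩
    have hci := (AutG (act hact)).inv_mem hc
    choose p hp using hap c⁻¹ hci
    choose q hq using hap c hc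
    let φ : Equiv.Perm X :=
      { toFun := p
        invFun := q
        left_inv := fun x => by
          apply point_ext hX
          intro f
          rw [hq, hp]
          have : c⁻¹ (c f) = f := c.symm_apply_apply f
          rw [this]
        right_inv := fun x => by
          apply point_ext hX
          intro f
          rw [hp, hq]
          have : c (c⁻¹ f) = f := c.apply_symm_apply f
          rw [this] }
    refine ⟨pt ν, ⟨ν, hν, rfl⟩, φ, ⟨?_, ?_, ?_⟩, ?_⟩
    · intro f hf
      have : (fun x => f (φ x)) = (c⁻¹ ⟨f, hf⟩ : OX) := funext fun x => hp x ⟨f, hf⟩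
      rw [this]; exact (c⁻¹ ⟨f, hf⟩ : OX).2
    · intro f hf
      have : (fun x => f (φ.symm x)) = (c ⟨f, hf⟩ : OX) := funext fun x => hq x ⟨f, hf⟩
      rw [this]; exact (c ⟨f, hf⟩ : OX).2
    · intro g x
      apply point_ext hX
      intro f
      have h1 : (f : X → ℂ) (g • φ x) = (act hact g⁻¹ f : X → ℂ) (φ x) := by
        rw [act_apply, inv_inv]
      rw [h1]
      change (f : X → ℂ) (p (g • x)) = (act hact g⁻¹ f : X → ℂ) (p x)
      rw [hp, hp, hci.2, act_apply, inv_inv]
    · intro x
      apply point_ext hX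
      intro f
      rw [hpt ν x (hSR hν), ← hcν]
      change _ = (f : X → ℂ) (p (μ (q x)))
      rw [hp]
      have h1 : ((c⁻¹ f : OX) : X → ℂ) (μ (q x)) = starRingEnd ℂ ((ms (c⁻¹ f) : X → ℂ) (q x)) := by
        rw [hms, Complex.conj_conj]
      rw [h1, hq]
      rfl

end Main

end Run7.h388
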