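import Pool.Agent.Run7.h388.Red

namespace Run7.h388

section Closed

variable {X Y : Type} {OX : Subalgebra ℂ (X → ℂ)} {OY : Subalgebra ℂ (Y → ℂ)}

theorem ZClosed.inter {Z Z' : Set X} (h : ZClosed OX Z) (h' : ZClosed OX Z') :
    ZClosed OX (Z ∩ Z') := by
  intro x hx
  by_cases hxZ : x ∈ Z
  · obtain ⟨f, hf, h1, h2⟩ := h' x (fun hc => hx ⟨hxZ, hc⟩)
    exact ⟨f, hf, fun z hz => h1 z hz.2, h2⟩
  · obtain ⟨f, hf, h1, h2⟩ := h x hxZ
    exact ⟨f, hf, fun z hz => h1 z hz.1, h2⟩

theorem ZClosed.iInter {ι : Sort*} {Z : ι → Set X} (h : ∀ i, ZClosed OX (Z i)) :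
    ZClosed OX (⋂ i, Z i) := by
  intro x hx
  rw [Set.mem_iInter] at hx
  push Not at hx
  obtain ⟨i, hi⟩ := hx
  obtain ⟨f, hf, h1, h2⟩ := h i x hi
  exact ⟨f, hf, fun z hz => h1 z (Set.mem_iInter.1 hz i), h2⟩

theorem ZClosed.union {Z Z' : Set X} (h : ZClosed OX Z) (h' : ZClosed OX Z') :
    ZClosed OX (Z ∪ Z') := by
  intro x hx
  obtain ⟨f, hf, h1, h2⟩ := h x (fun hc => hx (Or.inl hc))
  obtain ⟨f', hf', h1', h2'⟩ := h' x (fun hc => hx (Or.inr hc))
  refine ⟨f * f', OX.mul_mem hf hf', ?_, mul_ne_zero h2 h2'⟩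
  rintro z (hz | hz)
  · simp [h1 z hz]
  · simp [h1' z hz]

theorem zclosed_empty : ZClosed OX (∅ : Set X) :=
  fun _ _ => ⟨1, OX.one_mem, fun _ hz => absurd hz (Set.notMem_empty _), by simp⟩

theorem ZClosed.biUnion {ι : Type*} (t : Set ι) (ht : t.Finite) {Z : ι → Set X}
    (h : ∀ i ∈ t, ZClosed OX (Z i)) : ZClosed OX (⋃ i ∈ t, Z i) := by
  induction t, ht using Set.Finite.induction_on with
  | empty => simpa using zclosed_empty
  | @insert a s _ _ ih =>
    rw [Set.biUnion_insert]
    exact (h a (Set.mem_insert _ _)).union (ih fun i hi => h i (Set.mem_insert_of_mem _ hi))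

theorem ZClosed.preimage {Z : Set Y} (h : ZClosed OY Z) {F : X → Y}
    (hF : IsRegularMap OX OY F) : ZClosed OX (F ⁻¹' Z) := by
  intro x hx
  obtain ⟨f, hf, h1, h2⟩ := h (F x) hx
  exact ⟨_, hF f hf, fun z hz => h1 _ hz, h2⟩

theorem ZClosed.preimage_anti {Z : Set Y} (h : ZClosed OY Z) {F : X → Y}
    (hF : IsAntiregularMap OX OY F) : ZClosed OX (F ⁻¹' Z) := by
  intro x hx
  obtain ⟨f, hf, h1, h2⟩ := h (F x) hx
  refine ⟨_, hF f hf, fun z hz => ?_, ?_⟩
  · simp [h1 _ hz]
  · simpa using h2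

end Closed

section Id

variable {G : Type} [Group G] {OG : Subalgebra ℂ (G → ℂ)}

theorem reg_left (hG : IsAlgebraicGroup OG) (a : G) : IsRegularMap OG OG (fun g => a * g) :=
  fun f hf => slice_right (hG.mul f hf) a

theorem reg_right (hG : IsAlgebraicGroup OG) (a : G) : IsRegularMap OG OG (fun g => g * a) :=
  fun f hf => slice_left (hG.mul f hf) a

/-- The identity component: the intersection of all closed subgroups of finite index. -/
def idc (OG : Subalgebra ℂ (G → ℂ)) : Subgroup G :=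
  sInf {S | ZClosed OG (S : Set G) ∧ S.FiniteIndex}

theorem idc_le {S : Subgroup G} (h : ZClosed OG (S : Set G)) (h' : S.FiniteIndex) :
    idc OG ≤ S := sInf_le ⟨h, h'⟩

/-- The vanishing ideal. -/
def vI {X : Type} (O : Subalgebra ℂ (X → ℂ)) (Z : Set X) : Ideal O where
  carrier := {f | ∀ z ∈ Z, (f : X → ℂ) z = 0}
  zero_mem' := fun _ _ => rfl
  add_mem' := by
    intro a b ha hb z hz
    change (a : X → ℂ) z + (b : X → ℂ) z = 0
    rw [ha z hz, hb z hz, add_zero]
  smul_mem' := by
    intro c x hx z hz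
    change (c : X → ℂ) z * (x : X → ℂ) z = 0
    rw [hx z hz, mul_zero]

theorem idc_spec (hG : IsAlgebraicGroup OG) :
    ZClosed OG (idc OG : Set G) ∧ (idc OG).FiniteIndex := by
  have hnoeth : IsNoetherianRing OG := by
    have : Algebra.FiniteType ℂ OG := (Subalgebra.fg_iff_finiteType _).1 hG.variety.fg
    exact Algebra.FiniteType.isNoetherianRing ℂ OG
  let C : Set (Ideal OG) := (fun S : Subgroup G => vI OG (S : Set G)) ''
    {S | ZClosed OG (S : Set G) ∧ S.FiniteIndex}
  have hne : C.Nonempty := ⟨_, ⊤, ⟨fun x hx => absurd trivial hx, inferInstance⟩, rfl⟩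
  obtain ⟨_, ⟨S₀, ⟨hS₀, hS₀'⟩, rfl⟩, hmax⟩ :=
    WellFounded.has_min (wellFounded_gt (α := Ideal OG)) C hne
  have hle : ∀ S : Subgroup G, ZClosed OG (S : Set G) → S.FiniteIndex → S₀ ≤ S := by
    intro S hS hS'
    have h1 : ZClosed OG ((S ⊓ S₀ : Subgroup G) : Set G) := by
      rw [Subgroup.coe_inf]; exact hS.inter hS₀
    have h2 := hmax _ ⟨S ⊓ S₀, ⟨h1, inferInstance⟩, rfl⟩
    intro x hx
    by_contra hxS
    apply h2
    refine lt_of_le_of_ne ?_ ?_
    · intro f hf z hz
      exact hf z hz.2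
    · intro heq
      obtain ⟨f, hf, hf1, hf2⟩ := h1 x (fun hc => hxS hc.1)
      have : (⟨f, hf⟩ : OG) ∈ vI OG ((S ⊓ S₀ : Subgroup G) : Set G) := hf1
      simp only at heq
      rw [← heq] at this
      exact hf2 (this x hx)
  have heq : idc OG = S₀ := le_antisymm (idc_le hS₀ hS₀') (le_sInf fun S hS => hle S hS.1 hS.2)
  rw [heq]
  exact ⟨hS₀, hS₀'⟩

theorem idc_normal (hG : IsAlgebraicGroup OG) : (idc OG).Normal := by
  constructor
  intro n hn g
  rw [idc, Subgroup.mem_sInf]
  rintro S ⟨hS, hS'⟩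
  have h1 : n ∈ S.comap (MulAut.conj g).toMonoidHom := by
    refine idc_le ?_ ?_ hn
    · have : IsRegularMap OG OG (fun x => g * x * g⁻¹) := fun f hf =>
        reg_left hG g _ (reg_right hG g⁻¹ f hf)
      exact hS.preimage this
    · constructor
      rw [Subgroup.index_comap_of_surjective S (MulAut.conj g).surjective]
      exact hS'.index_ne_zero
  exact h1

theorem idc_anti (σ : G →* G) (hσ : ∀ g, σ (σ g) = g)
    (hσa : IsAntiregularMap OG OG σ) : ∀ h ∈ idc OG, σ h ∈ idc OG := by
  intro h hh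
  rw [idc, Subgroup.mem_sInf]
  rintro S ⟨hS, hS'⟩
  have h1 : h ∈ S.comap σ := by
    refine idc_le ?_ ?_ hh
    · exact hS.preimage_anti hσa
    · constructor
      rw [Subgroup.index_comap_of_surjective S (fun g => ⟨σ g, hσ g⟩)]
      exact hS'.index_ne_zero
  exact h1

theorem le_idc (hG : IsAlgebraicGroup OG) (B : Subgroup G) (hB : ZConnected OG (B : Set G)) :
    B ≤ idc OG := by
  obtain ⟨hc, hf⟩ := idc_spec hG
  have hcompl : ZClosed OG ((idc OG : Set G)ᶜ) := by
    have h1 : ((idc OG : Set G)ᶜ) = ⋃ q ∈ {q : G ⧸ idc OG | q ≠ ((1 : G) : G ⧸ idc OG)},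
        (fun g => (q.out)⁻¹ * g) ⁻¹' (idc OG : Set G) := by
      ext g
      simp only [Set.mem_compl_iff, SetLike.mem_coe, Set.mem_iUnion, Set.mem_preimage,
        Set.mem_ofPred_eq, exists_prop]
      constructor
      · intro hg
        refine ⟨(g : G ⧸ idc OG), ?_, ?_⟩
        · intro h
          apply hg
          have := QuotientGroup.eq.1 h.symm
          simpa using this
        · rw [← QuotientGroup.eq, QuotientGroup.out_eq']
      · rintro ⟨q, hq, hg⟩ hg'
        rw [← QuotientGroup.eq, QuotientGroup.out_eq'] at hg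
        apply hq
        rw [hg]
        exact QuotientGroup.eq.2 (by simpa using hg')
    rw [h1]
    have : Finite (G ⧸ idc OG) := inferInstance
    exact ZClosed.biUnion _ (Set.toFinite _) fun q _ => hc.preimage (reg_left hG _)
  rcases hB _ _ hc hcompl (by intro x _; exact em _) (by
    rw [Set.eq_empty_iff_forall_notMem]
    rintro x ⟨⟨-, h1⟩, h2⟩
    exact h2 h1) with h | h
  · exact h
  · exact absurd (idc OG).one_mem (h B.one_mem)

variable {X : Type} [MulAction G X] {OX : Subalgebra ℂ (X → ℂ)} [IsDomain OX]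

/-- Fractions with finitely many translates under the identity component are invariant. -/
theorem act_orb (hG : IsAlgebraicGroup OG) (hact : IsRegularAction OG OX) (p q : OX)
    (hq : q ≠ 0)
    (hfin : {z : FractionRing OX | ∃ h ∈ idc OG, z = algebraMap OX (FractionRing OX) (act hact h p) /
      algebraMap OX (FractionRing OX) (act hact h q)}.Finite) :
    ∀ h ∈ idc OG, act hact h p * q = p * act hact h q := by
  let K := FractionRing OX
  let m : OX →+* K := algebraMap OX K
  have hm : Function.Injective m := IsFractionRing.injective OX K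
  let e : G → K ≃+* K := fun g => IsFractionRing.ringEquivOfRingEquiv
    ((act hact g : OX ≃ₐ[ℂ] OX) : OX ≃+* OX)
  have he : ∀ g (r : OX), e g (m r) = m (act hact g r) := fun g r =>
    IsFractionRing.ringEquivOfRingEquiv_algebraMap _ r
  have hq' : ∀ g, m (act hact g q) ≠ 0 := by
    intro g h
    exact hq ((map_eq_zero_iff _ (act hact g).injective).1 (hm (by rw [h, map_zero])))
  let z : G → K := fun g => m (act hact g p) / m (act hact g q)
  have hz : ∀ g, z g = e g (m p / m q) := by
    intro g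
    rw [map_div₀, he, he]
  have hmul : ∀ g g', z (g * g') = e g (z g') := by
    intro g g'
    change m (act hact (g * g') p) / m (act hact (g * g') q) = _
    rw [map_div₀, he, he, map_mul]
    rfl
  have hz1 : z 1 = m p / m q := by
    change m (act hact 1 p) / m (act hact 1 q) = _
    rw [map_one]; rfl
  have hiff : ∀ g, z g = z 1 ↔ act hact g p * q = p * act hact g q := by
    intro g
    have hq1 : m q ≠ 0 := fun h => hq (hm (by rw [h, map_zero]))
    rw [hz1]
    change m (act hact g p) / m (act hact g q) = m p / m q ↔ _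
    rw [div_eq_div_iff (hq' g) hq1, ← map_mul, ← map_mul]
    exact hm.eq_iff
  -- the stabilizer
  let St : Subgroup G :=
    { carrier := {g | g ∈ idc OG ∧ z g = z 1}
      one_mem' := ⟨(idc OG).one_mem, rfl⟩
      mul_mem' := by
        rintro a b ⟨ha, ha'⟩ ⟨hb, hb'⟩
        refine ⟨(idc OG).mul_mem ha hb, ?_⟩
        rw [hmul, hb', ← hmul, mul_one, ha']
      inv_mem' := by
        rintro a ⟨ha, ha'⟩
        refine ⟨(idc OG).inv_mem ha, ?_⟩
        have h1 : e a⁻¹ (z a) = z 1 := by rw [← hmul, inv_mul_cancel]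
        rw [ha', ← hmul, mul_one] at h1
        exact h1 }
  obtain ⟨hc, hf⟩ := idc_spec hG
  have hStc : ZClosed OG (St : Set G) := by
    have h1 : (St : Set G) = (idc OG : Set G) ∩ ⋂ x : X,
        {g | (p : X → ℂ) (g⁻¹ • x) * (q : X → ℂ) x - (p : X → ℂ) x * (q : X → ℂ) (g⁻¹ • x) = 0} := by
      ext g
      simp only [Set.mem_inter_iff, Set.mem_iInter, Set.mem_ofPred_eq]
      constructor
      · rintro ⟨h1, h2⟩
        refine ⟨h1, fun x => ?_⟩
        rw [hiff] at h2
        have := congrArg (fun f : OX => (f : X → ℂ) x) h2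
        exact sub_eq_zero.2 this
      · rintro ⟨h1, h2⟩
        refine ⟨h1, ?_⟩
        rw [hiff]
        exact Subtype.ext (funext fun x => sub_eq_zero.1 (h2 x))
    rw [h1]
    refine hc.inter (ZClosed.iInter fun x => zclosed_zero ?_)
    have hp : ∀ f : OX, (fun g : G => (f : X → ℂ) (g⁻¹ • x)) ∈ OG := fun f =>
      hG.inv _ (slice_left (hact f f.2) x)
    have h2 : (fun g : G => (p : X → ℂ) (g⁻¹ • x) * (q : X → ℂ) x -
        (p : X → ℂ) x * (q : X → ℂ) (g⁻¹ • x)) =
        ((q : X → ℂ) x) • (fun g : G => (p : X → ℂ) (g⁻¹ • x)) -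
        ((p : X → ℂ) x) • (fun g : G => (q : X → ℂ) (g⁻¹ • x)) := by
      funext g
      simp [mul_comm]
    rw [h2]
    exact OG.sub_mem (OG.smul_mem (hp p) _) (OG.smul_mem (hp q) _)
  have hStf : St.FiniteIndex := by
    have hle : St ≤ idc OG := fun g hg => hg.1
    have hfinq : Finite (idc OG ⧸ St.subgroupOf (idc OG)) := by
      have hF : Finite {z : K | ∃ h ∈ idc OG, z = m (act hact h p) / m (act hact h q)} := hfin
      refine Finite.of_injective (β := {z : K | ∃ h ∈ idc OG, z = m (act hact h p) / m (act hact h q)})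
        (fun x => ⟨z (Quotient.out x : idc OG), _, (Quotient.out x : idc OG).2, rfl⟩) ?_
      intro x y hxy
      have h1 : z (Quotient.out x : idc OG) = z (Quotient.out y : idc OG) :=
        congrArg Subtype.val hxy
      rw [← QuotientGroup.out_eq' x, ← QuotientGroup.out_eq' y, QuotientGroup.eq,
        Subgroup.mem_subgroupOf]
      refine ⟨((Quotient.out x : idc OG)⁻¹ * (Quotient.out y : idc OG)).2, ?_⟩
      change z (((Quotient.out x : idc OG) : G)⁻¹ * ((Quotient.out y : idc OG) : G)) = z 1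
      rw [hmul, ← h1, ← hmul, inv_mul_cancel]
    constructor
    rw [← Subgroup.relIndex_mul_index hle]
    refine mul_ne_zero ?_ hf.index_ne_zero
    exact Subgroup.index_ne_zero_of_finite
  have hall := idc_le hStc hStf
  intro h hh
  exact (hiff h).1 (hall hh).2

end Id

end Run7.h388
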