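import Mathlib

namespace Run7.h388

open Module

section Rep

variable {G : Type*} [Group G] {V : Type*} [AddCommGroup V] [Module ℂ V]
  (ρ : Representation ℂ G V)

/-- `U` is stable under the subgroup `H`. -/
def Stable (H : Subgroup G) (U : Submodule ℂ V) : Prop := ∀ h ∈ H, ∀ u ∈ U, ρ h u ∈ U

/-- `S` is a simple `H`-submodule. -/
def Simple (H : Subgroup G) (S : Submodule ℂ V) : Prop :=
  S ≠ ⊥ ∧ Stable ρ H S ∧ ∀ S' ≤ S, Stable ρ H S' → S' = ⊥ ∨ S' = S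

variable {ρ}

theorem Stable.inf {H : Subgroup G} {U U' : Submodule ℂ V} (h : Stable ρ H U)
    (h' : Stable ρ H U') : Stable ρ H (U ⊓ U') :=
  fun g hg u hu => ⟨h g hg u hu.1, h' g hg u hu.2⟩

theorem Stable.sup {H : Subgroup G} {U U' : Submodule ℂ V} (h : Stable ρ H U)
    (h' : Stable ρ H U') : Stable ρ H (U ⊔ U') := by
  intro g hg u hu
  rw [Submodule.mem_sup] at hu ⊢
  obtain ⟨a, ha, b, hb, rfl⟩ := hu
  exact ⟨_, h g hg a ha, _, h' g hg b hb, (map_add _ _ _).symm⟩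

theorem stable_sSup {H : Subgroup G} {C : Set (Submodule ℂ V)} (h : ∀ U ∈ C, Stable ρ H U) :
    Stable ρ H (sSup C) := by
  intro g hg
  change sSup C ≤ (sSup C).comap (ρ g)
  apply sSup_le
  intro U hU u hu
  exact (le_sSup hU : U ≤ sSup C) (h U hU g hg u hu)

theorem exists_simple {H : Subgroup G} : ∀ (d : ℕ) (U : Submodule ℂ V), FiniteDimensional ℂ U →
    finrank ℂ U = d → U ≠ ⊥ → Stable ρ H U → ∃ S ≤ U, Simple ρ H S := by
  intro d
  induction d using Nat.strong_induction_on with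
  | _ d ih =>
    intro U hfd hd hU hst
    by_cases hs : ∀ S' ≤ U, Stable ρ H S' → S' = ⊥ ∨ S' = U
    · exact ⟨U, le_rfl, hU, hst, hs⟩
    · push Not at hs
      obtain ⟨S', hle, hst', hb, ht⟩ := hs
      have hfd' : FiniteDimensional ℂ S' := Submodule.finiteDimensional_of_le hle
      have hlt : finrank ℂ S' < d := by
        rw [← hd]; exact Submodule.finrank_lt_finrank_of_lt (lt_of_le_of_ne hle ht)
      obtain ⟨S, hS, hSs⟩ := ih _ hlt S' hfd' rfl hb hst'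
      exact ⟨S, hS.trans hle, hSs⟩

theorem Simple.translate {H : Subgroup G} [hH : H.Normal] {S : Submodule ℂ V} (hS : Simple ρ H S)
    (g : G) : Simple ρ H (S.map (ρ g)) := by
  have hinv : ∀ x : V, ρ g⁻¹ (ρ g x) = x := by
    intro x; rw [← Module.End.mul_apply, ← map_mul]; simp
  have hinv' : ∀ x : V, ρ g (ρ g⁻¹ x) = x := by
    intro x; rw [← Module.End.mul_apply, ← map_mul]; simp
  refine ⟨?_, ?_, ?_⟩
  · intro h
    apply hS.1
    rw [Submodule.eq_bot_iff]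
    intro x hx
    have : ρ g x ∈ S.map (ρ g) := ⟨x, hx, rfl⟩
    rw [h, Submodule.mem_bot] at this
    rw [← hinv x, this, map_zero]
  · rintro h hh _ ⟨x, hx, rfl⟩
    refine ⟨ρ (g⁻¹ * h * g) x, hS.2.1 _ (by simpa using hH.conj_mem h hh g⁻¹) x hx, ?_⟩
    rw [← Module.End.mul_apply, ← map_mul, ← Module.End.mul_apply, ← map_mul]
    congr 2; group
  · intro S' hS' hst
    have h1 := hS.2.2 (S'.map (ρ g⁻¹)) (by
      rintro _ ⟨x, hx, rfl⟩
      obtain ⟨y, hy, hyx⟩ := hS' hx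
      rw [← hyx, hinv]; exact hy) (by
      rintro h hh _ ⟨x, hx, rfl⟩
      refine ⟨ρ (g * h * g⁻¹) x, hst _ (hH.conj_mem h hh g) x hx, ?_⟩
      rw [← Module.End.mul_apply, ← map_mul, ← Module.End.mul_apply, ← map_mul]
      congr 2; group)
    have h2 : (S'.map (ρ g⁻¹)).map (ρ g) = S' := by
      ext x
      constructor
      · rintro ⟨_, ⟨y, hy, rfl⟩, rfl⟩
        rw [hinv']; exact hy
      · intro hx
        exact ⟨ρ g⁻¹ x, ⟨x, hx, rfl⟩, hinv' x⟩
    rcases h1 with h1 | h1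
    · left; rw [← h2, h1, Submodule.map_bot]
    · right; rw [← h2, h1]

/-- Clifford: a finite-dimensional completely reducible `G`-submodule is the sum of its simple
`H`-submodules. -/
theorem clifford {H : Subgroup G} [H.Normal] (W : Submodule ℂ V) [FiniteDimensional ℂ W]
    (hW : Stable ρ ⊤ W)
    (hG : ∀ U ≤ W, Stable ρ ⊤ U → ∃ U' ≤ W, Stable ρ ⊤ U' ∧ U ⊓ U' = ⊥ ∧ U ⊔ U' = W) :
    sSup {S | S ≤ W ∧ Simple ρ H S} = W := by
  let T := sSup {S | S ≤ W ∧ Simple ρ H S}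
  have hTW : T ≤ W := sSup_le fun S hS => hS.1
  have hTst : Stable ρ ⊤ T := by
    intro g _
    change T ≤ T.comap (ρ g)
    apply sSup_le
    rintro S ⟨hSW, hS⟩ u hu
    have : S.map (ρ g) ≤ T := le_sSup ⟨by
      rintro _ ⟨x, hx, rfl⟩
      exact hW g trivial x (hSW hx), hS.translate g⟩
    exact this ⟨u, hu, rfl⟩
  obtain ⟨U', hU'W, hU'st, hinf, hsup⟩ := hG T hTW hTst
  have hU' : U' = ⊥ := by
    by_contra hne
    have : FiniteDimensional ℂ U' := Submodule.finiteDimensional_of_le hU'W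
    obtain ⟨S, hS, hSs⟩ := exists_simple (H := H) _ U' this rfl hne (fun h _ => hU'st h trivial)
    have h1 : S ≤ T := le_sSup ⟨hS.trans hU'W, hSs⟩
    have h2 : S ≤ T ⊓ U' := le_inf h1 hS
    rw [hinf, le_bot_iff] at h2
    exact hSs.1 h2
  rw [hU', sup_bot_eq] at hsup
  exact hsup

/-- A sum of simple submodules is completely reducible. -/
theorem exists_compl {H : Subgroup G} (W : Submodule ℂ V) [FiniteDimensional ℂ W]
    (hsum : sSup {S | S ≤ W ∧ Simple ρ H S} = W) (U : Submodule ℂ V) (hUW : U ≤ W)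
    (hU : Stable ρ H U) : ∃ U' ≤ W, Stable ρ H U' ∧ U ⊓ U' = ⊥ ∧ U ⊔ U' = W := by
  classical
  let P : ℕ → Prop := fun d => ∃ U' ≤ W, Stable ρ H U' ∧ U ⊓ U' = ⊥ ∧ finrank ℂ U' = d
  have hbdd : ∀ d, P d → d ≤ finrank ℂ W := by
    rintro d ⟨U', hU', -, -, rfl⟩
    exact Submodule.finrank_mono hU'
  have hP0 : P 0 := ⟨⊥, bot_le, by
    rintro h _ u hu
    rw [Submodule.mem_bot] at hu; simp [hu], by simp, by simp⟩
  have hmax := Nat.findGreatest_spec (P := P) (n := finrank ℂ W) (Nat.zero_le _) hP0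
  obtain ⟨U', hU'W, hst, hinf, hrk⟩ := hmax
  refine ⟨U', hU'W, hst, hinf, ?_⟩
  by_contra hne
  have hle : U ⊔ U' ≤ W := sup_le hUW hU'W
  have hex : ∃ S, S ≤ W ∧ Simple ρ H S ∧ ¬ S ≤ U ⊔ U' := by
    by_contra hcon
    push Not at hcon
    apply hne
    refine le_antisymm hle ?_
    rw [← hsum]
    exact sSup_le fun S hS => hcon S hS.1 hS.2
  obtain ⟨S, hSW, hS, hnot⟩ := hex
  have hS0 : S ⊓ (U ⊔ U') = ⊥ := by
    rcases hS.2.2 (S ⊓ (U ⊔ U')) inf_le_left (hS.2.1.inf (hU.sup hst)) with h | h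
    · exact h
    · exact absurd (inf_eq_left.1 h) hnot
  have hnew : U ⊓ (U' ⊔ S) = ⊥ := by
    rw [Submodule.eq_bot_iff]
    rintro x ⟨hxU, hx⟩
    obtain ⟨a, ha, b, hb, hab⟩ := Submodule.mem_sup.1 hx
    have hb' : b ∈ S ⊓ (U ⊔ U') := by
      refine ⟨hb, ?_⟩
      have : b = x - a := by rw [← hab]; abel
      rw [this]
      exact Submodule.sub_mem _ (Submodule.mem_sup_left hxU) (Submodule.mem_sup_right ha)
    rw [hS0, Submodule.mem_bot] at hb'
    rw [hb', add_zero] at hab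
    have : x ∈ U ⊓ U' := ⟨hxU, by rw [← hab]; exact ha⟩
    rw [hinf, Submodule.mem_bot] at this
    exact this
  have hUS : U' < U' ⊔ S := by
    refine lt_of_le_of_ne le_sup_left ?_
    intro h
    apply hnot
    have : S ≤ U' := by rw [h]; exact le_sup_right
    exact this.trans le_sup_right
  have hfd : FiniteDimensional ℂ ↥(U' ⊔ S) :=
    Submodule.finiteDimensional_of_le (sup_le hU'W hSW)
  have hlt := Submodule.finrank_lt_finrank_of_lt hUS
  have hPn : P (finrank ℂ ↥(U' ⊔ S)) := ⟨_, sup_le hU'W hSW, hst.sup hS.2.1, hnew, rfl⟩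
  have := Nat.le_findGreatest (hbdd _ hPn) hPn
  rw [hrk] at hlt
  omega

/-- Invariants lift along equivariant maps. -/
theorem inv_lift {H : Subgroup G} (W : Submodule ℂ V) (hWst : Stable ρ H W)
    (hc : ∀ U ≤ W, Stable ρ H U → ∃ U' ≤ W, Stable ρ H U' ∧ U ⊓ U' = ⊥ ∧ U ⊔ U' = W)
    {N : Type*} [AddCommGroup N] [Module ℂ N] (Φ : V →ₗ[ℂ] N) (τ : G → N →ₗ[ℂ] N)
    (hΦ : ∀ h ∈ H, ∀ x ∈ W, Φ (ρ h x) = τ h (Φ x)) (x₀ : V) (hx₀ : x₀ ∈ W)
    (hy : ∀ h ∈ H, τ h (Φ x₀) = Φ x₀) :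
    ∃ x ∈ W, Φ x = Φ x₀ ∧ ∀ h ∈ H, ρ h x = x := by
  obtain ⟨U', hU'W, hst, hinf, hsup⟩ := hc (W ⊓ LinearMap.ker Φ) inf_le_left (by
    rintro h hh u ⟨hu, hu'⟩
    refine ⟨hWst h hh u hu, ?_⟩
    change _ ∈ LinearMap.ker Φ
    have h2 : u ∈ LinearMap.ker Φ := hu'
    rw [LinearMap.mem_ker] at h2 ⊢
    rw [hΦ h hh u hu, h2, map_zero])
  rw [← hsup] at hx₀
  obtain ⟨n, hn, x, hx, hnx⟩ := Submodule.mem_sup.1 hx₀
  have hn2 : n ∈ LinearMap.ker Φ := hn.2
  rw [LinearMap.mem_ker] at hn2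
  have hΦx : Φ x = Φ x₀ := by rw [← hnx, map_add, hn2, zero_add]
  refine ⟨x, hU'W hx, hΦx, fun h hh => ?_⟩
  have h1 : ρ h x - x ∈ (W ⊓ LinearMap.ker Φ) ⊓ U' := by
    refine ⟨⟨Submodule.sub_mem _ (hWst h hh x (hU'W hx)) (hU'W hx), ?_⟩,
      Submodule.sub_mem _ (hst h hh x hx) hx⟩
    change _ ∈ LinearMap.ker Φ
    rw [LinearMap.mem_ker, map_sub, hΦ h hh x (hU'W hx), hΦx, hy h hh, sub_self]
  rw [hinf, Submodule.mem_bot, sub_eq_zero] at h1
  exact h1

/-- A finite-dimensional sum of simple modules is a finite sum. -/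
theorem exists_finite_decomp {H : Subgroup G} (W : Submodule ℂ V) [FiniteDimensional ℂ W]
    (hsum : sSup {S | S ≤ W ∧ Simple ρ H S} = W) :
    ∃ (n : ℕ) (S : Fin n → Submodule ℂ V), (∀ i, S i ≤ W ∧ Simple ρ H (S i)) ∧ ⨆ i, S i = W := by
  have hfg : W.FG := (Submodule.fg_iff_finiteDimensional _).2 inferInstance
  have hcomp : IsCompactElement W := (Submodule.fg_iff_compact W).1 hfg
  obtain ⟨t, ht, htle⟩ := (CompleteLattice.isCompactElement_iff_exists_le_sSup_of_le_sSup _ _).1 hcomp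
    {S | S ≤ W ∧ Simple ρ H S} hsum.ge
  refine ⟨t.card, fun i => (t.equivFin.symm i : Submodule ℂ V), ?_, ?_⟩
  · intro i
    exact ht (t.equivFin.symm i).2
  · apply le_antisymm
    · exact iSup_le fun i => (ht (t.equivFin.symm i).2).1
    · refine htle.trans ?_
      apply Finset.sup_le
      intro S hS
      have := le_iSup (fun i => (t.equivFin.symm i : Submodule ℂ V)) (t.equivFin ⟨S, hS⟩)
      simpa using this

end Rep

end Run7.h388
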