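import Mathlib

namespace Run7.h388

open Polynomial Cardinal Algebra

section Quot

variable {R : Type} [CommRing R] [IsDomain R] [Algebra ℂ R]

/-- The transcendence degree drops modulo a nonzero prime. -/
theorem trdeg_quot_lt (q : Ideal R) [q.IsPrime] (f : R) (hf0 : f ≠ 0) (hfq : f ∈ q) :
    Algebra.trdeg ℂ (R ⧸ q) + 1 ≤ Algebra.trdeg ℂ R := by
  obtain ⟨s, hs⟩ := exists_isTranscendenceBasis ℂ (R ⧸ q)
  choose x hx using fun i : s => Ideal.Quotient.mk_surjective (I := q) (i : R ⧸ q)
  let π : R →ₐ[ℂ] R ⧸ q := Ideal.Quotient.mkₐ ℂ q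
  have hind : AlgebraicIndependent ℂ (π ∘ x) := by
    have : π ∘ x = fun i : s => (i : R ⧸ q) := funext hx
    rw [this]; exact hs.1
  have hindx : AlgebraicIndependent ℂ x := AlgebraicIndependent.of_comp π hind
  have htr : Transcendental (Algebra.adjoin ℂ (Set.range x)) f := by
    intro halg
    obtain ⟨r, hr0, hdvd⟩ := halg.exists_nonzero_dvd (mem_nonZeroDivisors_of_ne_zero hf0)
    obtain ⟨c, hc⟩ := hdvd
    have hrq : (r : R) ∈ q := by
      have : (r : R) = f * c := hc
      rw [this]; exact q.mul_mem_right _ hfq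
    have hr : (r : R) ∈ (MvPolynomial.aeval x : MvPolynomial s ℂ →ₐ[ℂ] R).range := by
      rw [← Algebra.adjoin_range_eq_range_aeval]; exact r.2
    obtain ⟨P, hP⟩ := hr
    have h1 : MvPolynomial.aeval (π ∘ x) P = 0 := by
      have h2 : MvPolynomial.aeval (π ∘ x) P = π (MvPolynomial.aeval x P) := by
        have := MvPolynomial.comp_aeval_apply (f := x) π P
        exact this.symm
      rw [h2]
      have h3 : MvPolynomial.aeval x P = (r : R) := hP
      rw [h3]
      exact Ideal.Quotient.eq_zero_iff_mem.2 hrq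
    have h4 : P = 0 := (algebraicIndependent_iff.1 hind) P h1
    apply hr0
    apply Subtype.ext
    have h3 : MvPolynomial.aeval x P = (r : R) := hP
    rw [← h3, h4, map_zero]; rfl
  have hopt := (hindx.option_iff_transcendental f).2 htr
  have hle := hopt.cardinalMk_le_trdeg
  rw [Cardinal.mk_option, hs.cardinalMk_eq_trdeg] at hle
  exact hle

/-- `1`-dimensional local rings of integrally closed noetherian domains are valuation rings. -/
theorem valring [IsNoetherianRing R] [IsIntegrallyClosed R] (p : Ideal R) [hp : p.IsPrime]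
    (hmin : ∀ q : Ideal R, q.IsPrime → q ≠ ⊥ → q ≤ p → q = p) (a b : R) :
    (∃ r, ∃ s ∉ p, s * a = r * b) ∨ (∃ r, ∃ s ∉ p, s * b = r * a) := by
  let L := Localization.AtPrime p
  have hIC : IsIntegrallyClosed L :=
    isIntegrallyClosed_of_isLocalization L p.primeCompl p.primeCompl_le_nonZeroDivisors
  have hdom : IsDomain L := IsLocalization.isDomain_localization p.primeCompl_le_nonZeroDivisors
  have hnoe : IsNoetherianRing L := IsLocalization.isNoetherianRing p.primeCompl L inferInstance
  have hinj : Function.Injective (algebraMap R L) :=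
    IsLocalization.injective L p.primeCompl_le_nonZeroDivisors
  have hVR : ValuationRing L := by
    have htf : (IsIntegrallyClosed L ∧ ∀ P : Ideal L, P ≠ ⊥ → P.IsPrime →
        P = IsLocalRing.maximalIdeal L) ↔ ValuationRing L :=
      (tfae_of_isNoetherianRing_of_isLocalRing_of_isDomain L).out 3 1
    refine htf.1 ⟨hIC, ?_⟩
    intro P hP0 hP
    have h1 : (P.comap (algebraMap R L)).IsPrime := Ideal.comap_isPrime _ _
    have h2 : P.comap (algebraMap R L) ≤ p := by
      intro x hx
      by_contra hxp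
      have : IsUnit (algebraMap R L x) := IsLocalization.map_units L (⟨x, hxp⟩ : p.primeCompl)
      exact hP.ne_top (Ideal.eq_top_of_isUnit_mem _ hx this)
    have h3 : P.comap (algebraMap R L) ≠ ⊥ := by
      intro h
      apply hP0
      have := IsLocalization.map_under p.primeCompl L P
      rw [← this]
      change (P.comap (algebraMap R L)).map (algebraMap R L) = ⊥
      rw [h, Ideal.map_bot]
    have h4 := hmin _ h1 h3 h2
    have h5 := IsLocalization.map_under p.primeCompl L P
    change (P.comap (algebraMap R L)).map (algebraMap R L) = P at h5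
    rw [← h5, h4]
    exact Localization.AtPrime.map_eq_maximalIdeal
  have key : ∀ a b : R, algebraMap R L b ∣ algebraMap R L a → ∃ r, ∃ s ∉ p, s * a = r * b := by
    rintro a b ⟨c, hc⟩
    obtain ⟨⟨r, s⟩, hrs⟩ := IsLocalization.surj p.primeCompl c
    refine ⟨r, s, s.2, ?_⟩
    apply hinj
    rw [map_mul, map_mul, hc]
    simp only at hrs
    rw [← hrs]
    ring
  rcases ValuationRing.dvd_total (algebraMap R L a) (algebraMap R L b) with h | h
  · right; exact key b a h
  · left; exact key a b h

end Quot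

section Res

variable {R : Type} [CommRing R] [IsDomain R] [Algebra ℂ R]

/-- The elements of the fraction field with denominator prime to `p`. -/
def valS (p : Ideal R) [hp : p.IsPrime]
    (hv : ∀ a b : R, (∃ r, ∃ s ∉ p, s * a = r * b) ∨ (∃ r, ∃ s ∉ p, s * b = r * a)) :
    ValuationSubring (FractionRing R) where
  carrier := {z | ∃ r, ∃ s ∉ p, z * algebraMap R _ s = algebraMap R _ r}
  one_mem' := ⟨1, 1, fun h => hp.ne_top ((Ideal.eq_top_iff_one p).2 h), by simp⟩
  zero_mem' := ⟨0, 1, fun h => hp.ne_top ((Ideal.eq_top_iff_one p).2 h), by simp⟩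
  mul_mem' := by
    rintro a b ⟨r, s, hs, h⟩ ⟨r', s', hs', h'⟩
    refine ⟨r * r', s * s', fun hc => (hp.mem_or_mem hc).elim hs hs', ?_⟩
    rw [map_mul, map_mul, ← h, ← h']; ring
  add_mem' := by
    rintro a b ⟨r, s, hs, h⟩ ⟨r', s', hs', h'⟩
    refine ⟨r * s' + r' * s, s * s', fun hc => (hp.mem_or_mem hc).elim hs hs', ?_⟩
    rw [map_mul, map_add, map_mul, map_mul, ← h, ← h']; ring
  neg_mem' := by
    rintro a ⟨r, s, hs, h⟩
    exact ⟨-r, s, hs, by rw [map_neg, ← h]; ring⟩
  mem_or_inv_mem' := by
    intro z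
    obtain ⟨a, b, hb, rfl⟩ := IsFractionRing.div_surjective (A := R) z
    have hb0 := nonZeroDivisors.ne_zero hb
    have hinj : Function.Injective (algebraMap R (FractionRing R)) := IsFractionRing.injective R _
    have hmb : algebraMap R (FractionRing R) b ≠ 0 := fun h => hb0 (hinj (by rw [h, map_zero]))
    rcases hv a b with ⟨r, s, hs, h⟩ | ⟨r, s, hs, h⟩
    · left
      refine ⟨r, s, hs, ?_⟩
      have h2 := congrArg (algebraMap R (FractionRing R)) h
      rw [map_mul, map_mul] at h2
      field_simp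
      linear_combination h2
    · right
      by_cases ha0 : a = 0
      · refine ⟨0, 1, fun h => hp.ne_top ((Ideal.eq_top_iff_one p).2 h), by simp [ha0]⟩
      have hma : algebraMap R (FractionRing R) a ≠ 0 := fun h => ha0 (hinj (by rw [h, map_zero]))
      refine ⟨r, s, hs, ?_⟩
      have h2 := congrArg (algebraMap R (FractionRing R)) h
      rw [map_mul, map_mul] at h2
      field_simp
      linear_combination h2

/-- The elements of the fraction field which are small at `p`. -/
def smallS (p : Ideal R) [hp : p.IsPrime] : AddSubgroup (FractionRing R) where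
  carrier := {z | ∃ r ∈ p, ∃ s ∉ p, z * algebraMap R _ s = algebraMap R _ r}
  zero_mem' := ⟨0, p.zero_mem, 1, fun h => hp.ne_top ((Ideal.eq_top_iff_one p).2 h), by simp⟩
  add_mem' := by
    rintro a b ⟨r, hr, s, hs, h⟩ ⟨r', hr', s', hs', h'⟩
    refine ⟨r * s' + r' * s, p.add_mem (p.mul_mem_right _ hr) (p.mul_mem_right _ hr'), s * s',
      fun hc => (hp.mem_or_mem hc).elim hs hs', ?_⟩
    rw [map_mul, map_add, map_mul, map_mul, ← h, ← h']; ring
  neg_mem' := by
    rintro a ⟨r, hr, s, hs, h⟩
    exact ⟨-r, p.neg_mem hr, s, hs, by rw [map_neg, ← h]; ring⟩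

omit [IsDomain R] [Algebra ℂ R] in
theorem smallS_mul (p : Ideal R) [hp : p.IsPrime] {z : FractionRing R} (hz : z ∈ smallS p)
    (x : R) : z * algebraMap R _ x ∈ smallS p := by
  obtain ⟨r, hr, s, hs, h⟩ := hz
  refine ⟨r * x, p.mul_mem_right _ hr, s, hs, ?_⟩
  rw [map_mul, ← h]; ring

omit [IsDomain R] [Algebra ℂ R] in
theorem mem_of_smallS (p : Ideal R) [hp : p.IsPrime] {x : R}
    (hx : algebraMap R (FractionRing R) x ∈ smallS p) : x ∈ p := by
  obtain ⟨r, hr, s, hs, h⟩ := hx
  rw [← map_mul] at h
  have h1 : x * s = r := IsFractionRing.injective R (FractionRing R) h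
  have : x * s ∈ p := by rw [h1]; exact hr
  exact (hp.mem_or_mem this).resolve_right hs

/-- Lifts of algebraically independent residues are algebraically independent over a subfield
with constant residues. -/
theorem lift_indep (p : Ideal R) [hp : p.IsPrime]
    (hv : ∀ a b : R, (∃ r, ∃ s ∉ p, s * a = r * b) ∨ (∃ r, ∃ s ∉ p, s * b = r * a))
    (L : IntermediateField ℂ (FractionRing R))
    (hL : ∀ c ∈ L, c ∈ valS p hv → ∃ c' : ℂ, c - algebraMap ℂ (FractionRing R) c' ∈ smallS p)
    {ι : Type} (x : ι → R)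
    (hx : AlgebraicIndependent ℂ (fun i => Ideal.Quotient.mk p (x i))) :
    AlgebraicIndependent L (fun i => algebraMap R (FractionRing R) (x i)) := by
  classical
  rw [algebraicIndependent_iff]
  intro P hP
  by_contra hP0
  have hsupp : P.support.Nonempty := MvPolynomial.support_nonempty.2 hP0
  obtain ⟨α₀, hα₀, hmax⟩ := Finset.exists_max_image P.support
    (fun α => (valS p hv).valuation ((P.coeff α : L) : FractionRing R)) hsupp
  have hc0 : (P.coeff α₀ : L) ≠ 0 := MvPolynomial.mem_support_iff.1 hα₀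
  have hc0' : ((P.coeff α₀ : L) : FractionRing R) ≠ 0 := fun h => hc0 (Subtype.ext h)
  let c : (ι →₀ ℕ) → L := fun α => P.coeff α / P.coeff α₀
  have hcV : ∀ α ∈ P.support, ((c α : L) : FractionRing R) ∈ valS p hv := by
    intro α hα
    rw [← ValuationSubring.valuation_le_one_iff]
    change (valS p hv).valuation (((P.coeff α : L) : FractionRing R) /
      ((P.coeff α₀ : L) : FractionRing R)) ≤ 1
    rw [map_div₀]
    exact div_le_one_of_le₀ (hmax α hα) zero_le
  have hres : ∀ α, ∃ c' : ℂ, α ∈ P.support →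
      ((c α : L) : FractionRing R) - algebraMap ℂ (FractionRing R) c' ∈ smallS p := by
    intro α
    by_cases hα : α ∈ P.support
    · obtain ⟨c', hc'⟩ := hL _ (c α).2 (hcV α hα)
      exact ⟨c', fun _ => hc'⟩
    · exact ⟨0, fun h => absurd h hα⟩
  choose c' hc' using hres
  let P' : MvPolynomial ι ℂ := ∑ α ∈ P.support, MvPolynomial.monomial α (c' α)
  have hsum : ∑ α ∈ P.support, ((c α : L) : FractionRing R) *
      algebraMap R (FractionRing R) (α.prod fun i n => x i ^ n) = 0 := by
    have h1 : (MvPolynomial.aeval (fun i => algebraMap R (FractionRing R) (x i))) P =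
        ∑ α ∈ P.support, ((P.coeff α : L) : FractionRing R) *
          algebraMap R (FractionRing R) (α.prod fun i n => x i ^ n) := by
      rw [MvPolynomial.aeval_def, MvPolynomial.eval₂_eq]
      apply Finset.sum_congr rfl
      intro α _
      congr 1
      rw [Finsupp.prod, map_prod]
      simp only [map_pow]
    rw [hP] at h1
    have h2 : ∑ α ∈ P.support, ((c α : L) : FractionRing R) *
        algebraMap R (FractionRing R) (α.prod fun i n => x i ^ n) =
        ((P.coeff α₀ : L) : FractionRing R)⁻¹ * ∑ α ∈ P.support, ((P.coeff α : L) : FractionRing R) *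
          algebraMap R (FractionRing R) (α.prod fun i n => x i ^ n) := by
      rw [Finset.mul_sum]
      apply Finset.sum_congr rfl
      intro α _
      change (((P.coeff α : L) : FractionRing R) / ((P.coeff α₀ : L) : FractionRing R)) * _ = _
      rw [div_eq_inv_mul, mul_assoc]
    rw [h2, ← h1, mul_zero]
  have hmem : MvPolynomial.aeval x P' ∈ p := by
    apply mem_of_smallS
    have h1 : algebraMap R (FractionRing R) (MvPolynomial.aeval x P') =
        ∑ α ∈ P.support, (-(((c α : L) : FractionRing R) - algebraMap ℂ (FractionRing R) (c' α))) *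
          algebraMap R (FractionRing R) (α.prod fun i n => x i ^ n) := by
      have h2 : algebraMap R (FractionRing R) (MvPolynomial.aeval x P') =
          ∑ α ∈ P.support, algebraMap ℂ (FractionRing R) (c' α) *
          algebraMap R (FractionRing R) (α.prod fun i n => x i ^ n) := by
        simp only [P', map_sum, MvPolynomial.aeval_monomial, map_mul]
        apply Finset.sum_congr rfl
        intro α _
        rw [← IsScalarTower.algebraMap_apply ℂ R (FractionRing R)]
      rw [h2]
      rw [← sub_zero (∑ α ∈ P.support, algebraMap ℂ (FractionRing R) (c' α) *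
          algebraMap R (FractionRing R) (α.prod fun i n => x i ^ n)), ← hsum,
        ← Finset.sum_sub_distrib]
      apply Finset.sum_congr rfl
      intro α _
      ring
    rw [h1]
    refine AddSubgroup.sum_mem _ fun α hα => ?_
    exact smallS_mul p (AddSubgroup.neg_mem _ (hc' α hα)) _
  have hP'0 : P' = 0 := by
    rw [algebraicIndependent_iff] at hx
    apply hx
    have : MvPolynomial.aeval (fun i => Ideal.Quotient.mk p (x i)) P' =
        Ideal.Quotient.mkₐ ℂ p (MvPolynomial.aeval x P') := by
      have := MvPolynomial.comp_aeval_apply (f := x) (Ideal.Quotient.mkₐ ℂ p) P'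
      exact this.symm
    rw [this]
    exact Ideal.Quotient.eq_zero_iff_mem.2 hmem
  have hcoef : c' α₀ = 0 := by
    have h1 : P'.coeff α₀ = c' α₀ := by
      simp only [P', MvPolynomial.coeff_sum, MvPolynomial.coeff_monomial]
      rw [Finset.sum_ite_eq' P.support α₀ c', if_pos hα₀]
    rw [← h1, hP'0, MvPolynomial.coeff_zero]
  have h1 := hc' α₀ hα₀
  rw [hcoef, map_zero, sub_zero] at h1
  have h2 : ((c α₀ : L) : FractionRing R) = algebraMap R (FractionRing R) 1 := by
    change (((P.coeff α₀ : L) : FractionRing R) / ((P.coeff α₀ : L) : FractionRing R)) = _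
    rw [div_self hc0', map_one]
  rw [h2] at h1
  exact hp.ne_top ((Ideal.eq_top_iff_one p).2 (mem_of_smallS p h1))

/-- The subfield has transcendence degree at most one. -/
theorem trdeg_sub_le [IsNoetherianRing R] [IsIntegrallyClosed R] [Algebra.FiniteType ℂ R]
    (p : Ideal R) [hp : p.IsPrime]
    (hcodim : Algebra.trdeg ℂ R ≤ Algebra.trdeg ℂ (R ⧸ p) + 1)
    (L : IntermediateField ℂ (FractionRing R))
    (hL : ∀ c ∈ L, ∀ r s : R, s ∉ p → c * algebraMap R _ s = algebraMap R _ r →
      ∃ c' : ℂ, c - algebraMap ℂ (FractionRing R) c' ∈ smallS p) :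
    Algebra.trdeg ℂ L ≤ 1 := by
  have hfin : ∀ q : Ideal R, q.IsPrime → Algebra.trdeg ℂ (R ⧸ q) < ℵ₀ := by
    intro q hq
    exact trdeg_lt_aleph0_of_finiteType
  have hmin : ∀ q : Ideal R, q.IsPrime → q ≠ ⊥ → q ≤ p → q = p := by
    intro q hq hq0 hqp
    by_contra hne
    obtain ⟨f, hf, hf0⟩ := Submodule.exists_mem_ne_zero_of_ne_bot hq0
    have h1 := trdeg_quot_lt q f hf0 hf
    -- the quotient by `q`
    obtain ⟨g, hg, hgq⟩ := Set.exists_of_ssubset (lt_of_le_of_ne hqp hne : q < p)
    let q' : Ideal (R ⧸ q) := p.map (Ideal.Quotient.mk q)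
    have hq'p : q'.IsPrime := Ideal.map_isPrime_of_surjective Ideal.Quotient.mk_surjective
      (by rw [Ideal.mk_ker]; exact hqp)
    have h2 := trdeg_quot_lt q' (Ideal.Quotient.mk q g)
      (fun h => hgq (Ideal.Quotient.eq_zero_iff_mem.1 h)) (Ideal.mem_map_of_mem _ hg)
    have e : ((R ⧸ q) ⧸ q') ≃ₐ[ℂ] R ⧸ p := DoubleQuot.quotQuotEquivQuotOfLEₐ ℂ hqp
    rw [e.trdeg_eq] at h2
    have h3 : Algebra.trdeg ℂ (R ⧸ p) + 1 + 1 ≤ Algebra.trdeg ℂ (R ⧸ p) + 1 :=
      le_trans (by gcongr) (h1.trans hcodim)
    obtain ⟨n, hn⟩ := Cardinal.lt_aleph0.1 (hfin p hp)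
    rw [hn] at h3
    norm_cast at h3
    omega
  have hv := fun a b => valring p hmin a b
  obtain ⟨s, hs⟩ := exists_isTranscendenceBasis ℂ (R ⧸ p)
  choose x hx using fun i : s => Ideal.Quotient.mk_surjective (I := p) (i : R ⧸ p)
  have hind := lift_indep p hv L (by
    rintro c hc ⟨r, s, hs, h⟩
    exact hL c hc r s hs h) x (by
    have : (fun i => Ideal.Quotient.mk p (x i)) = fun i : s => (i : R ⧸ p) := funext hx
    rw [this]; exact hs.1)
  have h1 := hind.cardinalMk_le_trdeg
  rw [hs.cardinalMk_eq_trdeg] at h1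
  have h2 : Algebra.trdeg ℂ L + Algebra.trdeg L (FractionRing R) = Algebra.trdeg ℂ (FractionRing R) :=
    trdeg_add_eq ℂ L
  have h3 : Algebra.trdeg ℂ R + Algebra.trdeg R (FractionRing R) = Algebra.trdeg ℂ (FractionRing R) :=
    trdeg_add_eq ℂ R
  have halg : Algebra.IsAlgebraic R (FractionRing R) :=
    (IsFractionRing.comap_isAlgebraic_iff (A := R) (K := FractionRing R)
      (C := FractionRing R)).2 inferInstance
  rw [trdeg_eq_zero (R := R) (A := FractionRing R), add_zero] at h3
  obtain ⟨n, hn⟩ := Cardinal.lt_aleph0.1 (hfin p hp)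
  have h4 : Algebra.trdeg ℂ L + n ≤ (n : Cardinal) + 1 := by
    calc Algebra.trdeg ℂ L + n ≤ Algebra.trdeg ℂ L + Algebra.trdeg L (FractionRing R) := by
          gcongr; rw [← hn]; exact h1
      _ = Algebra.trdeg ℂ R := by rw [h2, ← h3]
      _ ≤ _ := by rw [← hn]; exact hcodim
  rw [add_comm (n : Cardinal) 1] at h4
  exact (Cardinal.add_le_add_iff_of_lt_aleph0 (Cardinal.natCast_lt_aleph0)).1 h4

end Res

section Dep

/-- Two elements of a field of transcendence degree at most one are algebraically dependent. -/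
theorem dep_of_trdeg {F : Type} [Field F] [Algebra ℂ F] (h : Algebra.trdeg ℂ F ≤ 1) (z z' : F) :
    ∃ P : ℂ[X][X], P ≠ 0 ∧ P.eval₂ (aeval z' : ℂ[X] →ₐ[ℂ] F).toRingHom z = 0 := by
  by_cases hz' : IsAlgebraic ℂ z'
  · obtain ⟨p, hp0, hp⟩ := hz'
    refine ⟨C p, by simpa using hp0, ?_⟩
    rw [eval₂_C]
    exact hp
  · have hind : AlgebraicIndependent ℂ (fun _ : Unit => z') := by
      rw [algebraicIndependent_unique_type_iff]
      exact hz'
    have hno : ¬ Transcendental (Algebra.adjoin ℂ (Set.range fun _ : Unit => z')) z := by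
      intro htr
      have h1 := ((hind.option_iff_transcendental z).2 htr).cardinalMk_le_trdeg
      have h2 := h1.trans h
      rw [Cardinal.mk_option, Cardinal.mk_fintype] at h2
      norm_num at h2
    have halg : IsAlgebraic (Algebra.adjoin ℂ (Set.range fun _ : Unit => z')) z := by
      by_contra hc; exact hno hc
    obtain ⟨P, hP0, hP⟩ := halg
    let f : ℂ[X] →+* Algebra.adjoin ℂ (Set.range fun _ : Unit => z') :=
      ((aeval z' : ℂ[X] →ₐ[ℂ] F).codRestrict _ (fun q => by
        have := Polynomial.aeval_mem_adjoin_singleton ℂ z' (p := q)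
        rwa [Set.range_const])).toRingHom
    have hf : Function.Surjective f := by
      rintro ⟨y, hy⟩
      rw [Set.range_const, Algebra.adjoin_singleton_eq_range_aeval] at hy
      obtain ⟨q, hq⟩ := hy
      exact ⟨q, Subtype.ext hq⟩
    obtain ⟨P', hP'⟩ := Polynomial.map_surjective f hf P
    refine ⟨P', ?_, ?_⟩
    · rintro rfl
      rw [Polynomial.map_zero] at hP'
      exact hP0 hP'.symm
    · have h1 : (aeval z' : ℂ[X] →ₐ[ℂ] F).toRingHom = (algebraMap
          (Algebra.adjoin ℂ (Set.range fun _ : Unit => z')) F).comp f := rfl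
      rw [h1, ← Polynomial.eval₂_map, hP']
      exact hP

end Dep

end Run7.h388
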