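import Pool.Agent.Run7.h388.Idc
import Pool.Agent.Run7.h388.Trd

namespace Run7.h388

open Polynomial

section Sub

variable {G : Type} [Group G] {OG : Subalgebra ℂ (G → ℂ)}

/-- Points of a closed subset as evaluations. -/
theorem restr_variety {X : Type} {O : Subalgebra ℂ (X → ℂ)} (hO : IsAffineVariety O) {Z : Set X}
    (hZ : ZClosed O Z) : IsAffineVariety (restr O Z) := by
  refine ⟨hO.fg.map _, fun φ => ?_⟩
  let r : O →ₐ[ℂ] restr O Z :=
    { toFun := fun f => ⟨fun z => (f : X → ℂ) z, mem_restr.2 ⟨f, f.2, fun z => rfl⟩⟩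
      map_one' := rfl
      map_mul' := fun _ _ => rfl
      map_zero' := rfl
      map_add' := fun _ _ => rfl
      commutes' := fun _ => rfl }
  have hr : Function.Surjective r := by
    rintro ⟨f, hf⟩
    obtain ⟨F, hF, h⟩ := mem_restr.1 hf
    exact ⟨⟨F, hF⟩, Subtype.ext (funext h)⟩
  obtain ⟨x, hx, hxu⟩ := hO.point (φ.comp r)
  have hxZ : x ∈ Z := by
    by_contra hc
    obtain ⟨f, hf, h1, h2⟩ := hZ x hc
    apply h2
    have h3 := hx ⟨f, hf⟩
    simp only at h3
    rw [← h3, AlgHom.comp_apply]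
    have : r ⟨f, hf⟩ = 0 := Subtype.ext (funext fun z => h1 z z.2)
    rw [this, map_zero]
  refine ⟨⟨x, hxZ⟩, ?_, ?_⟩
  · intro f
    obtain ⟨F, rfl⟩ := hr f
    have := hx F
    rw [AlgHom.comp_apply] at this
    rw [this]; rfl
  · intro y hy
    apply Subtype.ext
    apply hxu
    intro f
    rw [AlgHom.comp_apply, hy]; rfl

theorem restr_group (hG : IsAlgebraicGroup OG) (B : Subgroup G) (hB : ZClosed OG (B : Set G)) :
    IsAlgebraicGroup (G := B) (restr OG (B : Set G)) := by
  refine ⟨restr_variety hG.variety hB, ?_, ?_⟩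
  · intro f hf
    obtain ⟨F, hF, h⟩ := mem_restr.1 hf
    obtain ⟨n, a, b, hab⟩ := prodAlg_sum (hG.mul F hF)
    have h1 : (fun p : B × B => f (p.1 * p.2)) = ∑ i, (fun p : B × B => (a i : G → ℂ) p.1) *
        (fun p : B × B => (b i : G → ℂ) p.2) := by
      funext p
      have h2 := hab p.1 p.2
      simp only at h2
      rw [← h, Finset.sum_apply]
      exact h2
    rw [h1]
    refine Subalgebra.sum_mem _ fun i _ => Subalgebra.mul_mem _ ?_ ?_
    · exact Algebra.subset_adjoin (Or.inl ⟨fun z : B => (a i : G → ℂ) z,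
        mem_restr.2 ⟨a i, (a i).2, fun z => rfl⟩, rfl⟩)
    · exact Algebra.subset_adjoin (Or.inr ⟨fun z : B => (b i : G → ℂ) z,
        mem_restr.2 ⟨b i, (b i).2, fun z => rfl⟩, rfl⟩)
  · intro f hf
    obtain ⟨F, hF, h⟩ := mem_restr.1 hf
    exact mem_restr.2 ⟨_, hG.inv F hF, fun z => h z⁻¹⟩

theorem zclosed_image {X : Type} {O : Subalgebra ℂ (X → ℂ)} {B : Set X} (hB : ZClosed O B)
    {Z : Set B} (hZ : ZClosed (restr O B) Z) : ZClosed O ((↑) '' Z : Set X) := by
  intro x hx
  by_cases hxB : x ∈ B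
  · have : (⟨x, hxB⟩ : B) ∉ Z := fun h => hx ⟨_, h, rfl⟩
    obtain ⟨f, hf, h1, h2⟩ := hZ _ this
    obtain ⟨F, hF, h⟩ := mem_restr.1 hf
    refine ⟨F, hF, ?_, ?_⟩
    · rintro _ ⟨z, hz, rfl⟩
      rw [h]; exact h1 z hz
    · rw [h ⟨x, hxB⟩]; exact h2
  · obtain ⟨f, hf, h1, h2⟩ := hB x hxB
    exact ⟨f, hf, by rintro _ ⟨z, hz, rfl⟩; exact h1 z z.2, h2⟩

theorem restr_connected {X : Type} {O : Subalgebra ℂ (X → ℂ)} {B : Set X} (hB : ZClosed O B)
    (hc : ZConnected O B) : ZConnected (restr O B) (Set.univ : Set B) := by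
  intro Z₁ Z₂ h₁ h₂ hcov hdis
  rcases hc _ _ (zclosed_image hB h₁) (zclosed_image hB h₂) (by
    intro x hx
    rcases hcov (Set.mem_univ (⟨x, hx⟩ : B)) with h | h
    · exact Or.inl ⟨_, h, rfl⟩
    · exact Or.inr ⟨_, h, rfl⟩) (by
    rw [Set.eq_empty_iff_forall_notMem] at hdis ⊢
    rintro x ⟨⟨hx, ⟨y, hy, hyx⟩⟩, ⟨z, hz, hzx⟩⟩
    have e : y = z := Subtype.ext (hyx.trans hzx.symm)
    exact hdis y ⟨⟨trivial, hy⟩, by rw [e]; exact hz⟩) with h | h
  · left
    rintro x -
    obtain ⟨y, hy, hyx⟩ := h x.2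
    rwa [← Subtype.ext hyx]
  · right
    rintro x -
    obtain ⟨y, hy, hyx⟩ := h x.2
    rwa [← Subtype.ext hyx]

/-- A proper ideal of the coordinate ring has a zero. -/
theorem exists_zero {X : Type} {O : Subalgebra ℂ (X → ℂ)} (hO : IsAffineVariety O)
    (P : Ideal O) (hP : P ≠ ⊤) : ∃ x : X, ∀ f ∈ P, (f : X → ℂ) x = 0 := by
  obtain ⟨m, hm, hPm⟩ := Ideal.exists_le_maximal P hP
  have hft : Algebra.FiniteType ℂ O := (Subalgebra.fg_iff_finiteType _).1 hO.fg
  let : Field (O ⧸ m) := Ideal.Quotient.field m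
  have hft2 : Algebra.FiniteType ℂ (O ⧸ m) :=
    Algebra.FiniteType.of_surjective (Ideal.Quotient.mkₐ ℂ m) (Ideal.Quotient.mkₐ_surjective ℂ m)
  have hfin : Module.Finite ℂ (O ⧸ m) := finite_of_finite_type_of_isJacobsonRing ℂ (O ⧸ m)
  have hbij : Function.Bijective (algebraMap ℂ (O ⧸ m)) :=
    IsAlgClosed.algebraMap_bijective_of_isIntegral
  let e : ℂ ≃ₐ[ℂ] (O ⧸ m) := AlgEquiv.ofBijective (Algebra.ofId ℂ (O ⧸ m)) hbij
  obtain ⟨x, hx, -⟩ := hO.point ((e.symm : (O ⧸ m) →ₐ[ℂ] ℂ).comp (Ideal.Quotient.mkₐ ℂ m))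
  refine ⟨x, fun f hf => ?_⟩
  rw [← hx f, AlgHom.comp_apply]
  have : Ideal.Quotient.mkₐ ℂ m f = 0 := Ideal.Quotient.eq_zero_iff_mem.2 (hPm hf)
  rw [this, map_zero]

/-- The coordinate ring of a connected algebraic group is a domain. -/
theorem group_domain (hG : IsAlgebraicGroup OG) (hc : idc OG = ⊤) : IsDomain OG := by
  have hft : Algebra.FiniteType ℂ OG := (Subalgebra.fg_iff_finiteType _).1 hG.variety.fg
  have hnoeth : IsNoetherianRing OG := Algebra.FiniteType.isNoetherianRing ℂ OG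
  have hnt : Nontrivial OG := by
    refine ⟨0, 1, fun h => ?_⟩
    have := congrFun (congrArg Subtype.val h) (1 : G)
    exact zero_ne_one this
  have hact : IsRegularAction (X := G) OG OG := hG.mul
  let γ := act hact
  obtain ⟨P, hP⟩ : (minimalPrimes OG).Nonempty := Set.nonempty_coe_sort.1
    (Ideal.nonempty_minimalPrimes (by
      intro h; exact absurd ((Ideal.eq_top_iff_one _).1 h) (by simp)))
  have hfin : (minimalPrimes OG).Finite := minimalPrimes.finite_of_isNoetherianRing OG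
  have hmin : ∀ g, P.comap (γ g) ∈ minimalPrimes OG := by
    intro g
    have hPp : P.IsPrime := hP.1.1
    refine ⟨⟨Ideal.comap_isPrime _ _, bot_le⟩, ?_⟩
    rintro Q ⟨hQ, -⟩ hle
    have h1 : Q.comap (γ g⁻¹) ≤ P := by
      intro f hf
      have h2 : γ g⁻¹ f ∈ P.comap (γ g) := hle hf
      have h3 : γ g (γ g⁻¹ f) = f := by
        rw [← AlgEquiv.mul_apply, ← map_mul]; simp
      rw [Ideal.mem_comap, h3] at h2
      exact h2
    have h2 := hP.2 ⟨Ideal.comap_isPrime (γ g⁻¹) Q, bot_le⟩ h1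
    intro f hf
    have h3 := h2 (Ideal.mem_comap.1 hf)
    have h4 : γ g⁻¹ (γ g f) = f := by
      rw [← AlgEquiv.mul_apply, ← map_mul]; simp
    rw [Ideal.mem_comap, h4] at h3
    exact h3
  have hcomp : ∀ g h : G, P.comap (γ (g * h)) = (P.comap (γ g)).comap (γ h) := by
    intro g h
    ext f
    rw [Ideal.mem_comap, Ideal.mem_comap, Ideal.mem_comap, map_mul]; rfl
  have hone : P.comap (γ 1) = P := by
    ext f
    rw [Ideal.mem_comap, map_one]; rfl
  let St : Subgroup G :=
    { carrier := {g | P.comap (γ g) = P}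
      one_mem' := hone
      mul_mem' := by
        intro a b ha hb
        simp only [Set.mem_ofPred_eq] at *
        rw [hcomp, ha, hb]
      inv_mem' := by
        intro a ha
        simp only [Set.mem_ofPred_eq] at *
        have : (P.comap (γ a)).comap (γ a⁻¹) = P := by rw [← hcomp, mul_inv_cancel, hone]
        rwa [ha] at this }
  have hStc : ZClosed OG (St : Set G) := by
    have h1 : (St : Set G) = (⋂ f : P, {g | γ g f ∈ P}) ∩ (⋂ f : P, {g | γ g⁻¹ f ∈ P}) := by
      ext g
      simp only [Set.mem_inter_iff, Set.mem_iInter, Set.mem_ofPred_eq]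
      constructor
      · intro hg
        have hg' : g⁻¹ ∈ St := St.inv_mem hg
        have h2 : P.comap (γ g) = P := hg
        have h3 : P.comap (γ g⁻¹) = P := hg'
        refine ⟨fun f => ?_, fun f => ?_⟩
        · have h4 : (f : OG) ∈ P.comap (γ g) := by rw [h2]; exact f.2
          exact h4
        · have h4 : (f : OG) ∈ P.comap (γ g⁻¹) := by rw [h3]; exact f.2
          exact h4
      · rintro ⟨h2, h3⟩
        change P.comap (γ g) = P
        apply le_antisymm
        · intro f hf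
          have := h3 ⟨_, Ideal.mem_comap.1 hf⟩
          have h4 : γ g⁻¹ (γ g f) = f := by
            rw [← AlgEquiv.mul_apply, ← map_mul]; simp
          simp only at this
          rwa [h4] at this
        · intro f hf
          exact h2 ⟨f, hf⟩
    have h2 : ∀ f : OG, ZClosed OG {g | γ g f ∈ P} := by
      intro f g₀ hg₀
      have h3 : (P.restrictScalars ℂ).mkQ (γ g₀ f) ≠ 0 := by
        intro h
        rw [Submodule.mkQ_apply, Submodule.Quotient.mk_eq_zero] at h
        exact hg₀ h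
      obtain ⟨φ, hφ⟩ := exists_dual_one h3
      refine ⟨fun g => (φ ∘ₗ (P.restrictScalars ℂ).mkQ) (rep1 γ g f), rep1_rat hG hact f _, ?_, ?_⟩
      · intro g hg
        have : (P.restrictScalars ℂ).mkQ (γ g f) = 0 := by
          rw [Submodule.mkQ_apply, Submodule.Quotient.mk_eq_zero]; exact hg
        change φ ((P.restrictScalars ℂ).mkQ (γ g f)) = 0
        rw [this, map_zero]
      · change φ ((P.restrictScalars ℂ).mkQ (γ g₀ f)) ≠ 0
        rw [hφ]; exact one_ne_zero
    rw [h1]
    refine (ZClosed.iInter fun f : P => h2 (f : OG)).inter (ZClosed.iInter fun f : P => ?_)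
    exact (h2 (f : OG)).preimage (F := fun g => g⁻¹) hG.inv
  have hStf : St.FiniteIndex := by
    have hF : Finite (minimalPrimes OG) := hfin
    have : Finite (G ⧸ St) := by
      refine Finite.of_injective (β := minimalPrimes OG)
        (fun x => ⟨P.comap (γ (Quotient.out x)⁻¹), hmin _⟩) ?_
      intro x y hxy
      have h1 : P.comap (γ (Quotient.out x)⁻¹) = P.comap (γ (Quotient.out y)⁻¹) :=
        congrArg Subtype.val hxy
      rw [← QuotientGroup.out_eq' x, ← QuotientGroup.out_eq' y, QuotientGroup.eq]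
      change P.comap (γ ((Quotient.out x)⁻¹ * Quotient.out y)) = P
      rw [hcomp, h1, ← hcomp, inv_mul_cancel, hone]
    exact Subgroup.finiteIndex_of_finite_quotient
  have htop : St = ⊤ := by
    rw [eq_top_iff, ← hc]; exact idc_le hStc hStf
  obtain ⟨x, hx⟩ := exists_zero hG.variety P hP.1.1.ne_top
  have hPbot : P = ⊥ := by
    rw [eq_bot_iff]
    intro f hf
    rw [Ideal.mem_bot]
    refine Subtype.ext (funext fun y => ?_)
    have h1 : (x * y⁻¹) ∈ St := by rw [htop]; trivial
    have h2 : γ (x * y⁻¹) f ∈ P := by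
      have h3 : P.comap (γ (x * y⁻¹)) = P := h1
      rw [← h3] at hf; exact hf
    have h3 := hx _ h2
    change (f : G → ℂ) ((x * y⁻¹)⁻¹ * x) = 0 at h3
    simpa using h3
  have hprime : (⊥ : Ideal OG).IsPrime := by rw [← hPbot]; exact hP.1.1
  exact IsDomain.of_bot_isPrime OG

end Sub

section TrB

variable {G X : Type} [Group G] [MulAction G X] {OG : Subalgebra ℂ (G → ℂ)}
  {OX : Subalgebra ℂ (X → ℂ)}

theorem vI_prime (hG : IsAlgebraicGroup OG) (hact : IsRegularAction OG OX) (B : Subgroup G)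
    (hBc : ZClosed OG (B : Set G)) (hBconn : ZConnected OG (B : Set G)) (x₀ : X) :
    (vI OX (MulAction.orbit B x₀)).IsPrime := by
  have h1 := restr_group hG B hBc
  have h2 : idc (restr OG (B : Set G)) = ⊤ := by
    rw [eq_top_iff]
    refine le_idc h1 ⊤ ?_
    exact restr_connected hBc hBconn
  have h3 : IsDomain (restr OG (B : Set G)) := group_domain h1 h2
  refine ⟨?_, ?_⟩
  · intro h
    have : (1 : OX) ∈ vI OX (MulAction.orbit B x₀) := by rw [h]; trivial
    have := this x₀ (MulAction.mem_orbit_self x₀)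
    exact one_ne_zero this
  · intro f g hfg
    let φ : OX → restr OG (B : Set G) := fun f => ⟨fun b => (f : X → ℂ) ((b : G) • x₀),
      mem_restr.2 ⟨_, slice_left (hact f f.2) x₀, fun z => rfl⟩⟩
    have h4 : φ f * φ g = 0 := by
      refine Subtype.ext (funext fun b => ?_)
      exact hfg _ ⟨b, rfl⟩
    rcases mul_eq_zero.1 h4 with h | h
    · left
      rintro _ ⟨b, rfl⟩
      exact congrFun (congrArg Subtype.val h) b
    · right
      rintro _ ⟨b, rfl⟩
      exact congrFun (congrArg Subtype.val h) b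

theorem act_trB [IsDomain OX] [IsIntegrallyClosed OX] (hG : IsAlgebraicGroup OG)
    (hX : IsAffineVariety OX)
    (hact : IsRegularAction OG OX) (B : Subgroup G)
    (hBc : ZClosed OG (B : Set G)) (hBconn : ZConnected OG (B : Set G)) (x₀ : X)
    (hcodim : Algebra.trdeg ℂ OX ≤ Algebra.trdeg ℂ (restr OX (MulAction.orbit B x₀)) + 1) :
    TrB (act hact) B := by
  have hft : Algebra.FiniteType ℂ OX := (Subalgebra.fg_iff_finiteType _).1 hX.fg
  have hnoeth : IsNoetherianRing OX := Algebra.FiniteType.isNoetherianRing ℂ OX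
  let Z := MulAction.orbit B x₀
  have hprime := vI_prime hG hact B hBc hBconn x₀
  let r : OX →ₐ[ℂ] restr OX Z :=
    { toFun := fun f => ⟨fun z => (f : X → ℂ) z, mem_restr.2 ⟨f, f.2, fun z => rfl⟩⟩
      map_one' := rfl
      map_mul' := fun _ _ => rfl
      map_zero' := rfl
      map_add' := fun _ _ => rfl
      commutes' := fun _ => rfl }
  have hr : Function.Surjective r := by
    rintro ⟨f, hf⟩
    obtain ⟨F, hF, h⟩ := mem_restr.1 hf
    exact ⟨⟨F, hF⟩, Subtype.ext (funext h)⟩
  have hker : RingHom.ker r = vI OX Z := by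
    ext f
    rw [RingHom.mem_ker]
    constructor
    · intro h z hz
      exact congrFun (congrArg Subtype.val h) ⟨z, hz⟩
    · intro h
      exact Subtype.ext (funext fun z => h z z.2)
  have e1 : (OX ⧸ vI OX Z) ≃ₐ[ℂ] restr OX Z := by
    rw [← hker]
    exact Ideal.quotientKerAlgEquivOfSurjective hr
  have e2 : Algebra.trdeg ℂ (OX ⧸ vI OX Z) = Algebra.trdeg ℂ (restr OX Z) :=
    AlgEquiv.trdeg_eq (R := ℂ) (A := OX ⧸ vI OX Z) (A' := restr OX Z) e1
  rw [← e2] at hcodim
  let K := FractionRing OX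
  let m : OX →+* K := algebraMap OX K
  have hm : Function.Injective m := IsFractionRing.injective OX K
  let e : G → K ≃+* K := fun g => IsFractionRing.ringEquivOfRingEquiv
    ((act hact g : OX ≃ₐ[ℂ] OX) : OX ≃+* OX)
  have he : ∀ g (r : OX), e g (m r) = m (act hact g r) := fun g r =>
    IsFractionRing.ringEquivOfRingEquiv_algebraMap _ r
  let L : IntermediateField ℂ K :=
    { carrier := {z | ∀ b ∈ B, e b z = z}
      mul_mem' := fun ha hb c hc => by rw [map_mul, ha c hc, hb c hc]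
      add_mem' := fun ha hb c hc => by rw [map_add, ha c hc, hb c hc]
      algebraMap_mem' := fun c b _ => by
        have : algebraMap ℂ K c = m (algebraMap ℂ OX c) := IsScalarTower.algebraMap_apply ℂ OX K c
        rw [this, he, (act hact b).commutes]
      inv_mem' := fun x hx c hc => by rw [map_inv₀, hx c hc] }
  have hmemL : ∀ z : K, z ∈ L ↔ ∀ b ∈ B, e b z = z := fun z => Iff.rfl
  have hFI : ∀ z, FracInv (act hact) B z → z ∈ L := by
    rintro z ⟨p, q, hq, rfl, h⟩ b hb
    have hq' : m q ≠ 0 := fun h => hq (hm (by rw [h, map_zero]))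
    have hq'' : m (act hact b q) ≠ 0 := fun h =>
      hq ((map_eq_zero_iff _ (act hact b).injective).1 (hm (by rw [h, map_zero])))
    change e b (m p / m q) = m p / m q
    rw [map_div₀, he, he, div_eq_div_iff hq'' hq', ← map_mul, ← map_mul, h b hb]
  have htr := trdeg_sub_le (vI OX Z) hcodim L (by
    intro c hc r s hs hcs
    have hs' : ∃ b₀ : B, (s : X → ℂ) ((b₀ : G) • x₀) ≠ 0 := by
      by_contra hcon
      push Not at hcon
      apply hs
      rintro _ ⟨b, rfl⟩
      exact hcon b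
    obtain ⟨b₀, hb₀⟩ := hs'
    let c' : ℂ := (r : X → ℂ) ((b₀ : G) • x₀) / (s : X → ℂ) ((b₀ : G) • x₀)
    refine ⟨c', r - c' • s, ?_, s, hs, ?_⟩
    · rintro _ ⟨b, rfl⟩
      change (r : X → ℂ) ((b : G) • x₀) - c' * (s : X → ℂ) ((b : G) • x₀) = 0
      have h1 := hc ((b₀ : G) * (b : G)⁻¹) (B.mul_mem b₀.2 (B.inv_mem b.2))
      set g : G := (b₀ : G) * (b : G)⁻¹ with hg
      have h2 := congrArg (e g) hcs
      rw [map_mul, h1] at h2
      change c * e g (m s) = e g (m r) at h2
      rw [he, he] at h2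
      have h3 : m (act hact g r * s) = m (r * act hact g s) := by
        have h4 : c * m s = m r := hcs
        calc m (act hact g r * s) = m (act hact g r) * m s := map_mul m _ _
          _ = m r * m (act hact g s) := by rw [← h2, ← h4]; ring
          _ = m (r * act hact g s) := (map_mul m _ _).symm
      have h4 := congrFun (congrArg Subtype.val (hm h3)) ((b₀ : G) • x₀)
      change (r : X → ℂ) (g⁻¹ • (b₀ : G) • x₀) * (s : X → ℂ) ((b₀ : G) • x₀) =
        (r : X → ℂ) ((b₀ : G) • x₀) * (s : X → ℂ) (g⁻¹ • (b₀ : G) • x₀) at h4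
      have h5 : g⁻¹ • (b₀ : G) • x₀ = (b : G) • x₀ := by
        rw [smul_smul, hg]; congr 1; group
      rw [h5] at h4
      simp only [c']
      field_simp
      linear_combination h4
    · rw [_root_.sub_mul]
      change c * m s - algebraMap ℂ K c' * m s = m (r - c' • s)
      have h4 : c * m s = m r := hcs
      rw [map_sub, h4, Algebra.smul_def, map_mul]
      congr 2)
  intro z z' hz hz'
  obtain ⟨P, hP0, hP⟩ := dep_of_trdeg htr ⟨z, hFI z hz⟩ ⟨z', hFI z' hz'⟩
  refine ⟨P, hP0, ?_⟩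
  have h1 := congrArg (algebraMap L K) hP
  rw [map_zero, Polynomial.hom_eval₂] at h1
  refine Eq.trans ?_ h1
  have h2 : (algebraMap L K).comp (aeval (⟨z', hFI z' hz'⟩ : L) : ℂ[X] →ₐ[ℂ] L).toRingHom =
      (aeval z' : ℂ[X] →ₐ[ℂ] K).toRingHom := by
    apply Polynomial.ringHom_ext
    · intro c
      change algebraMap L K (aeval (⟨z', hFI z' hz'⟩ : L) (C c)) = aeval z' (C c)
      rw [aeval_C, aeval_C]
      exact (IsScalarTower.algebraMap_apply ℂ L K c).symm
    · change algebraMap L K (aeval (⟨z', hFI z' hz'⟩ : L) Polynomial.X) = aeval z' Polynomial.X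
      rw [aeval_X, aeval_X]; rfl
  rw [h2]; rfl

end TrB

end Run7.h388
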