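import Mathlib

namespace Run7.h388

open Module
open scoped commutatorElement

section LK

variable {B : Type*} [Group B] {OB : Subalgebra ℂ (B → ℂ)}
variable {V : Type*} [AddCommGroup V] [Module ℂ V] [FiniteDimensional ℂ V]

/-- An operator valued function all of whose matrix coefficients lie in `OB`. -/
def RegEnd (OB : Subalgebra ℂ (B → ℂ)) (T : B → Module.End ℂ V) : Prop :=
  ∀ (v : V) (φ : Dual ℂ V), (fun b => φ (T b v)) ∈ OB

theorem RegEnd.mul {S T : B → Module.End ℂ V} (hS : RegEnd OB S) (hT : RegEnd OB T) :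
    RegEnd OB (fun b => S b * T b) := by
  intro v φ
  have e : (fun b => φ ((S b * T b) v)) = ∑ i, (fun b => (finBasis ℂ V).coord i (T b v)) *
      (fun b => φ (S b (finBasis ℂ V i))) := by
    funext b
    have h1 : T b v = ∑ i, (finBasis ℂ V).coord i (T b v) • finBasis ℂ V i := by
      conv_lhs => rw [← (finBasis ℂ V).sum_repr (T b v)]
      rfl
    rw [Module.End.mul_apply]
    conv_lhs => rw [h1]
    simp only [map_sum, map_smul, smul_eq_mul, Finset.sum_apply, Pi.mul_apply]
  rw [e]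
  exact OB.sum_mem fun i _ => OB.mul_mem (hT _ _) (hS _ _)

omit [FiniteDimensional ℂ V] in
theorem RegEnd.const (T : Module.End ℂ V) : RegEnd OB (fun _ => T) := by
  intro v φ
  exact OB.algebraMap_mem (φ (T v))

omit [FiniteDimensional ℂ V] in
theorem exists_dual_one {v : V} (hv : v ≠ 0) : ∃ φ : Dual ℂ V, φ v = 1 := by
  have h1 : ¬ ∀ φ : Dual ℂ V, φ v = 0 := fun h => hv ((Module.forall_dual_apply_eq_zero_iff ℂ v).1 h)
  push Not at h1
  obtain ⟨φ, hφ⟩ := h1
  exact ⟨(φ v)⁻¹ • φ, by simp [hφ]⟩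

/-- Existence of a common eigenvector of a commuting family of operators. -/
theorem exists_common_eigen (N : Set (Module.End ℂ V)) (hN : ∀ x ∈ N, ∀ y ∈ N, x * y = y * x) :
    ∀ (d : ℕ) (U : Submodule ℂ V), finrank ℂ U = d → U ≠ ⊥ → (∀ x ∈ N, ∀ u ∈ U, x u ∈ U) →
    ∃ v ∈ U, v ≠ 0 ∧ ∀ x ∈ N, ∃ c : ℂ, x v = c • v := by
  intro d
  induction d using Nat.strong_induction_on with
  | _ d ih =>
    intro U hd hU hst
    by_cases hsc : ∀ x ∈ N, ∃ c : ℂ, ∀ u ∈ U, x u = c • u
    · obtain ⟨v, hvU, hv0⟩ := Submodule.exists_mem_ne_zero_of_ne_bot hU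
      exact ⟨v, hvU, hv0, fun x hx => (hsc x hx).imp fun c hc => hc v hvU⟩
    · push Not at hsc
      obtain ⟨x, hx, hxc⟩ := hsc
      have : Nontrivial U := (Submodule.nontrivial_iff_ne_bot).2 hU
      obtain ⟨c, hc⟩ := Module.End.exists_eigenvalue (x.restrict (hst x hx))
      obtain ⟨w, hw⟩ := hc.exists_hasEigenvector
      let U' : Submodule ℂ V := U ⊓ LinearMap.ker (x - c • (1 : Module.End ℂ V))
      have hwmem : (w : V) ∈ U' := by
        refine ⟨w.2, ?_⟩
        change _ ∈ LinearMap.ker _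
        rw [LinearMap.mem_ker]
        have := congrArg (Subtype.val) hw.apply_eq_smul
        simp only [LinearMap.restrict_apply, Submodule.coe_smul] at this
        simp [this]
      have hU' : U' ≠ ⊥ := by
        intro h
        rw [h, Submodule.mem_bot] at hwmem
        exact hw.2 (Subtype.ext hwmem)
      have hlt : finrank ℂ U' < d := by
        rw [← hd]
        apply Submodule.finrank_lt_finrank_of_lt
        refine lt_of_le_of_ne inf_le_left ?_
        intro h
        obtain ⟨u, hu, huc⟩ := hxc c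
        have : u ∈ U' := by rw [h]; exact hu
        have h2 : u ∈ LinearMap.ker (x - c • (1 : Module.End ℂ V)) := this.2
        rw [LinearMap.mem_ker] at h2
        simp only [LinearMap.sub_apply, LinearMap.smul_apply, Module.End.one_apply, sub_eq_zero] at h2
        exact huc h2
      obtain ⟨v, hv, hv0, hve⟩ := ih _ hlt U' rfl hU' (by
        intro y hy u hu
        refine ⟨hst y hy u hu.1, ?_⟩
        have h2 : u ∈ LinearMap.ker (x - c • (1 : Module.End ℂ V)) := hu.2
        change _ ∈ LinearMap.ker _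
        rw [LinearMap.mem_ker] at h2 ⊢
        simp only [LinearMap.sub_apply, LinearMap.smul_apply, Module.End.one_apply, sub_eq_zero] at h2 ⊢
        have h3 : x (y u) = y (x u) := by
          rw [← Module.End.mul_apply, hN x hx y hy, Module.End.mul_apply]
        rw [h3, h2, map_smul])
      exact ⟨v, hv.1, hv0, hve⟩

variable (hinv : ∀ f ∈ OB, (fun b => f b⁻¹) ∈ OB)
  (hconn : ∀ f ∈ OB, (Set.range f).Finite → ∀ x y, f x = f y)
  (ρ : Representation ℂ B V) (hrat : RegEnd OB (fun b => ρ b))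
  (hsimple : ∀ U : Submodule ℂ V, (∀ b, ∀ u ∈ U, ρ b u ∈ U) → U = ⊥ ∨ U = ⊤)

include hinv in
omit [FiniteDimensional ℂ V] in
theorem RegEnd.inv {T : B → Module.End ℂ V} (hT : RegEnd OB T) : RegEnd OB (fun b => T b⁻¹) := by
  intro v φ
  exact hinv _ (hT v φ)

include hinv hconn hrat hsimple in
/-- A normal subgroup acting by commuting operators acts by scalars. -/
theorem scalar_of_comm [Nontrivial V] (N : Subgroup B) (hnorm : N.Normal)
    (hcomm : ∀ x ∈ N, ∀ y ∈ N, ρ x * ρ y = ρ y * ρ x) : ∀ n ∈ N, ∃ c : ℂ, ρ n = c • 1 := by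
  obtain ⟨v, -, hv0, hv⟩ := exists_common_eigen (V := V) {x | ∃ n ∈ N, ρ n = x}
    (by rintro x ⟨n, hn, rfl⟩ y ⟨m, hm, rfl⟩; exact hcomm n hn m hm) _ ⊤ rfl
    (by exact top_ne_bot) (by intros; trivial)
  obtain ⟨φ, hφ⟩ : ∃ φ : Dual ℂ V, φ v = 1 := by
    exact exists_dual_one hv0
  intro n hn
  -- the eigenvalue function
  let f : B → ℂ := fun b => φ (ρ (b⁻¹ * n * b) v)
  have hfe : ∀ b, ρ (b⁻¹ * n * b) v = f b • v := by
    intro b
    have hmem : b⁻¹ * n * b ∈ N := by
      have := hnorm.conj_mem n hn b⁻¹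
      simpa using this
    obtain ⟨c, hc⟩ := hv _ ⟨_, hmem, rfl⟩
    change _ = φ (ρ (b⁻¹ * n * b) v) • v
    rw [hc, map_smul, hφ, smul_eq_mul, mul_one]
  have hfO : f ∈ OB := by
    have h1 := ((RegEnd.inv hinv hrat).mul ((RegEnd.const (ρ n)).mul hrat)) v φ
    convert h1 using 2 with b
    simp only [f, map_mul, mul_assoc]
  have hffin : (Set.range f).Finite := by
    refine (Module.End.finite_hasEigenvalue (ρ n)).subset ?_
    rintro _ ⟨b, rfl⟩
    apply Module.End.hasEigenvalue_of_hasEigenvector (x := ρ b v)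
    refine Module.End.hasEigenvector_iff.2 ⟨?_, ?_⟩
    · rw [Module.End.mem_eigenspace_iff]
      have h1 : ρ n (ρ b v) = ρ b (ρ (b⁻¹ * n * b) v) := by
        rw [← Module.End.mul_apply, ← map_mul, ← Module.End.mul_apply, ← map_mul]
        congr 2; group
      rw [h1, hfe, map_smul]
    · intro h
      apply hv0
      have h1 : ρ b⁻¹ (ρ b v) = v := by
        rw [← Module.End.mul_apply, ← map_mul]; simp
      rw [← h1, h, map_zero]
  have hconst := hconn f hfO hffin
  refine ⟨f 1, ?_⟩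
  let U : Submodule ℂ V := Submodule.span ℂ (Set.range fun b => ρ b v)
  have hU : U = ⊤ := by
    rcases hsimple U (by
      intro b u hu
      induction hu using Submodule.span_induction with
      | mem x hx =>
        obtain ⟨b', rfl⟩ := hx
        exact Submodule.subset_span ⟨b * b', by simp [map_mul]⟩
      | zero => simp
      | add x y _ _ hx hy => rw [map_add]; exact U.add_mem hx hy
      | smul c x _ hx => rw [map_smul]; exact U.smul_mem c hx) with h | h
    · exfalso
      have : v ∈ U := Submodule.subset_span ⟨1, by simp⟩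
      rw [h, Submodule.mem_bot] at this
      exact hv0 this
    · exact h
  ext u
  have hu : u ∈ U := by rw [hU]; trivial
  induction hu using Submodule.span_induction with
  | mem x hx =>
    obtain ⟨b, rfl⟩ := hx
    have h1 : ρ n (ρ b v) = ρ b (ρ (b⁻¹ * n * b) v) := by
      rw [← Module.End.mul_apply, ← map_mul, ← Module.End.mul_apply, ← map_mul]
      congr 2; group
    rw [h1, hfe, map_smul, hconst b 1]
    simp
  | zero => simp
  | add x y _ _ hx hy => rw [map_add, hx, hy, map_add]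
  | smul c x _ hx => rw [map_smul, hx, map_smul]

include hinv hconn hrat hsimple in
/-- **Lie-Kolchin**: a connected solvable group acts on a simple rational module by scalars. -/
theorem lie_kolchin [Nontrivial V] [Group.IsSolvable B] : ∀ b, ∃ c : ℂ, ρ b = c • 1 := by
  classical
  obtain ⟨n0, hn0⟩ := Group.IsSolvable.solvable (G := B)
  have hex : ∃ n, ∀ x ∈ derivedSeries B n, ∃ c : ℂ, ρ x = c • 1 := by
    refine ⟨n0, ?_⟩
    intro x hx
    rw [hn0, Subgroup.mem_bot] at hx
    exact ⟨1, by rw [hx]; simp⟩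
  have hmin := Nat.find_spec hex
  rcases hk : Nat.find hex with _ | k
  · rw [hk] at hmin
    intro b
    exact hmin b (by simp)
  exfalso
  rw [hk] at hmin
  have hnot : ¬ ∀ x ∈ derivedSeries B k, ∃ c : ℂ, ρ x = c • 1 :=
    Nat.find_min hex (by omega)
  let M := derivedSeries B k
  have hMn : M.Normal := inferInstance
  have hcom : ∀ x ∈ M, ∀ y ∈ M, ∃ c : ℂ, ρ ⁅x, y⁆ = c • 1 := by
    intro x hx y hy
    apply hmin
    rw [derivedSeries_succ]
    exact Subgroup.commutator_mem_commutator hx hy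
  have hd0 : finrank ℂ V ≠ 0 := (Module.finrank_pos).ne'
  -- scalars coming from commutators are roots of unity
  have hroot : ∀ x y : B, ∀ c : ℂ, ρ ⁅x, y⁆ = c • 1 → c ^ finrank ℂ V = 1 := by
    intro x y c hc
    have h1 : LinearMap.det (ρ ⁅x, y⁆) = 1 := by
      have : LinearMap.det (ρ ⁅x, y⁆) = ((LinearMap.det (M := V)).comp ρ) ⁅x, y⁆ := rfl
      rw [this]
      let F : B →* ℂ := (LinearMap.det (M := V)).comp ρ
      change F ⁅x, y⁆ = 1
      rw [commutatorElement_def, map_mul, map_mul, map_mul]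
      have hx : F x * F x⁻¹ = 1 := by rw [← map_mul]; simp
      have hy : F y * F y⁻¹ = 1 := by rw [← map_mul]; simp
      calc F x * F y * F x⁻¹ * F y⁻¹ = (F x * F x⁻¹) * (F y * F y⁻¹) := by ring
        _ = 1 := by rw [hx, hy, one_mul]
    rw [hc, LinearMap.det_smul] at h1
    simpa using h1
  have hfinroots : {c : ℂ | c ^ finrank ℂ V = 1}.Finite := by
    have := (Polynomial.X ^ finrank ℂ V - 1 : Polynomial ℂ).rootSet_finite ℂ
    refine this.subset ?_
    intro c hc
    rw [Polynomial.mem_rootSet]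
    refine ⟨Polynomial.X_pow_sub_C_ne_zero (Nat.pos_of_ne_zero hd0) 1, ?_⟩
    have : c ^ finrank ℂ V = 1 := hc
    simp [this]
  obtain ⟨v, hv0⟩ := exists_ne (0 : V)
  obtain ⟨φ, hφ⟩ := exists_dual_one hv0
  have hinvr := RegEnd.inv hinv hrat
  -- the first constancy statement
  have step1 : ∀ x ∈ M, ∀ y ∈ M, ∀ b : B, ρ ⁅b * x * b⁻¹, y⁆ = ρ ⁅x, y⁆ := by
    intro x hx y hy b
    have hsc : ∀ b : B, ∃ c : ℂ, ρ ⁅b * x * b⁻¹, y⁆ = c • 1 := fun b =>
      hcom _ (hMn.conj_mem x hx b) y hy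
    let f : B → ℂ := fun b => φ (ρ ⁅b * x * b⁻¹, y⁆ v)
    have hf : ∀ b, ρ ⁅b * x * b⁻¹, y⁆ = f b • 1 := by
      intro b
      obtain ⟨c, hc⟩ := hsc b
      have : f b = c := by simp [f, hc, hφ]
      rw [this, hc]
    have hreg : f ∈ OB := by
      have hx1 : RegEnd OB (fun b => ρ (b * x * b⁻¹)) := by
        have := (hrat.mul (RegEnd.const (ρ x))).mul hinvr
        convert this using 2 with b
        simp only [map_mul]
      have hx2 : RegEnd OB (fun b => ρ (b * x * b⁻¹)⁻¹) := by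
        have := (hrat.mul (RegEnd.const (ρ x⁻¹))).mul hinvr
        convert this using 2 with b
        rw [← map_mul, ← map_mul]
        congr 1; group
      have := (((hx1.mul (RegEnd.const (ρ y))).mul hx2).mul (RegEnd.const (ρ y⁻¹))) v φ
      convert this using 2 with b
      simp only [f, commutatorElement_def, map_mul]
    have hfin : (Set.range f).Finite := by
      refine hfinroots.subset ?_
      rintro _ ⟨b, rfl⟩
      exact hroot _ _ _ (hf b)
    have := hconn f hreg hfin b 1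
    rw [hf b, this, ← hf 1]
    simp
  -- commutators of `B` and `M` act by operators commuting with `M`
  have step2 : ∀ x ∈ M, ∀ b : B, ∀ y ∈ M, ρ ⁅b, x⁆ * ρ y = ρ y * ρ ⁅b, x⁆ := by
    intro x hx b y hy
    have h1 := step1 x hx y hy b
    obtain ⟨c, hc⟩ := hcom x hx y hy
    rw [hc] at h1
    have hc0 : c ≠ 0 := by
      intro h
      have := hroot x y c hc
      rw [h, zero_pow hd0] at this
      exact zero_ne_one this
    -- ρ x ρ y = c ρ y ρ x
    have e1 : ρ x * ρ y = c • (ρ y * ρ x) := by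
      have : ρ x * ρ y = ρ ⁅x, y⁆ * (ρ y * ρ x) := by
        rw [← map_mul, ← map_mul, ← map_mul]; congr 1; rw [commutatorElement_def]; group
      rw [this, hc, smul_mul_assoc, one_mul]
    have e2 : ρ (b * x * b⁻¹) * ρ y = c • (ρ y * ρ (b * x * b⁻¹)) := by
      have : ρ (b * x * b⁻¹) * ρ y = ρ ⁅b * x * b⁻¹, y⁆ * (ρ y * ρ (b * x * b⁻¹)) := by
        rw [← map_mul, ← map_mul, ← map_mul]; congr 1; rw [commutatorElement_def]; group
      rw [this, h1, smul_mul_assoc, one_mul]
    have e3 : ρ x⁻¹ * ρ y = c⁻¹ • (ρ y * ρ x⁻¹) := by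
      have h3 : ρ x⁻¹ * (ρ x * ρ y) * ρ x⁻¹ = ρ y * ρ x⁻¹ := by
        rw [← map_mul, ← map_mul, ← map_mul, ← map_mul]; congr 1; group
      have h4 : ρ x⁻¹ * (c • (ρ y * ρ x)) * ρ x⁻¹ = c • (ρ x⁻¹ * ρ y) := by
        rw [mul_smul_comm, smul_mul_assoc]
        congr 1
        rw [← map_mul, ← map_mul, ← map_mul, ← map_mul]; congr 1; group
      rw [e1, h4] at h3
      rw [← h3, smul_smul, inv_mul_cancel₀ hc0, one_smul]
    have e4 : ρ ⁅b, x⁆ = ρ (b * x * b⁻¹) * ρ x⁻¹ := by
      rw [← map_mul, commutatorElement_def]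
    rw [e4, mul_assoc, e3, mul_smul_comm, ← mul_assoc, e2, smul_mul_assoc, smul_smul,
      inv_mul_cancel₀ hc0, one_smul, mul_assoc]
  -- the subgroup of elements of `M` commuting with `M`
  let N : Subgroup B :=
    { carrier := {z | z ∈ M ∧ ∀ y ∈ M, ρ z * ρ y = ρ y * ρ z}
      one_mem' := ⟨M.one_mem, by intro y _; simp⟩
      mul_mem' := by
        rintro a b ⟨ha, ha'⟩ ⟨hb, hb'⟩
        refine ⟨M.mul_mem ha hb, fun y hy => ?_⟩
        rw [map_mul, mul_assoc, hb' y hy, ← mul_assoc, ha' y hy, mul_assoc]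
      inv_mem' := by
        rintro a ⟨ha, ha'⟩
        refine ⟨M.inv_mem ha, fun y hy => ?_⟩
        have h := ha' y hy
        have h1 : ρ a⁻¹ * (ρ a * ρ y) * ρ a⁻¹ = ρ y * ρ a⁻¹ := by
          rw [← map_mul, ← map_mul, ← map_mul, ← map_mul]; congr 1; group
        have h2 : ρ a⁻¹ * (ρ y * ρ a) * ρ a⁻¹ = ρ a⁻¹ * ρ y := by
          rw [← map_mul, ← map_mul, ← map_mul, ← map_mul]; congr 1; group
        rw [← h1, h, h2] }
  have hNn : N.Normal := by
    constructor
    rintro z ⟨hz, hz'⟩ g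
    refine ⟨hMn.conj_mem z hz g, fun y hy => ?_⟩
    have h1 := hz' (g⁻¹ * y * g) (by simpa using hMn.conj_mem y hy g⁻¹)
    have h2 : ρ g * (ρ z * ρ (g⁻¹ * y * g)) * ρ g⁻¹ = ρ (g * z * g⁻¹) * ρ y := by
      rw [← map_mul, ← map_mul, ← map_mul, ← map_mul]; congr 1; group
    have h3 : ρ g * (ρ (g⁻¹ * y * g) * ρ z) * ρ g⁻¹ = ρ y * ρ (g * z * g⁻¹) := by
      rw [← map_mul, ← map_mul, ← map_mul, ← map_mul]; congr 1; group
    rw [← h2, h1, h3]
  have hNs := scalar_of_comm hinv hconn ρ hrat hsimple N hNn (by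
    rintro x ⟨hx, hx'⟩ y ⟨hy, -⟩
    exact hx' y hy)
  have step3 : ∀ x ∈ M, ∀ b : B, ∃ c : ℂ, ρ ⁅b, x⁆ = c • 1 := by
    intro x hx b
    apply hNs
    refine ⟨?_, fun y hy => step2 x hx b y hy⟩
    rw [commutatorElement_def]
    exact M.mul_mem (hMn.conj_mem x hx b) (M.inv_mem hx)
  have step4 : ∀ x ∈ M, ∀ b : B, ρ ⁅b, x⁆ = 1 := by
    intro x hx b
    let f : B → ℂ := fun b => φ (ρ ⁅b, x⁆ v)
    have hf : ∀ b, ρ ⁅b, x⁆ = f b • 1 := by
      intro b
      obtain ⟨c, hc⟩ := step3 x hx b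
      have : f b = c := by simp [f, hc, hφ]
      rw [this, hc]
    have hreg : f ∈ OB := by
      have := (((hrat.mul (RegEnd.const (ρ x))).mul hinvr).mul (RegEnd.const (ρ x⁻¹))) v φ
      convert this using 2 with b
      simp only [f, commutatorElement_def, map_mul]
    have hfin : (Set.range f).Finite := by
      refine hfinroots.subset ?_
      rintro _ ⟨b, rfl⟩
      exact hroot _ _ _ (hf b)
    have := hconn f hreg hfin b 1
    rw [hf b, this, ← hf 1]
    simp
  apply hnot
  intro x hx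
  -- `ρ x` commutes with everything
  have hcx : ∀ b, ρ b * ρ x = ρ x * ρ b := by
    intro b
    have h1 : ρ b * ρ x = ρ ⁅b, x⁆ * (ρ x * ρ b) := by
      rw [← map_mul, ← map_mul, ← map_mul]; congr 1; rw [commutatorElement_def]; group
    rw [h1, step4 x hx b, one_mul]
  obtain ⟨c, hc⟩ := Module.End.exists_eigenvalue (ρ x)
  refine ⟨c, ?_⟩
  have h1 := hsimple (Module.End.eigenspace (ρ x) c) (by
    intro b u hu
    rw [Module.End.mem_eigenspace_iff] at hu ⊢
    rw [← Module.End.mul_apply, ← hcx, Module.End.mul_apply, hu, map_smul])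
  rcases h1 with h1 | h1
  · exact absurd h1 hc
  · ext u
    have : u ∈ Module.End.eigenspace (ρ x) c := by rw [h1]; trivial
    rw [Module.End.mem_eigenspace_iff] at this
    rw [this]; simp

end LK

end Run7.h388
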