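import Pool.Agent.Helper334_SA.Comp

/-!
# Zero sets of families of polynomial maps are semialgebraic
-/

set_option autoImplicit false

namespace Run7.h388

open Pool.Agent.Helper334_SA MvPolynomial

variable {ι : Type} {R : Type} [CommRing R] [Algebra ℂ R]

/-- polynomial maps from `ℝ ^ ι` to the complex algebra `R` -/
def PM (F : (ι → ℝ) → R) : Prop :=
  ∃ (κ : Type) (_ : Fintype κ) (q : κ → MvPolynomial ι ℝ) (r : κ → R),
    ∀ v, F v = ∑ k, ((aeval v (q k) : ℝ) : ℂ) • r k

lemma PM.const (r : R) : PM (fun _ : ι → ℝ => r) :=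
  ⟨Unit, inferInstance, fun _ => 1, fun _ => r, fun v => by simp⟩

lemma PM.coord (i : ι) (r : R) : PM (fun v : ι → ℝ => ((v i : ℝ) : ℂ) • r) :=
  ⟨Unit, inferInstance, fun _ => X i, fun _ => r, fun v => by simp⟩

lemma PM.add {F F' : (ι → ℝ) → R} (h : PM F) (h' : PM F') : PM (fun v => F v + F' v) := by
  obtain ⟨κ, _, q, r, hF⟩ := h
  obtain ⟨κ', _, q', r', hF'⟩ := h'
  exact ⟨κ ⊕ κ', inferInstance, Sum.elim q q', Sum.elim r r', fun v => by
    simp only [hF, hF', Fintype.sum_sum_type, Sum.elim_inl, Sum.elim_inr]⟩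

lemma PM.mul {F F' : (ι → ℝ) → R} (h : PM F) (h' : PM F') : PM (fun v => F v * F' v) := by
  obtain ⟨κ, _, q, r, hF⟩ := h
  obtain ⟨κ', _, q', r', hF'⟩ := h'
  refine ⟨κ × κ', inferInstance, fun k => q k.1 * q' k.2, fun k => r k.1 * r' k.2, fun v => ?_⟩
  simp only [hF, hF']
  rw [Finset.sum_mul_sum, Fintype.sum_prod_type]
  refine Finset.sum_congr rfl fun i _ => Finset.sum_congr rfl fun j _ => ?_
  rw [map_mul, Complex.ofReal_mul, smul_mul_smul_comm]

lemma PM.neg {F : (ι → ℝ) → R} (h : PM F) : PM (fun v => - F v) := by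
  have := (PM.const (ι := ι) (-1 : R)).mul h
  simpa using this

lemma PM.sub {F F' : (ι → ℝ) → R} (h : PM F) (h' : PM F') : PM (fun v => F v - F' v) := by
  have := h.add h'.neg
  simpa [sub_eq_add_neg] using this

lemma PM.smul {F : (ι → ℝ) → R} (c : ℂ) (h : PM F) : PM (fun v => c • F v) := by
  have := (PM.const (ι := ι) (algebraMap ℂ R c)).mul h
  simpa [Algebra.smul_def] using this

lemma PM.sum {α : Type*} (s : Finset α) {F : α → (ι → ℝ) → R} (h : ∀ a ∈ s, PM (F a)) :
    PM (fun v => ∑ a ∈ s, F a v) := by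
  classical
  induction s using Finset.induction_on with
  | empty => simpa using PM.const (ι := ι) (0 : R)
  | insert a s ha ih =>
    have : (fun v => ∑ b ∈ insert a s, F b v) = fun v => F a v + ∑ b ∈ s, F b v := by
      funext v; rw [Finset.sum_insert ha]
    rw [this]
    exact (h a (by simp)).add (ih fun b hb => h b (by simp [hb]))

lemma PM.aeval {σ : Type} {x : σ → (ι → ℝ) → R} (hx : ∀ i, PM (x i)) (p : MvPolynomial σ ℂ) :
    PM (fun v => MvPolynomial.aeval (fun i => x i v) p) := by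
  induction p using MvPolynomial.induction_on with
  | C a => simpa using PM.const (ι := ι) (algebraMap ℂ R a)
  | add p q hp hq => simpa using hp.add hq
  | mul_X p i hp => simpa using hp.mul (hx i)

/-- **The zero set of any family of polynomial maps is semialgebraic.** -/
theorem sa_zeros {α : Type*} [Finite ι] {F : α → (ι → ℝ) → R} (h : ∀ a, PM (F a)) :
    SA {v : ι → ℝ | ∀ a, F a v = 0} := by
  classical
  choose κ hκ q r hF using h
  set Q : Set (MvPolynomial ι ℝ) := {p | ∃ (a : α) (ψ : R →ₗ[ℝ] ℝ), p = ∑ k, C (ψ (r a k)) * q a k}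
    with hQ
  -- membership through the polynomials
  have key : ∀ v : ι → ℝ, (∀ a, F a v = 0) ↔ ∀ p ∈ Q, MvPolynomial.aeval v p = 0 := by
    intro v
    have hψ : ∀ (a : α) (ψ : R →ₗ[ℝ] ℝ),
        ψ (F a v) = MvPolynomial.aeval v (∑ k, C (ψ (r a k)) * q a k) := by
      intro a ψ
      rw [hF a v, map_sum, map_sum]
      refine Finset.sum_congr rfl fun k _ => ?_
      have : ((MvPolynomial.aeval v (q a k) : ℝ) : ℂ) • r a k =
          (MvPolynomial.aeval v (q a k) : ℝ) • r a k := by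
        rw [← algebraMap_smul ℂ (MvPolynomial.aeval v (q a k) : ℝ) (r a k)]
        rfl
      rw [this, map_smul, map_mul, algHom_C]
      simp [mul_comm]
    constructor
    · rintro h0 p ⟨a, ψ, rfl⟩
      rw [← hψ, h0 a, map_zero]
    · intro h0 a
      rw [← Module.forall_dual_apply_eq_zero_iff ℝ (F a v)]
      intro ψ
      rw [hψ]
      exact h0 _ ⟨a, ψ, rfl⟩
  obtain ⟨T, hT, hTspan⟩ : ∃ T : Finset (MvPolynomial ι ℝ), (T : Set (MvPolynomial ι ℝ)) ⊆ Q ∧
      Ideal.span (T : Set (MvPolynomial ι ℝ)) = Ideal.span Q := by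
    obtain ⟨T, hT, h⟩ := (Submodule.fg_span_iff_fg_span_finset_subset Q).1
      (IsNoetherian.noetherian (Ideal.span Q))
    exact ⟨T, hT, h.symm⟩
  refine SAP.congr (SAP.forall_mem T (p := fun p v => MvPolynomial.aeval v p = 0)
    fun p _ => SAP.eq_zero (PF.aeval p)) fun v => ?_
  rw [key v]
  constructor
  · intro h p hp
    exact h p (hT hp)
  · intro h p hp
    have h1 : p ∈ Ideal.span (T : Set (MvPolynomial ι ℝ)) := by
      rw [hTspan]; exact Ideal.subset_span hp
    have h2 : Ideal.span (T : Set (MvPolynomial ι ℝ)) ≤ RingHom.ker (MvPolynomial.aeval v : MvPolynomial ι ℝ →ₐ[ℝ] ℝ) := by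
      rw [Ideal.span_le]
      intro p hp
      exact h p hp
    exact h2 h1

end Run7.h388
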