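import Pool.Agent.Run7.h388.Var
import Pool.Agent.Run7.h388.Inv
import Pool.Agent.Run7.h388.LK
import Pool.Agent.Run7.h388.Core

namespace Run7.h388

open Module

section Gen

variable {G : Type} [Group G] {OG : Subalgebra ℂ (G → ℂ)}

/-- Complements in finite-dimensional stable subspaces of a rational representation. -/
theorem red_compl (hred : IsReductive OG) {V : Type} [AddCommGroup V] [Module ℂ V]
    (ρ : Representation ℂ G V) (hrat : ∀ (v : V) (φ : Dual ℂ V), (fun g => φ (ρ g v)) ∈ OG)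
    (W : Submodule ℂ V) [FiniteDimensional ℂ W] (hW : Stable ρ ⊤ W) (U : Submodule ℂ V)
    (hUW : U ≤ W) (hU : Stable ρ ⊤ U) :
    ∃ U' ≤ W, Stable ρ ⊤ U' ∧ U ⊓ U' = ⊥ ∧ U ⊔ U' = W := by
  let ρW : Representation ℂ G W :=
    { toFun := fun g => (ρ g).restrict (hW g trivial)
      map_one' := by ext x; simp
      map_mul' := by intro g g'; ext x; simp }
  have hρW : ∀ g (w : W), (ρW g w : V) = ρ g w := fun g w => rfl
  obtain ⟨U', hU', hc⟩ := hred W ρW (by
    intro w φ
    obtain ⟨ψ, hψ⟩ := LinearMap.exists_extend φ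
    have h1 := hrat w ψ
    convert h1 using 2 with g
    rw [← hψ]; rfl) (U.comap W.subtype) (by
    intro g u hu
    exact hU g trivial _ hu)
  refine ⟨U'.map W.subtype, ?_, ?_, ?_, ?_⟩
  · rintro _ ⟨u, -, rfl⟩; exact u.2
  · rintro g _ _ ⟨u, hu, rfl⟩
    exact ⟨ρW g u, hU' g u hu, rfl⟩
  · rw [Submodule.eq_bot_iff]
    rintro x ⟨hxU, ⟨u, hu, rfl⟩⟩
    have : u ∈ U.comap W.subtype ⊓ U' := ⟨hxU, hu⟩
    rw [hc.inf_eq_bot, Submodule.mem_bot] at this
    rw [this]; rfl
  · apply le_antisymm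
    · refine sup_le hUW ?_
      rintro _ ⟨u, -, rfl⟩; exact u.2
    · intro x hx
      have : (⟨x, hx⟩ : W) ∈ U.comap W.subtype ⊔ U' := by rw [hc.sup_eq_top]; trivial
      obtain ⟨a, ha, b, hb, hab⟩ := Submodule.mem_sup.1 this
      have h2 : x = (a : V) + (b : V) := (congrArg Subtype.val hab).symm
      rw [h2]
      exact Submodule.add_mem _ (Submodule.mem_sup_left ha) (Submodule.mem_sup_right ⟨b, hb, rfl⟩)

theorem zclosed_zero {X : Type} {O : Subalgebra ℂ (X → ℂ)} {F : X → ℂ} (hF : F ∈ O) :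
    ZClosed O {x | F x = 0} :=
  fun x hx => ⟨F, hF, fun _ hz => hz, hx⟩

theorem const_of_connected {X : Type} {O : Subalgebra ℂ (X → ℂ)} {S : Set X}
    (hS : ZConnected O S) (f : S → ℂ) (hf : f ∈ restr O S) (hfin : (Set.range f).Finite)
    (x y : S) : f x = f y := by
  classical
  obtain ⟨F, hF, hFf⟩ := mem_restr.1 hf
  let T : Finset ℂ := hfin.toFinset.erase (f x)
  have h1 : ZClosed O {z | F z - f x = 0} := by
    have : (fun z => F z - f x) ∈ O := O.sub_mem hF (O.algebraMap_mem (f x))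
    exact zclosed_zero this
  have h2 : ZClosed O {z | ∏ t ∈ T, (F z - t) = 0} := by
    have : (fun z => ∏ t ∈ T, (F z - t)) ∈ O := by
      have h3 : (fun z => ∏ t ∈ T, (F z - t)) = ∏ t ∈ T, (F - algebraMap ℂ (X → ℂ) t) := by
        funext z
        rw [Finset.prod_apply]
        rfl
      rw [h3]
      exact O.prod_mem fun t _ => O.sub_mem hF (O.algebraMap_mem t)
    exact zclosed_zero this
  have hx1 : (x : X) ∉ {z | ∏ t ∈ T, (F z - t) = 0} := by
    intro h
    simp only [Set.mem_ofPred_eq] at h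
    rw [Finset.prod_eq_zero_iff] at h
    obtain ⟨t, ht, hxt⟩ := h
    rw [sub_eq_zero, hFf] at hxt
    exact (Finset.mem_erase.1 ht).1 hxt.symm
  rcases hS _ _ h1 h2 (by
    intro z hz
    by_cases h : f ⟨z, hz⟩ = f x
    · left
      have := hFf ⟨z, hz⟩
      simp only at this
      simp [this, h]
    · right
      refine Finset.prod_eq_zero (i := f ⟨z, hz⟩) ?_ ?_
      · exact Finset.mem_erase.2 ⟨h, by simp⟩
      · have := hFf ⟨z, hz⟩
        simp only at this
        rw [this, sub_self]) (by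
    rw [Set.eq_empty_iff_forall_notMem]
    rintro z ⟨⟨hz, hz1⟩, hz2⟩
    simp only [Set.mem_ofPred_eq] at hz1 hz2
    rw [Finset.prod_eq_zero_iff] at hz2
    obtain ⟨t, ht, hzt⟩ := hz2
    apply (Finset.mem_erase.1 ht).1
    rw [← sub_eq_zero.1 hzt, sub_eq_zero.1 hz1]) with h | h
  · have := h y.2
    simp only [Set.mem_ofPred_eq] at this
    rw [← hFf y, ← sub_eq_zero.1 this]
  · exact absurd (h x.2) hx1

/-- Existence of an eigenvector of a connected solvable group. -/
theorem exists_eigen (hinv : ∀ f ∈ OG, (fun g => f g⁻¹) ∈ OG) {V : Type} [AddCommGroup V]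
    [Module ℂ V] (ρ : Representation ℂ G V)
    (hrat : ∀ (v : V) (φ : Dual ℂ V), (fun g => φ (ρ g v)) ∈ OG)
    (B : Subgroup G) (hB : ZConnected OG (B : Set G)) (hsol : Group.IsSolvable B)
    (W : Submodule ℂ V) [FiniteDimensional ℂ W] (hW0 : W ≠ ⊥) (hW : Stable ρ B W) :
    ∃ w ∈ W, w ≠ 0 ∧ ∀ b ∈ B, ∃ c : ℂ, ρ b w = c • w := by
  obtain ⟨S, hSW, hS⟩ := exists_simple (H := B) _ W inferInstance rfl hW0 hW
  have hfdS : FiniteDimensional ℂ S := Submodule.finiteDimensional_of_le hSW
  let ρS : Representation ℂ B S :=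
    { toFun := fun g => (ρ g).restrict (hS.2.1 g g.2)
      map_one' := by ext x; simp
      map_mul' := by intro g g'; ext x; simp }
  have hnt : Nontrivial S := (Submodule.nontrivial_iff_ne_bot).2 hS.1
  have hLK := lie_kolchin (OB := restr OG (B : Set G)) (V := S) (by
    intro f hf
    obtain ⟨F, hF, h⟩ := mem_restr.1 hf
    exact mem_restr.2 ⟨_, hinv F hF, fun z => h z⁻¹⟩)
    (fun f hf hfin x y => const_of_connected hB f hf hfin x y) ρS (by
    intro v φ
    obtain ⟨ψ, hψ⟩ := LinearMap.exists_extend φ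
    refine mem_restr.2 ⟨_, hrat v ψ, fun b => ?_⟩
    rw [← hψ]; rfl) (by
    intro U hU
    rcases hS.2.2 (U.map S.subtype) (by rintro _ ⟨u, -, rfl⟩; exact u.2) (by
      rintro b hb _ ⟨u, hu, rfl⟩
      exact ⟨ρS ⟨b, hb⟩ u, hU ⟨b, hb⟩ u hu, rfl⟩) with h | h
    · left
      rw [Submodule.eq_bot_iff]
      intro u hu
      have : (u : V) ∈ U.map S.subtype := ⟨u, hu, rfl⟩
      rw [h, Submodule.mem_bot] at this
      exact Subtype.ext this
    · right
      rw [eq_top_iff]
      intro u _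
      have : (u : V) ∈ U.map S.subtype := by rw [h]; exact u.2
      obtain ⟨u', hu', h2⟩ := this
      have : u' = u := Subtype.ext h2
      rwa [← this])
  obtain ⟨w, hw⟩ := exists_ne (0 : S)
  refine ⟨w, hSW w.2, fun h => hw (Subtype.ext h), fun b hb => ?_⟩
  obtain ⟨c, hc⟩ := hLK ⟨b, hb⟩
  refine ⟨c, ?_⟩
  have := congrArg (fun T : Module.End ℂ S => ((T w : S) : V)) hc
  have h2 : ((ρS ⟨b, hb⟩ w : S) : V) = c • (w : V) := by simpa using this
  exact h2

end Gen

section Action

variable {G X : Type} [Group G] [MulAction G X] {OG : Subalgebra ℂ (G → ℂ)}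
  {OX : Subalgebra ℂ (X → ℂ)}

/-- The representation on a finite power of the ring. -/
def repJ {R : Type} [CommRing R] [Algebra ℂ R] (γ : G →* (R ≃ₐ[ℂ] R)) (J : Type) :
    Representation ℂ G (J → R) where
  toFun g :=
    { toFun := fun x j => γ g (x j)
      map_add' := by intro x y; ext j; simp
      map_smul' := by intro c x; ext j; simp }
  map_one' := by ext x j; simp
  map_mul' g g' := by ext x j; simp

theorem repJ_rat (hG : IsAlgebraicGroup OG) (hact : IsRegularAction OG OX) (J : Type)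
    [Fintype J] (v : J → OX) (φ : Dual ℂ (J → OX)) :
    (fun g => φ (repJ (act hact) J g v)) ∈ OG := by
  classical
  choose n a b h using fun j => act_sum hG hact (v j)
  have h1 : (fun g => φ (repJ (act hact) J g v)) =
      ∑ j, ∑ i, φ (Pi.single j (b j i)) • (a j i : G → ℂ) := by
    funext g
    have h2 : repJ (act hact) J g v = ∑ j, ∑ i, (a j i : G → ℂ) g • Pi.single j (b j i) := by
      funext j
      change act hact g (v j) = _
      rw [h, Finset.sum_apply, Finset.sum_eq_single j]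
      · rw [Finset.sum_apply]
        apply Finset.sum_congr rfl
        intro i _
        simp
      · intro j' _ hj'
        rw [Finset.sum_apply]
        apply Finset.sum_eq_zero
        intro i _
        simp [Pi.single_eq_of_ne hj'.symm]
      · intro h; exact absurd (Finset.mem_univ _) h
    rw [h2]
    simp only [map_sum, map_smul, Finset.sum_apply, Pi.smul_apply, smul_eq_mul]
    apply Finset.sum_congr rfl
    intro j _
    apply Finset.sum_congr rfl
    intro i _
    ring
  rw [h1]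
  exact OG.sum_mem fun j _ => OG.sum_mem fun i _ => OG.smul_mem (a j i).2 _

/-- Invariants lift. -/
theorem act_inv (hG : IsAlgebraicGroup OG) (hred : IsReductive OG)
    (hact : IsRegularAction OG OX) (H : Subgroup G) [H.Normal] : InvProp (act hact) H := by
  intro J _ N _ _ Φ τ W hfd hst hΦ x₀ hx₀ hy
  have hWst : Stable (repJ (act hact) J) ⊤ W := fun g _ x hx => hst g x hx
  have hG' := fun U hUW hU => red_compl hred (repJ (act hact) J)
    (repJ_rat hG hact J) W hWst U hUW hU
  have hcl := clifford (H := H) W hWst hG'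
  obtain ⟨x, hx, hxΦ, hxI⟩ := inv_lift (H := H) W (fun h _ => hWst h trivial)
    (fun U hUW hU => exists_compl W hcl U hUW hU) Φ τ (fun h hh x hx => hΦ h hh x hx) x₀ hx₀ hy
  exact ⟨x, hx, hxΦ, fun h hh j => congrFun (hxI h hh) j⟩

/-- The representation on the ring. -/
def rep1 {R : Type} [CommRing R] [Algebra ℂ R] (γ : G →* (R ≃ₐ[ℂ] R)) :
    Representation ℂ G R where
  toFun g := (γ g : R →ₐ[ℂ] R).toLinearMap
  map_one' := by ext x; simp
  map_mul' g g' := by ext x; simp

theorem rep1_rat (hG : IsAlgebraicGroup OG) (hact : IsRegularAction OG OX)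
    (v : OX) (φ : Dual ℂ OX) : (fun g => φ (rep1 (act hact) g v)) ∈ OG := by
  obtain ⟨n, a, b, h⟩ := act_sum hG hact v
  have h1 : (fun g => φ (rep1 (act hact) g v)) = ∑ i, φ (b i) • (a i : G → ℂ) := by
    funext g
    change φ (act hact g v) = _
    rw [h]
    simp only [map_sum, map_smul, Finset.sum_apply, Pi.smul_apply, smul_eq_mul]
    apply Finset.sum_congr rfl
    intro i _
    ring
  rw [h1]
  exact OG.sum_mem fun i _ => OG.smul_mem (a i).2 _

theorem act_dec (hG : IsAlgebraicGroup OG) (hred : IsReductive OG)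
    (hact : IsRegularAction OG OX) (H B : Subgroup G) [H.Normal] (hBH : B ≤ H)
    (hB : ZConnected OG (B : Set G)) (hsol : Group.IsSolvable B)
    (W : Submodule ℂ OX) (hfd : FiniteDimensional ℂ W)
    (hW : ∀ g, ∀ x ∈ W, act hact g x ∈ W) :
    ∃ (n : ℕ) (V : Fin n → Submodule ℂ OX), (⨆ i, V i = W) ∧ ∀ i, V i ≤ W ∧
      (∀ h ∈ H, ∀ x ∈ V i, act hact h x ∈ V i) ∧
      (∀ U ≤ V i, (∀ h ∈ H, ∀ x ∈ U, act hact h x ∈ U) → U = ⊥ ∨ U = V i) ∧
      ∃ w ∈ V i, w ≠ 0 ∧ ∀ b ∈ B, ∃ c : ℂ, act hact b w = c • w := by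
  have hWst : Stable (rep1 (act hact)) ⊤ W := fun g _ x hx => hW g x hx
  have hG' := fun U hUW hU => red_compl hred (rep1 (act hact)) (rep1_rat hG hact) W hWst U hUW hU
  have hcl := clifford (H := H) W hWst hG'
  obtain ⟨n, S, hS, hsup⟩ := exists_finite_decomp W hcl
  refine ⟨n, S, hsup, fun i => ⟨(hS i).1, (hS i).2.2.1, (hS i).2.2.2, ?_⟩⟩
  have hfdS : FiniteDimensional ℂ (S i) := Submodule.finiteDimensional_of_le (hS i).1
  exact exists_eigen hG.inv (rep1 (act hact)) (rep1_rat hG hact) B hB hsol (S i) (hS i).2.1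
    (fun b hb => (hS i).2.2.1 b (hBH hb))

end Action

end Run7.h388
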