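import Mathlib

/-!
# Square roots near `1` in complete normed algebras
-/

set_option autoImplicit false

namespace Run7.h388

open Filter Topology

section
variable {E : Type*} [NormedRing E] [NormedAlgebra ℝ E]

/-- square roots near `1` lie in closed subalgebras -/
lemma mem_of_sq_mem (S : Subalgebra ℝ E) (hS : IsClosed (S : Set E)) {b : E}
    (hb : ‖b - 1‖ ≤ 1 / 4) (hbS : b * b ∈ S) : b ∈ S := by
  have key : ∀ n : ℕ, ∃ s ∈ S, ‖(1 - b) - s‖ ≤ (1 / 4) * (1 / 2 : ℝ) ^ n := by
    intro n
    induction n with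
    | zero =>
      refine ⟨0, S.zero_mem, ?_⟩
      rw [sub_zero, norm_sub_rev]
      simpa using hb
    | succ n ih =>
      obtain ⟨s, hs, hsn⟩ := ih
      refine ⟨(1 / 2 : ℝ) • (1 - b * b + s * s), ?_, ?_⟩
      · exact S.smul_mem (S.add_mem (S.sub_mem S.one_mem hbS) (S.mul_mem hs hs)) _
      · set y := 1 - b with hy
        have hyn : ‖y‖ ≤ 1 / 4 := by rw [hy, norm_sub_rev]; exact hb
        have hp : (1 / 2 : ℝ) ^ n ≤ 1 := pow_le_one₀ (by norm_num) (by norm_num)
        have hsn' : ‖y - s‖ ≤ 1 / 4 := hsn.trans (by linarith)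
        have hs' : ‖s‖ ≤ 1 / 2 := by
          have : s = y - (y - s) := by abel
          rw [this]
          refine (norm_sub_le _ _).trans ?_
          linarith
        have h1 : y - (1 / 2 : ℝ) • (1 - b * b + s * s) = (1 / 2 : ℝ) • (y * (y - s) + (y - s) * s) := by
          have hb' : b = 1 - y := by rw [hy]; abel
          have h2 : (1 - b * b + s * s) = (2 : ℝ) • y - (y * (y - s) + (y - s) * s) := by
            rw [hb', two_smul]
            noncomm_ring
          rw [h2, smul_sub, smul_smul]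
          norm_num
        rw [h1, norm_smul]
        have h3 : ‖y * (y - s) + (y - s) * s‖ ≤ ‖y‖ * ‖y - s‖ + ‖y - s‖ * ‖s‖ :=
          (norm_add_le _ _).trans (add_le_add (norm_mul_le _ _) (norm_mul_le _ _))
        have h4 : ‖y‖ * ‖y - s‖ + ‖y - s‖ * ‖s‖ ≤ ‖y - s‖ := by
          have h0 := norm_nonneg (y - s)
          nlinarith
        rw [pow_succ, Real.norm_of_nonneg (by norm_num : (0 : ℝ) ≤ 1 / 2)]
        linarith
  choose s hs hsn using key
  have htend : Tendsto s atTop (𝓝 (1 - b)) := by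
    rw [tendsto_iff_norm_sub_tendsto_zero]
    have h1 : Tendsto (fun n : ℕ => (1 / 4) * (1 / 2 : ℝ) ^ n) atTop (𝓝 0) := by
      have := (tendsto_pow_atTop_nhds_zero_of_lt_one (r := (1 / 2 : ℝ)) (by norm_num)
        (by norm_num)).const_mul (1 / 4 : ℝ)
      simpa using this
    refine squeeze_zero (fun _ => norm_nonneg _) (fun n => ?_) h1
    rw [norm_sub_rev]
    exact hsn n
  have hmem : 1 - b ∈ S := hS.mem_of_tendsto htend (Eventually.of_forall hs)
  have : b = 1 - (1 - b) := by abel
  rw [this]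
  exact S.sub_mem S.one_mem hmem

/-- the centralizer of an element, as a real subalgebra, is closed -/
lemma isClosed_centralizer (c : E) :
    IsClosed ((Subalgebra.centralizer ℝ {c} : Subalgebra ℝ E) : Set E) := by
  have : ((Subalgebra.centralizer ℝ {c} : Subalgebra ℝ E) : Set E) = {b | c * b = b * c} := by
    ext b
    rw [SetLike.mem_coe, Subalgebra.mem_centralizer_iff]
    simp
  rw [this]
  exact isClosed_eq (by fun_prop) (by fun_prop)

/-- square roots near `1` commute with what commutes with the square -/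
lemma commute_of_sq {b c : E} (hb : ‖b - 1‖ ≤ 1 / 4) (h : c * (b * b) = (b * b) * c) :
    c * b = b * c := by
  have h1 : b ∈ (Subalgebra.centralizer ℝ {c} : Subalgebra ℝ E) :=
    mem_of_sq_mem _ (isClosed_centralizer c) hb (by simpa [Subalgebra.mem_centralizer_iff] using h)
  simpa [Subalgebra.mem_centralizer_iff] using h1

/-- uniqueness of square roots near `1` -/
lemma sq_unique {b c : E} (hb : ‖b - 1‖ ≤ 1 / 4) (hc : ‖c - 1‖ ≤ 1 / 4) (h : b * b = c * c) :
    b = c := by
  have hcomm : c * b = b * c := commute_of_sq hb (by rw [h, mul_assoc])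
  have h0 : (b - c) * (b + c) = 0 := by
    have : (b - c) * (b + c) = b * b - c * c + (b * c - c * b) := by noncomm_ring
    rw [this, h, hcomm]; simp
  have h1 : (2 : ℝ) • (b - c) = - ((b - c) * ((b - 1) + (c - 1))) := by
    have : (b - c) * (b + c) = (b - c) * ((b - 1) + (c - 1)) + (2 : ℝ) • (b - c) := by
      rw [two_smul]; noncomm_ring
    rw [this] at h0
    rw [eq_neg_iff_add_eq_zero, add_comm]
    exact h0
  have h2 : 2 * ‖b - c‖ ≤ ‖b - c‖ * (1 / 2) := by
    have h3 : ‖(2 : ℝ) • (b - c)‖ = 2 * ‖b - c‖ := by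
      rw [norm_smul]; norm_num
    rw [← h3, h1, norm_neg]
    refine (norm_mul_le _ _).trans (mul_le_mul_of_nonneg_left ?_ (norm_nonneg _))
    refine (norm_add_le _ _).trans ?_
    linarith
  have h3 : ‖b - c‖ = 0 := by
    have := norm_nonneg (b - c)
    linarith
  exact sub_eq_zero.1 (norm_eq_zero.1 h3)

/-- existence of square roots near `1` -/
lemma eventually_sq [CompleteSpace E] {U : Set E} (hU : U ∈ 𝓝 (1 : E)) :
    ∀ᶠ P in 𝓝 (1 : E), ∃ Q ∈ U, Q * Q = P := by
  let e : E ≃L[ℝ] E := ContinuousLinearEquiv.equivOfInverse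
    ((2 : ℝ) • ContinuousLinearMap.id ℝ E) ((1 / 2 : ℝ) • ContinuousLinearMap.id ℝ E)
    (fun x => by simp [smul_smul]) (fun x => by simp [smul_smul])
  have h1 : HasStrictFDerivAt (fun x : E => x * x) (e : E →L[ℝ] E) 1 := by
    have h := (hasStrictFDerivAt_id (𝕜 := ℝ) (1 : E)).mul' (hasStrictFDerivAt_id (𝕜 := ℝ) (1 : E))
    refine h.congr_fderiv ?_
    ext x
    simp [e, two_smul]
  have h2 := h1.map_nhds_eq_of_equiv
  rw [mul_one] at h2
  have h3 : (fun x : E => x * x) '' U ∈ 𝓝 (1 : E) := by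
    rw [← h2]
    exact image_mem_map hU
  filter_upwards [h3] with P hP
  obtain ⟨Q, hQ, h⟩ := hP
  exact ⟨Q, hQ, h⟩
end

end Run7.h388
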