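import Pool.Agent.Run7.h388.Sq

/-!
# Linear substitutions in polynomials of bounded degree
-/

set_option autoImplicit false

namespace Run7.h388

open MvPolynomial Filter Topology
open scoped Matrix.Norms.Operator

variable {n : ℕ}

/-- linear substitution -/
noncomputable def sub (T : Matrix (Fin n) (Fin n) ℂ) :
    MvPolynomial (Fin n) ℂ →ₐ[ℂ] MvPolynomial (Fin n) ℂ :=
  MvPolynomial.aeval (fun j => ∑ i, T i j • X i)

lemma sub_X (T : Matrix (Fin n) (Fin n) ℂ) (j : Fin n) : sub T (X j) = ∑ i, T i j • X i := by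
  simp [sub]

lemma sub_mul (S T : Matrix (Fin n) (Fin n) ℂ) : sub (S * T) = (sub S).comp (sub T) := by
  ext1 j
  simp only [sub_X, AlgHom.comp_apply, map_sum, map_smul, Matrix.mul_apply, Finset.sum_smul,
    Finset.smul_sum, smul_smul]
  rw [Finset.sum_comm]
  refine Finset.sum_congr rfl fun i _ => Finset.sum_congr rfl fun k _ => ?_
  rw [mul_comm]

lemma sub_one : sub (1 : Matrix (Fin n) (Fin n) ℂ) = AlgHom.id ℂ _ := by
  ext1 j
  rw [sub_X]
  simp [Matrix.one_apply]

lemma totalDegree_sub (T : Matrix (Fin n) (Fin n) ℂ) (p : MvPolynomial (Fin n) ℂ) :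
    (sub T p).totalDegree ≤ p.totalDegree := by
  classical
  have hX : ∀ j, (sub T (X j)).totalDegree ≤ 1 := by
    intro j
    rw [sub_X]
    refine (totalDegree_finsetSum _ _).trans ?_
    refine Finset.sup_le fun i _ => (totalDegree_smul_le _ _).trans ?_
    rw [totalDegree_X]
  conv_lhs => rw [p.as_sum]
  rw [map_sum]
  refine (totalDegree_finsetSum _ _).trans (Finset.sup_le fun m hm => ?_)
  have h1 : sub T (monomial m (coeff m p)) = C (coeff m p) * ∏ i, sub T (X i) ^ m i := by
    rw [monomial_eq, map_mul, algHom_C, Finsupp.prod_fintype _ _ (by simp), map_prod]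
    simp [algebraMap_eq]
  rw [h1]
  refine (totalDegree_mul _ _).trans ?_
  rw [totalDegree_C, zero_add]
  refine (totalDegree_finsetProd _ _).trans ?_
  have h2 : ∑ i, (sub T (X i) ^ m i).totalDegree ≤ ∑ i, m i := by
    refine Finset.sum_le_sum fun i _ => (totalDegree_pow _ _).trans ?_
    calc m i * (sub T (X i)).totalDegree ≤ m i * 1 := Nat.mul_le_mul_left _ (hX i)
      _ = m i := mul_one _
  refine h2.trans ?_
  have h3 := le_totalDegree hm
  rwa [Finsupp.sum_fintype _ _ (by simp)] at h3

/-- the monomials of degree at most `d` -/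
abbrev Mon (n d : ℕ) : Type := {m : Fin n →₀ ℕ // m.degree ≤ d}

instance (n d : ℕ) : Finite (Mon n d) := Finsupp.finite_of_degree_le d

noncomputable instance (n d : ℕ) : Fintype (Mon n d) := Fintype.ofFinite _

variable (d : ℕ)

/-- the coefficients of a polynomial -/
noncomputable def vec (p : MvPolynomial (Fin n) ℂ) : Mon n d → ℂ := fun m => coeff m.1 p

/-- the polynomial with given coefficients -/
noncomputable def poly : (Mon n d → ℂ) →ₗ[ℂ] MvPolynomial (Fin n) ℂ where
  toFun c := ∑ m, monomial m.1 (c m)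
  map_add' a b := by simp [Finset.sum_add_distrib]
  map_smul' a b := by simp [Finset.smul_sum, smul_monomial]

lemma vec_poly (c : Mon n d → ℂ) : vec d (poly d c) = c := by
  classical
  funext m
  simp only [vec, poly, LinearMap.coe_mk, AddHom.coe_mk, coeff_sum, coeff_monomial]
  rw [Finset.sum_eq_single m]
  · simp
  · intro b _ hb
    rw [if_neg]
    intro h
    exact hb (Subtype.ext h)
  · intro h
    exact absurd (Finset.mem_univ _) h

lemma poly_vec {p : MvPolynomial (Fin n) ℂ} (hp : p.totalDegree ≤ d) : poly d (vec d p) = p := by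
  classical
  ext m
  simp only [vec, poly, LinearMap.coe_mk, AddHom.coe_mk, coeff_sum, coeff_monomial]
  by_cases hm : m.degree ≤ d
  · rw [Finset.sum_eq_single (⟨m, hm⟩ : Mon n d)]
    · simp
    · intro b _ hb
      rw [if_neg]
      intro h
      exact hb (Subtype.ext h)
    · intro h
      exact absurd (Finset.mem_univ _) h
  · rw [Finset.sum_eq_zero]
    · symm
      by_contra h
      have h1 := le_totalDegree (mem_support_iff.2 h)
      apply hm
      refine le_trans ?_ hp
      rw [Finsupp.degree_eq_sum]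
      rwa [Finsupp.sum_fintype _ _ (by simp)] at h1
    · intro b _
      rw [if_neg]
      intro h
      exact hm (h ▸ b.2)

lemma totalDegree_poly (c : Mon n d → ℂ) : (poly d c).totalDegree ≤ d := by
  classical
  refine (totalDegree_finsetSum _ _).trans (Finset.sup_le fun m _ => ?_)
  refine (totalDegree_monomial_le _ _).trans ?_
  rw [Finsupp.sum_fintype _ _ (by simp)]
  have h := m.2
  rw [Finsupp.degree_eq_sum] at h
  exact h

/-- the matrix of a linear substitution on polynomials of degree at most `d` -/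
noncomputable def Th (T : Matrix (Fin n) (Fin n) ℂ) : Matrix (Mon n d) (Mon n d) ℂ :=
  fun m m' => coeff m.1 (sub T (monomial m'.1 1))

lemma Th_mulVec (T : Matrix (Fin n) (Fin n) ℂ) (c : Mon n d → ℂ) :
    (Th d T).mulVec c = vec d (sub T (poly d c)) := by
  classical
  funext m
  simp only [Matrix.mulVec, dotProduct, Th, vec, poly, LinearMap.coe_mk, AddHom.coe_mk, map_sum,
    coeff_sum]
  refine Finset.sum_congr rfl fun k _ => ?_
  have : monomial k.1 (c k) = c k • monomial k.1 (1 : ℂ) := by
    rw [smul_monomial]; simp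
  rw [this, map_smul, coeff_smul, smul_eq_mul, mul_comm]

lemma Th_mul (S T : Matrix (Fin n) (Fin n) ℂ) : Th d (S * T) = Th d S * Th d T := by
  classical
  apply Matrix.mulVec_injective
  funext c
  rw [← Matrix.mulVec_mulVec, Th_mulVec, Th_mulVec, Th_mulVec, poly_vec, sub_mul]
  · rfl
  · exact (totalDegree_sub _ _).trans (totalDegree_poly d c)

lemma Th_one : Th d (1 : Matrix (Fin n) (Fin n) ℂ) = 1 := by
  classical
  apply Matrix.mulVec_injective
  funext c
  rw [Th_mulVec, sub_one, Matrix.one_mulVec]
  exact vec_poly d c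

lemma continuous_coeff_sub (p : MvPolynomial (Fin n) ℂ) : ∀ m : Fin n →₀ ℕ,
    Continuous fun T : Matrix (Fin n) (Fin n) ℂ => coeff m (sub T p) := by
  classical
  induction p using MvPolynomial.induction_on with
  | C a => intro m; simpa using continuous_const
  | add p q hp hq =>
    intro m
    simp only [map_add, coeff_add]
    exact (hp m).add (hq m)
  | mul_X p i hp =>
    intro m
    have h1 : ∀ k : Fin n →₀ ℕ, Continuous fun T : Matrix (Fin n) (Fin n) ℂ =>
        coeff k (sub T (X i)) := by
      intro k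
      simp only [sub_X, coeff_sum, coeff_smul]
      refine continuous_finsetSum _ fun j _ => ?_
      exact (continuous_apply_apply j i).smul continuous_const
    simp only [map_mul, coeff_mul]
    exact continuous_finsetSum _ fun x _ => (hp _).mul (h1 _)

lemma continuous_Th : Continuous (Th d : Matrix (Fin n) (Fin n) ℂ → _) := by
  refine continuous_matrix fun m m' => ?_
  exact continuous_coeff_sub _ _

/-- **Square roots of linear substitutions near the identity preserve the ideals preserved by the
substitution.** -/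
theorem eventually_sub_mem (I : Ideal (MvPolynomial (Fin n) ℂ)) :
    ∀ᶠ Q in 𝓝 (1 : Matrix (Fin n) (Fin n) ℂ), (∀ p ∈ I, sub (Q * Q) p ∈ I) →
      ∀ p ∈ I, sub Q p ∈ I := by
  classical
  obtain ⟨T, hT⟩ := (inferInstance : IsNoetherianRing (MvPolynomial (Fin n) ℂ)).noetherian I
  set d := T.sup totalDegree with hd
  -- the subalgebra
  set Id : Submodule ℂ (Mon n d → ℂ) := (I.restrictScalars ℂ).comap (poly d) with hId
  let S : Subalgebra ℝ (Matrix (Mon n d) (Mon n d) ℂ) :=
    { carrier := {Z | ∀ c ∈ Id, Z.mulVec c ∈ Id}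
      mul_mem' := by
        intro a b ha hb c hc
        rw [← Matrix.mulVec_mulVec]
        exact ha _ (hb _ hc)
      add_mem' := by
        intro a b ha hb c hc
        rw [Matrix.add_mulVec]
        exact Id.add_mem (ha _ hc) (hb _ hc)
      algebraMap_mem' := by
        intro r c hc
        have : (algebraMap ℝ (Matrix (Mon n d) (Mon n d) ℂ) r).mulVec c = (r : ℂ) • c := by
          rw [Algebra.algebraMap_eq_smul_one, Matrix.smul_mulVec, Matrix.one_mulVec]
          rfl
        rw [this]
        exact Id.smul_mem _ hc }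
  have hSclosed : IsClosed (S : Set (Matrix (Mon n d) (Mon n d) ℂ)) := by
    have : (S : Set (Matrix (Mon n d) (Mon n d) ℂ)) =
        ⋂ c : Id, {Z : Matrix (Mon n d) (Mon n d) ℂ | Z.mulVec c.1 ∈ (Id : Set (Mon n d → ℂ))} := by
      ext Z
      simp only [Set.mem_iInter, Set.mem_ofPred_eq, Subtype.forall]
      rfl
    rw [this]
    refine isClosed_iInter fun c => ?_
    have hcl : IsClosed (Id : Set (Mon n d → ℂ)) := Submodule.closed_of_finiteDimensional Id
    exact hcl.preimage (by fun_prop)
  have h1 : ∀ᶠ Q in 𝓝 (1 : Matrix (Fin n) (Fin n) ℂ), ‖Th d Q - 1‖ ≤ 1 / 4 := by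
    have h2 : Tendsto (fun Q : Matrix (Fin n) (Fin n) ℂ => ‖Th d Q - 1‖) (𝓝 1) (𝓝 0) := by
      have h3 : Continuous fun Q : Matrix (Fin n) (Fin n) ℂ => ‖Th d Q - 1‖ :=
        ((continuous_Th d).sub continuous_const).norm
      have h4 := h3.tendsto 1
      rwa [Th_one, sub_self, norm_zero] at h4
    exact (h2.eventually (Iio_mem_nhds (by norm_num : (0 : ℝ) < 1 / 4))).mono fun _ h => le_of_lt h
  filter_upwards [h1] with Q hQ h2
  have h3 : Th d Q ∈ S := by
    refine mem_of_sq_mem S hSclosed hQ ?_
    rw [← Th_mul]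
    intro c hc
    change poly d ((Th d (Q * Q)).mulVec c) ∈ I
    rw [Th_mulVec, poly_vec]
    · exact h2 _ hc
    · exact (totalDegree_sub _ _).trans (totalDegree_poly d c)
  have h4 : ∀ p ∈ I, p.totalDegree ≤ d → sub Q p ∈ I := by
    intro p hp hpd
    have h5 : vec d p ∈ Id := by
      change poly d (vec d p) ∈ I
      rwa [poly_vec d hpd]
    have h6 : poly d ((Th d Q).mulVec (vec d p)) ∈ I := h3 _ h5
    rwa [Th_mulVec, poly_vec d hpd, poly_vec] at h6
    exact (totalDegree_sub _ _).trans hpd
  have h5 : I ≤ I.comap (sub Q : MvPolynomial (Fin n) ℂ →ₐ[ℂ] MvPolynomial (Fin n) ℂ) := by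
    rw [← hT]
    refine Submodule.span_le.2 ?_
    intro p hp
    change sub Q p ∈ Ideal.span _
    have : p ∈ I := by rw [← hT]; exact Submodule.subset_span hp
    have h6 := h4 p this (Finset.le_sup (f := totalDegree) hp)
    rwa [← hT] at h6
  exact fun p hp => h5 hp

end Run7.h388
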