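import Pool.Agent.Run7.h388.PM
import Pool.Agent.Run7.h388.Theta

/-!
# Finiteness of the classes of real structures preserving a generating finite-dimensional subspace
-/

set_option autoImplicit false

namespace Run7.h388

open MvPolynomial Filter Topology Pool.Agent.Helper334_SA
open scoped Matrix.Norms.Operator ComplexConjugate

variable {R : Type} [CommRing R] [Algebra ℂ R] {G : Type}

/-- The automorphisms of the `ℂ`-algebra `R` which commute with the operators `γ g`. -/
def AutG (γ : G → (R ≃ₐ[ℂ] R)) : Subgroup (R ≃+* R) where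
  carrier := {a | (∀ (c : ℂ) (x : R), a (c • x) = c • a x) ∧ ∀ g x, a (γ g x) = γ g (a x)}
  one_mem' := ⟨fun _ _ => rfl, fun _ _ => rfl⟩
  mul_mem' := by
    rintro a b ⟨ha, ha'⟩ ⟨hb, hb'⟩
    refine ⟨fun c x => ?_, fun g x => ?_⟩
    · rw [RingAut.mul_apply, hb, ha]; rfl
    · rw [RingAut.mul_apply, hb', ha']; rfl
  inv_mem' := by
    rintro a ⟨ha, ha'⟩
    have h : ∀ x, a (a⁻¹ x) = x := fun x => a.apply_symm_apply x
    refine ⟨fun c x => ?_, fun g x => ?_⟩
    · apply a.injective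
      rw [ha, h, h]
    · apply a.injective
      rw [ha', h, h]

/-- The real structures compatible with the operators `γ g`. -/
def RealStr (γ : G → (R ≃ₐ[ℂ] R)) (s : G → G) : Set (R ≃+* R) :=
  {μ | (∀ (c : ℂ) (x : R), μ (c • x) = conj c • μ x) ∧ μ * μ = 1 ∧
    ∀ g x, μ (γ g x) = γ (s g) (μ x)}

/-- two semilinear ring homomorphisms which agree on generators are equal -/
lemma eq_of_agree {τ : ℂ → ℂ} {f g : R →+* R} (hf : ∀ (c : ℂ) x, f (c • x) = τ c • f x)
    (hg : ∀ (c : ℂ) x, g (c • x) = τ c • g x) {W : Set R} (hW : Algebra.adjoin ℂ W = ⊤)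
    (h : ∀ x ∈ W, f x = g x) (x : R) : f x = g x := by
  have hx : x ∈ Algebra.adjoin ℂ W := by rw [hW]; trivial
  induction hx using Algebra.adjoin_induction with
  | mem x hx => exact h x hx
  | algebraMap c =>
    rw [Algebra.algebraMap_eq_smul_one, hf, hg, map_one, map_one]
  | add x y _ _ hx hy => rw [map_add, map_add, hx, hy]
  | mul x y _ _ hx hy => rw [map_mul, map_mul, hx, hy]

section matrices
variable {n : ℕ} (w : Fin n → R)

/-- `M` is the matrix of `f` with respect to the family `w` -/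
def IsMat (f : R → R) (M : Matrix (Fin n) (Fin n) ℂ) : Prop := ∀ j, f (w j) = ∑ i, M i j • w i

variable {w}

lemma IsMat.comp {τ : ℂ →+* ℂ} {f g : R → R} {M N : Matrix (Fin n) (Fin n) ℂ}
    (hadd : ∀ x y, f (x + y) = f x + f y) (h0 : f 0 = 0) (hf : ∀ (c : ℂ) x, f (c • x) = τ c • f x)
    (hM : IsMat w f M) (hN : IsMat w g N) : IsMat w (fun x => f (g x)) (M * N.map τ) := by
  intro j
  have hsum : ∀ (s : Finset (Fin n)) (F : Fin n → R), f (∑ i ∈ s, F i) = ∑ i ∈ s, f (F i) := by
    classical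
    intro s F
    induction s using Finset.induction_on with
    | empty => simpa using h0
    | insert a s ha ih => rw [Finset.sum_insert ha, Finset.sum_insert ha, hadd, ih]
  simp only [hN j, hsum, hf, hM _, Matrix.mul_apply, Matrix.map_apply, Finset.smul_sum,
    Finset.sum_smul, smul_smul]
  rw [Finset.sum_comm]
  refine Finset.sum_congr rfl fun i _ => Finset.sum_congr rfl fun k _ => ?_
  rw [mul_comm]

lemma IsMat.unique (hw : LinearIndependent ℂ w) {f : R → R} {M N : Matrix (Fin n) (Fin n) ℂ}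
    (hM : IsMat w f M) (hN : IsMat w f N) : M = N := by
  ext i j
  have h : ∑ i, M i j • w i = ∑ i, N i j • w i := (hM j).symm.trans (hN j)
  have h2 : ∑ i, (M i j - N i j) • w i = 0 := by
    simp only [sub_smul, Finset.sum_sub_distrib, h, sub_self]
  have := Fintype.linearIndependent_iff.1 hw (fun i => M i j - N i j) h2 i
  exact sub_eq_zero.1 this

/-- the presentation of `R` -/
noncomputable def pr (w : Fin n → R) : MvPolynomial (Fin n) ℂ →ₐ[ℂ] R := MvPolynomial.aeval w

lemma pr_surj (hw : Algebra.adjoin ℂ (Set.range w) = ⊤) : Function.Surjective (pr w) := by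
  intro x
  have hx : x ∈ Algebra.adjoin ℂ (Set.range w) := by rw [hw]; trivial
  rw [Algebra.adjoin_range_eq_range_aeval] at hx
  exact hx

/-- **Openness of the classes.** -/
theorem open_class (hw : LinearIndependent ℂ w) (hgen : Algebra.adjoin ℂ (Set.range w) = ⊤)
    (γ : G → (R ≃ₐ[ℂ] R)) (s : G → G) (Γ : G → Matrix (Fin n) (Fin n) ℂ)
    (hΓ : ∀ g, IsMat w (γ g) (Γ g)) {μ₀ : R ≃+* R} (hμ₀ : μ₀ ∈ RealStr γ s)
    {M₀ : Matrix (Fin n) (Fin n) ℂ} (hM₀ : IsMat w μ₀ M₀) :
    ∀ᶠ M in 𝓝 M₀, ∀ μ ∈ RealStr γ s, IsMat w μ M → ∃ c ∈ AutG γ, c * μ * c⁻¹ = μ₀ := by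
  classical
  have hR : ∀ {μ : R ≃+* R} {M : Matrix (Fin n) (Fin n) ℂ}, μ ∈ RealStr γ s → IsMat w μ M →
      M * M.map conj = 1 := by
    intro μ M hμ hM
    have h1 := IsMat.comp (τ := starRingEnd ℂ) (map_add μ) (map_zero μ) hμ.1 hM hM
    have h2 : IsMat w (fun x => μ (μ x)) (1 : Matrix (Fin n) (Fin n) ℂ) := by
      intro j
      have h3 : μ (μ (w j)) = w j := by
        have := congrArg (fun f : R ≃+* R => f (w j)) hμ.2.1
        simpa using this
      simp only [h3]
      simp [Matrix.one_apply]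
    exact h1.unique hw h2
  have hconj_mul : ∀ A B : Matrix (Fin n) (Fin n) ℂ, (A * B).map conj = A.map conj * B.map conj :=
    fun A B => Matrix.map_mul
  have hconj_conj : ∀ A : Matrix (Fin n) (Fin n) ℂ, (A.map conj).map conj = A := by
    intro A; ext i j; simp
  have hconj_one : (1 : Matrix (Fin n) (Fin n) ℂ).map conj = 1 := by
    simp
  have hid : ∀ A : Matrix (Fin n) (Fin n) ℂ, A.map (RingHom.id ℂ) = A := by
    intro A; ext i j; simp
  have hM₀1 := hR hμ₀ hM₀
  have hM₀2 : M₀.map conj * M₀ = 1 := by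
    have := congrArg (fun A : Matrix (Fin n) (Fin n) ℂ => A.map conj) hM₀1
    simpa [hconj_mul, hconj_conj, hconj_one] using this
  have hcc : Continuous fun Q : Matrix (Fin n) (Fin n) ℂ => Q.map conj :=
    Continuous.matrix_map continuous_id Complex.continuous_conj
  -- the neighbourhood of `1`
  have hU : ∀ᶠ Q in 𝓝 (1 : Matrix (Fin n) (Fin n) ℂ), ‖Q - 1‖ ≤ 1 / 4 ∧
      ‖M₀ * Q.map conj * M₀.map conj - 1‖ ≤ 1 / 4 ∧
      ‖(M₀ * Q.map conj * M₀.map conj) * Q - 1‖ ≤ 1 / 4 ∧
      ((∀ p ∈ RingHom.ker (pr w), sub (Q * Q) p ∈ RingHom.ker (pr w)) →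
        ∀ p ∈ RingHom.ker (pr w), sub Q p ∈ RingHom.ker (pr w)) := by
    have gen : ∀ F : Matrix (Fin n) (Fin n) ℂ → Matrix (Fin n) (Fin n) ℂ, Continuous F → F 1 = 1 →
        ∀ᶠ Q in 𝓝 (1 : Matrix (Fin n) (Fin n) ℂ), ‖F Q - 1‖ ≤ 1 / 4 := by
      intro F hF hF1
      have h3 : Continuous fun Q : Matrix (Fin n) (Fin n) ℂ => ‖F Q - 1‖ :=
        (hF.sub continuous_const).norm
      have h4 := h3.tendsto 1
      rw [hF1, sub_self, norm_zero] at h4
      exact (h4.eventually (Iio_mem_nhds (by norm_num : (0 : ℝ) < 1 / 4))).mono fun _ h => le_of_lt h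
    have c2 : Continuous fun Q : Matrix (Fin n) (Fin n) ℂ => M₀ * Q.map conj * M₀.map conj :=
      (continuous_const.mul hcc).mul continuous_const
    refine (gen (fun Q => Q) continuous_id rfl).and ((gen _ c2 ?_).and
      ((gen (fun Q => (M₀ * Q.map conj * M₀.map conj) * Q) (c2.mul continuous_id) ?_).and
        (eventually_sub_mem _)))
    · rw [hconj_one, mul_one, hM₀1]
    · simp only [hconj_one, mul_one, hM₀1]
  have hP : Tendsto (fun M : Matrix (Fin n) (Fin n) ℂ => M * M₀.map conj) (𝓝 M₀) (𝓝 1) := by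
    have : Continuous fun M : Matrix (Fin n) (Fin n) ℂ => M * M₀.map conj :=
      continuous_id.mul continuous_const
    have h := this.tendsto M₀
    rwa [hM₀1] at h
  filter_upwards [hP.eventually (eventually_sq hU)] with M hMQ μ hμ hM
  obtain ⟨Q, ⟨hQ1, hQ2, hQ3, hQ4⟩, hQQ⟩ := hMQ
  set P := M * M₀.map conj with hPdef
  set Q' := M₀ * Q.map conj * M₀.map conj with hQ'
  have hM1 := hR hμ hM
  have hM2 : M.map conj * M = 1 := by
    have := congrArg (fun A : Matrix (Fin n) (Fin n) ℂ => A.map conj) hM1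
    simpa [hconj_mul, hconj_conj, hconj_one] using this
  -- the automorphism `a`
  set a : R ≃+* R := μ * μ₀ with ha
  have halin : ∀ (c : ℂ) x, a (c • x) = c • a x := by
    intro c x
    rw [ha, RingAut.mul_apply, hμ₀.1, hμ.1, Complex.conj_conj]; rfl
  have haP : IsMat w a P := by
    have := IsMat.comp (τ := starRingEnd ℂ) (map_add μ) (map_zero μ) hμ.1 hM hM₀
    exact this
  have haγ : ∀ g x, a (γ g x) = γ (s (s g)) (a x) := by
    intro g x
    rw [ha, RingAut.mul_apply, hμ₀.2.2, hμ.2.2]; rfl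
  have hss : ∀ g x, γ (s (s g)) x = γ g x := by
    intro g x
    have h1 : μ₀ (μ₀ (γ g (μ₀ (μ₀ x)))) = γ (s (s g)) (μ₀ (μ₀ (μ₀ (μ₀ x)))) := by
      rw [hμ₀.2.2, hμ₀.2.2]
    have h2 : ∀ y, μ₀ (μ₀ y) = y := by
      intro y
      have := congrArg (fun f : R ≃+* R => f y) hμ₀.2.1
      simpa using this
    simpa [h2] using h1.symm
  have haγ' : ∀ g x, a (γ g x) = γ g (a x) := fun g x => by rw [haγ, hss]
  have hPΓ : ∀ g, P * Γ g = Γ g * P := by
    intro g
    have h1 := IsMat.comp (τ := RingHom.id ℂ) (map_add a) (map_zero a) halin haP (hΓ g)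
    have h2 := IsMat.comp (τ := RingHom.id ℂ) (map_add (γ g)) (map_zero (γ g))
      (fun c x => map_smul (γ g) c x) (hΓ g) haP
    have h3 : (fun x => a (γ g x)) = fun x => γ g (a x) := funext fun x => haγ' g x
    rw [h3] at h1
    have h4 := h1.unique hw h2
    simpa using h4
  have hQΓ : ∀ g, Γ g * Q = Q * Γ g := fun g =>
    commute_of_sq hQ1 (by rw [hQQ]; exact (hPΓ g).symm)
  -- the matrix `Q'`
  have hQ'Q' : Q' * Q' = M₀ * M.map conj := by
    have h1 : Q.map conj * Q.map conj = M.map conj * M₀ := by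
      rw [← hconj_mul, hQQ, hPdef, hconj_mul, hconj_conj]
    calc Q' * Q' = M₀ * Q.map conj * (M₀.map conj * M₀) * Q.map conj * M₀.map conj := by
          rw [hQ']; simp only [mul_assoc]
      _ = M₀ * (Q.map conj * Q.map conj) * M₀.map conj := by
          rw [hM₀2, mul_one]; simp only [mul_assoc]
      _ = M₀ * M.map conj * (M₀ * M₀.map conj) := by rw [h1]; simp only [mul_assoc]
      _ = M₀ * M.map conj := by rw [hM₀1, mul_one]
  have hQP : (Q' * Q') * P = 1 := by
    rw [hQ'Q', hPdef]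
    calc M₀ * M.map conj * (M * M₀.map conj) = M₀ * (M.map conj * M) * M₀.map conj := by
          simp only [mul_assoc]
      _ = 1 := by rw [hM2, mul_one, hM₀1]
  have hPQ : P * (Q' * Q') = 1 := by
    rw [hQ'Q', hPdef]
    calc M * M₀.map conj * (M₀ * M.map conj) = M * (M₀.map conj * M₀) * M.map conj := by
          simp only [mul_assoc]
      _ = 1 := by rw [hM₀2, mul_one, hM1]
  have hQP' : Q * P = P * Q := by rw [← hQQ, mul_assoc]
  have hcomm1 : Q * (Q' * Q') = (Q' * Q') * Q := by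
    calc Q * (Q' * Q') = ((Q' * Q') * P) * Q * (Q' * Q') := by rw [hQP, one_mul]
      _ = (Q' * Q') * (P * Q) * (Q' * Q') := by simp only [mul_assoc]
      _ = (Q' * Q') * Q * (P * (Q' * Q')) := by rw [← hQP']; simp only [mul_assoc]
      _ = (Q' * Q') * Q := by rw [hPQ, mul_one]
  have hcomm : Q * Q' = Q' * Q := commute_of_sq hQ2 hcomm1
  have hQ'Q : Q' * Q = 1 := by
    refine sq_unique hQ3 (by simp) ?_
    calc (Q' * Q) * (Q' * Q) = Q' * (Q * Q') * Q := by simp only [mul_assoc]
      _ = (Q' * Q') * (Q * Q) := by rw [hcomm]; simp only [mul_assoc]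
      _ = 1 * 1 := by rw [hQQ, hQP, mul_one]
  have hQQ' : Q * Q' = 1 := by rw [hcomm, hQ'Q]
  have hfinal : M * Q.map conj = Q * M₀ := by
    have h1 : M₀ * Q.map conj = Q' * M₀ := by
      rw [hQ']
      calc M₀ * Q.map conj = M₀ * Q.map conj * (M₀.map conj * M₀) := by rw [hM₀2, mul_one]
        _ = _ := by simp only [mul_assoc]
    have h2 : P * M₀ = M := by
      rw [hPdef, mul_assoc, hM₀2, mul_one]
    calc M * Q.map conj = P * (M₀ * Q.map conj) := by rw [← mul_assoc, h2]
      _ = (Q * Q) * Q' * M₀ := by rw [h1, ← mul_assoc, hQQ]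
      _ = Q * (Q * Q') * M₀ := by simp only [mul_assoc]
      _ = Q * M₀ := by rw [hQQ', mul_one]
  -- the automorphism `b`
  have hprP : ∀ p, pr w (sub P p) = a (pr w p) := by
    intro p
    induction p using MvPolynomial.induction_on with
    | C c =>
      rw [algHom_C, AlgHom.commutes, algHom_C, Algebra.algebraMap_eq_smul_one, halin, map_one]
    | add p q hp hq => simp only [map_add, hp, hq]
    | mul_X p i hp =>
      simp only [map_mul, hp]
      congr 1
      rw [sub_X, map_sum]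
      simp only [map_smul, pr, aeval_X]
      exact (haP i).symm
  have hker : ∀ p ∈ RingHom.ker (pr w), sub Q p ∈ RingHom.ker (pr w) := by
    refine hQ4 fun p hp => ?_
    rw [hQQ, RingHom.mem_ker]
    rw [RingHom.mem_ker] at hp
    rw [hprP, hp, map_zero]
  have hsurj := pr_surj hgen
  obtain ⟨b₀, hb₀⟩ : ∃ b₀ : R →+* R, ∀ p, b₀ (pr w p) = pr w (sub Q p) := by
    refine ⟨RingHom.liftOfSurjective (pr w : MvPolynomial (Fin n) ℂ →+* R) hsurj
      ⟨((pr w).comp (sub Q) : MvPolynomial (Fin n) ℂ →ₐ[ℂ] R), fun p hp => ?_⟩, fun p => ?_⟩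
    · exact hker p hp
    · exact RingHom.liftOfRightInverse_comp_apply _ _ _ _ _
  have hb₀lin : ∀ (c : ℂ) x, b₀ (c • x) = c • b₀ x := by
    intro c x
    obtain ⟨p, rfl⟩ := hsurj x
    rw [← map_smul, hb₀, hb₀, map_smul, map_smul]
  have hb₀Q : IsMat w b₀ Q := by
    intro j
    have h1 : w j = pr w (X j) := by simp [pr]
    rw [h1, hb₀, sub_X, map_sum]
    simp [pr]
  have hagree : ∀ {τ : ℂ → ℂ} {f g : R →+* R}, (∀ (c : ℂ) x, f (c • x) = τ c • f x) →
      (∀ (c : ℂ) x, g (c • x) = τ c • g x) → ∀ {A : Matrix (Fin n) (Fin n) ℂ}, IsMat w f A →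
      IsMat w g A → ∀ x, f x = g x := by
    intro τ f g hf hg A hfA hgA
    refine eq_of_agree hf hg hgen ?_
    rintro _ ⟨j, rfl⟩
    rw [hfA, hgA]
  have hbb : ∀ x, b₀ (b₀ x) = a x := by
    have h1 : IsMat w (b₀.comp b₀) P := by
      have := IsMat.comp (τ := RingHom.id ℂ) (map_add b₀) (map_zero b₀) hb₀lin hb₀Q hb₀Q
      rw [← hQQ]
      rw [hid] at this
      exact this
    refine hagree (τ := id) (f := b₀.comp b₀) (g := (a : R →+* R)) ?_ halin h1 haP
    intro c x
    simp [hb₀lin]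
  have hbij : Function.Bijective b₀ := by
    constructor
    · intro x y h
      apply a.injective
      rw [← hbb, ← hbb, h]
    · intro x
      obtain ⟨y, rfl⟩ := a.surjective x
      exact ⟨b₀ y, hbb y⟩
  set b : R ≃+* R := RingEquiv.ofBijective b₀ hbij with hb
  have hbapp : ∀ x, b x = b₀ x := fun x => rfl
  have hbmem : b ∈ AutG γ := by
    refine ⟨hb₀lin, fun g => ?_⟩
    have h1 : IsMat w (b₀.comp (γ g : R →+* R)) (Q * Γ g) := by
      have := IsMat.comp (τ := RingHom.id ℂ) (map_add b₀) (map_zero b₀) hb₀lin hb₀Q (hΓ g)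
      rw [hid] at this
      exact this
    have h2 : IsMat w ((γ g : R →+* R).comp b₀) (Q * Γ g) := by
      have := IsMat.comp (τ := RingHom.id ℂ) (map_add (γ g)) (map_zero (γ g))
        (fun c x => map_smul (γ g) c x) (hΓ g) hb₀Q
      rw [← hQΓ]
      rw [hid] at this
      exact this
    refine hagree (τ := id) (f := b₀.comp (γ g : R →+* R)) (g := (γ g : R →+* R).comp b₀) ?_ ?_ h1 h2
    · intro c x
      simp [hb₀lin]
    · intro c x
      simp [hb₀lin]
  refine ⟨b⁻¹, (AutG γ).inv_mem hbmem, ?_⟩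
  have hmain : μ * b = b * μ₀ := by
    have h1 : IsMat w ((μ : R →+* R).comp b₀) (Q * M₀) := by
      have := IsMat.comp (τ := starRingEnd ℂ) (map_add μ) (map_zero μ) hμ.1 hM hb₀Q
      rw [← hfinal]
      exact this
    have h2 : IsMat w (b₀.comp (μ₀ : R →+* R)) (Q * M₀) := by
      have := IsMat.comp (τ := RingHom.id ℂ) (map_add b₀) (map_zero b₀) hb₀lin hb₀Q hM₀
      rw [hid] at this
      exact this
    ext x
    refine hagree (τ := conj) (f := (μ : R →+* R).comp b₀) (g := b₀.comp (μ₀ : R →+* R)) ?_ ?_ h1 h2 x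
    · intro c x
      simp [hb₀lin, hμ.1]
    · intro c x
      simp [hb₀lin, hμ₀.1]
  rw [inv_inv, mul_assoc, hmain]
  group

/-- the coordinates of complex matrices -/
abbrev Co (n : ℕ) : Type := (Fin n × Fin n) ⊕ (Fin n × Fin n)

/-- the matrix with given real coordinates -/
noncomputable def mat (v : Co n → ℝ) : Matrix (Fin n) (Fin n) ℂ :=
  fun i j => ((v (Sum.inl (i, j)) : ℝ) : ℂ) + ((v (Sum.inr (i, j)) : ℝ) : ℂ) * Complex.I

lemma continuous_mat : Continuous (mat : (Co n → ℝ) → Matrix (Fin n) (Fin n) ℂ) := by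
  refine continuous_matrix fun i j => ?_
  unfold mat
  fun_prop

lemma exists_mat (M : Matrix (Fin n) (Fin n) ℂ) : ∃ v, mat v = M := by
  refine ⟨Sum.elim (fun p => (M p.1 p.2).re) (fun p => (M p.1 p.2).im), ?_⟩
  ext i j
  simp [mat, Complex.re_add_im]

lemma pm_entry (i j : Fin n) (r : R) : PM (fun v : Co n → ℝ => mat v i j • r) := by
  have h := (PM.coord (ι := Co n) (Sum.inl (i, j)) r).add
    (PM.coord (ι := Co n) (Sum.inr (i, j)) (Complex.I • r))
  refine cast ?_ h
  congr 1
  funext v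
  simp only [mat, add_smul, smul_smul]

lemma pm_conj_entry (i j : Fin n) (r : R) : PM (fun v : Co n → ℝ => conj (mat v i j) • r) := by
  have h := (PM.coord (ι := Co n) (Sum.inl (i, j)) r).add
    (PM.coord (ι := Co n) (Sum.inr (i, j)) ((-Complex.I) • r))
  refine cast ?_ h
  congr 1
  funext v
  simp only [mat, map_add, map_mul, Complex.conj_ofReal, Complex.conj_I, add_smul, smul_smul]

/-- **The matrices of the real structures form a semialgebraic set.** -/
theorem sa_real (hgen : Algebra.adjoin ℂ (Set.range w) = ⊤)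
    (γ : G → (R ≃ₐ[ℂ] R)) (s : G → G) (Γ : G → Matrix (Fin n) (Fin n) ℂ)
    (hΓ : ∀ g, IsMat w (γ g) (Γ g)) :
    SA {v : Co n → ℝ | ∃ μ ∈ RealStr γ s, IsMat w μ (mat v)} := by
  classical
  -- the images of the generators
  set y : (Co n → ℝ) → Fin n → R := fun v j => ∑ i, mat v i j • w i with hy
  have hyPM : ∀ j, PM (fun v => y v j) := fun j => PM.sum _ fun i _ => pm_entry i j _
  set A := Fin n ⊕ (RingHom.ker (pr w) ⊕ (G × Fin n)) with hA
  set F : A → (Co n → ℝ) → R := fun a v => match a with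
    | Sum.inl j => (∑ i, conj (mat v i j) • y v i) - w j
    | Sum.inr (Sum.inl p) => MvPolynomial.aeval (fun j => y v j) (MvPolynomial.map (starRingEnd ℂ) p.1)
    | Sum.inr (Sum.inr (g, j)) => (∑ i, conj (Γ g i j) • y v i) - γ (s g) (y v j) with hF
  have hFPM : ∀ a, PM (F a) := by
    rintro (j | p | ⟨g, j⟩)
    · refine PM.sub (PM.sum _ fun i _ => ?_) (PM.const _)
      have h1 : (fun v : Co n → ℝ => conj (mat v i j) • y v i) =
          fun v => (conj (mat v i j) • (1 : R)) * y v i := by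
        funext v
        rw [smul_one_mul]
      rw [h1]
      exact (pm_conj_entry i j 1).mul (hyPM i)
    · exact PM.aeval hyPM _
    · refine PM.sub (PM.sum _ fun i _ => (hyPM i).smul _) ?_
      have h1 : (fun v : Co n → ℝ => γ (s g) (y v j)) =
          fun v => ∑ i, mat v i j • γ (s g) (w i) := by
        funext v
        simp only [hy, map_sum, map_smul]
      rw [h1]
      exact PM.sum _ fun i _ => pm_entry i j _
  refine SAP.congr (sa_zeros hFPM) fun v => ?_
  have hsurj := pr_surj hgen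
  constructor
  · rintro ⟨μ, hμ, hM⟩ a
    have hyμ : ∀ j, y v j = μ (w j) := fun j => (hM j).symm
    rcases a with (j | p | ⟨g, j⟩)
    · simp only [hF, hyμ]
      rw [sub_eq_zero]
      have h1 : μ (μ (w j)) = w j := by
        have := congrArg (fun f : R ≃+* R => f (w j)) hμ.2.1
        simpa using this
      rw [hM j, map_sum] at h1
      simpa only [hμ.1] using h1
    · simp only [hF, hyμ]
      have h1 : ∀ q : MvPolynomial (Fin n) ℂ, MvPolynomial.aeval (fun j => μ (w j))
          (MvPolynomial.map (starRingEnd ℂ) q) = μ (pr w q) := by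
        intro q
        induction q using MvPolynomial.induction_on with
        | C c =>
          rw [map_C, algHom_C, algHom_C, Algebra.algebraMap_eq_smul_one,
            Algebra.algebraMap_eq_smul_one, hμ.1, map_one]
        | add p q hp hq => simp only [map_add, hp, hq]
        | mul_X p i hp => simp only [map_mul, hp, map_X, aeval_X, pr]
      rw [h1, RingHom.mem_ker.1 p.2, map_zero]
    · simp only [hF, hyμ]
      rw [sub_eq_zero, ← hμ.2.2, hΓ g j, map_sum]
      simp only [hμ.1]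
  · intro h0
    -- the semilinear ring homomorphism
    have hker : RingHom.ker (pr w : MvPolynomial (Fin n) ℂ →+* R) ≤ RingHom.ker
        (((MvPolynomial.aeval (fun j => y v j) : MvPolynomial (Fin n) ℂ →ₐ[ℂ] R) :
          MvPolynomial (Fin n) ℂ →+* R).comp (MvPolynomial.map (starRingEnd ℂ))) := by
      intro p hp
      exact h0 (Sum.inr (Sum.inl ⟨p, hp⟩))
    obtain ⟨μ₀, hμ₀⟩ : ∃ μ₀ : R →+* R, ∀ p, μ₀ (pr w p) =
        MvPolynomial.aeval (fun j => y v j) (MvPolynomial.map (starRingEnd ℂ) p) :=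
      ⟨RingHom.liftOfSurjective (pr w : MvPolynomial (Fin n) ℂ →+* R) hsurj ⟨_, hker⟩,
        fun p => RingHom.liftOfRightInverse_comp_apply _ _ _ _ _⟩
    have hμw : ∀ j, μ₀ (w j) = y v j := by
      intro j
      have h1 : w j = pr w (X j) := by simp [pr]
      rw [h1, hμ₀, map_X, aeval_X]
    have hμlin : ∀ (c : ℂ) x, μ₀ (c • x) = conj c • μ₀ x := by
      intro c x
      obtain ⟨p, rfl⟩ := hsurj x
      rw [← map_smul, hμ₀, hμ₀, MvPolynomial.smul_eq_C_mul, map_mul, map_C, map_mul, algHom_C,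
        Algebra.smul_def]
    have hμμ : ∀ x, μ₀ (μ₀ x) = x := by
      refine eq_of_agree (τ := id) (f := μ₀.comp μ₀) (g := RingHom.id R) ?_ (fun _ _ => rfl) hgen ?_
      · intro c x
        simp [hμlin]
      · rintro _ ⟨j, rfl⟩
        have h1 := h0 (Sum.inl j)
        simp only [hF, sub_eq_zero] at h1
        simp only [RingHom.comp_apply, RingHom.id_apply]
        rw [hμw, hy]
        simp only [map_sum, hμlin, hμw]
        exact h1
    set μ : R ≃+* R := RingEquiv.ofRingHom μ₀ μ₀ (RingHom.ext hμμ) (RingHom.ext hμμ) with hμ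
    refine ⟨μ, ⟨hμlin, ?_, fun g => ?_⟩, hμw⟩
    · ext x
      exact hμμ x
    · refine eq_of_agree (τ := conj) (f := μ₀.comp (γ g : R →+* R))
        (g := (γ (s g) : R →+* R).comp μ₀) ?_ ?_ hgen ?_
      · intro c x
        simp [hμlin]
      · intro c x
        simp [hμlin]
      · rintro _ ⟨j, rfl⟩
        have h1 := h0 (Sum.inr (Sum.inr (g, j)))
        simp only [hF, sub_eq_zero] at h1
        change μ₀ (γ g (w j)) = γ (s g) (μ₀ (w j))
        rw [hΓ g j, hμw, ← h1, map_sum]
        simp only [hμlin, hμw]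

/-- finiteness for a basis -/
theorem finite_classes_basis (hw : LinearIndependent ℂ w)
    (hgen : Algebra.adjoin ℂ (Set.range w) = ⊤)
    (γ : G → (R ≃ₐ[ℂ] R)) (s : G → G) (Γ : G → Matrix (Fin n) (Fin n) ℂ)
    (hΓ : ∀ g, IsMat w (γ g) (Γ g)) :
    ∃ S : Set (R ≃+* R), S.Finite ∧ S ⊆ RealStr γ s ∧ ∀ μ ∈ RealStr γ s,
      (∃ M, IsMat w μ M) → ∃ c ∈ AutG γ, ∃ ν ∈ S, c * μ * c⁻¹ = ν := by
  classical
  set V : Set (Co n → ℝ) := {v : Co n → ℝ | ∃ μ ∈ RealStr γ s, IsMat w μ (mat v)} with hV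
  have hfin : Finite (ConnectedComponents V) := sa_comp (sa_real hgen γ s Γ hΓ)
  choose m hm hmat using fun v : V => v.2
  -- the classes are relatively open
  have hopen : ∀ v : V, IsOpen {v' : V | ∃ c ∈ AutG γ, c * m v' * c⁻¹ = m v} := by
    intro v
    rw [isOpen_iff_mem_nhds]
    rintro v₁ ⟨c₁, hc₁, h₁⟩
    have h2 := (continuous_mat (n := n)).comp (continuous_subtype_val (p := fun x => x ∈ V))
    have h3 := (h2.tendsto v₁).eventually (open_class hw hgen γ s Γ hΓ (hm v₁) (hmat v₁))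
    filter_upwards [h3] with v' hv'
    obtain ⟨c, hc, h⟩ := hv' (m v') (hm v') (hmat v')
    refine ⟨c₁ * c, (AutG γ).mul_mem hc₁ hc, ?_⟩
    rw [← h₁, ← h]
    group
  have hclopen : ∀ v : V, IsClopen {v' : V | ∃ c ∈ AutG γ, c * m v' * c⁻¹ = m v} := by
    intro v
    refine ⟨⟨?_⟩, hopen v⟩
    rw [isOpen_iff_mem_nhds]
    intro v₁ hv₁
    filter_upwards [(hopen v₁).mem_nhds ⟨1, (AutG γ).one_mem, by group⟩] with v₂ hv₂ hv₂'
    apply hv₁
    obtain ⟨c, hc, h⟩ := hv₂
    obtain ⟨c', hc', h'⟩ := hv₂'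
    refine ⟨c' * c⁻¹, (AutG γ).mul_mem hc' ((AutG γ).inv_mem hc), ?_⟩
    rw [← h', ← h]
    group
  refine ⟨Set.range fun x : ConnectedComponents V => m x.out, Set.finite_range _, ?_, ?_⟩
  · rintro _ ⟨x, rfl⟩
    exact hm _
  · rintro μ hμ ⟨M, hM⟩
    obtain ⟨v, rfl⟩ := exists_mat M
    set v' : V := ⟨v, μ, hμ, hM⟩ with hv'
    have heq : m v' = μ := by
      have h1 := hmat v'
      ext x
      refine eq_of_agree (τ := conj) (f := (m v' : R →+* R)) (g := (μ : R →+* R)) (hm v').1 hμ.1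
        hgen ?_ x
      rintro _ ⟨j, rfl⟩
      exact (h1 j).trans (hM j).symm
    set x : ConnectedComponents V := ConnectedComponents.mk v' with hx
    have h1 : ConnectedComponents.mk (x.out) = ConnectedComponents.mk v' := Quotient.out_eq x
    rw [ConnectedComponents.coe_eq_coe] at h1
    have h2 : v' ∈ connectedComponent (x.out) := by
      rw [h1]; exact mem_connectedComponent
    obtain ⟨c, hc, h⟩ := (hclopen x.out).connectedComponent_subset
      ⟨1, (AutG γ).one_mem, by group⟩ h2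
    rw [heq] at h
    exact ⟨c, hc, _, ⟨x, rfl⟩, h⟩

end matrices

/-- **Theorem T.** The real structures which preserve a finite-dimensional generating subspace, stable
under the group, form finitely many classes. -/
theorem finite_classes (γ : G → (R ≃ₐ[ℂ] R)) (s : G → G) (W : Submodule ℂ R)
    [FiniteDimensional ℂ W] (hgen : Algebra.adjoin ℂ (W : Set R) = ⊤)
    (hW : ∀ g, ∀ x ∈ W, γ g x ∈ W) :
    ∃ S : Set (R ≃+* R), S.Finite ∧ S ⊆ RealStr γ s ∧ ∀ μ ∈ RealStr γ s,
      (∀ x ∈ W, μ x ∈ W) → ∃ c ∈ AutG γ, ∃ ν ∈ S, c * μ * c⁻¹ = ν := by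
  classical
  set b := Module.finBasis ℂ W with hb
  set w : Fin (Module.finrank ℂ W) → R := fun i => (b i : R) with hw
  have hwi : LinearIndependent ℂ w := b.linearIndependent.map' W.subtype (Submodule.ker_subtype W)
  have hspan : Submodule.span ℂ (Set.range w) = W := by
    have h1 := congrArg (Submodule.map W.subtype) b.span_eq
    rw [Submodule.map_span, Submodule.map_top, Submodule.range_subtype, ← Set.range_comp] at h1
    exact h1
  have hgen' : Algebra.adjoin ℂ (Set.range w) = ⊤ := by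
    rw [← Algebra.adjoin_span, hspan, hgen]
  have hmat : ∀ f : R → R, (∀ x ∈ W, f x ∈ W) → ∃ M, IsMat w f M := by
    intro f hf
    have h1 : ∀ j, ∃ c : Fin (Module.finrank ℂ W) → ℂ, ∑ i, c i • w i = f (w j) := by
      intro j
      rw [← Submodule.mem_span_range_iff_exists_fun, hspan]
      exact hf _ (b j).2
    choose c hc using h1
    exact ⟨fun i j => c j i, fun j => (hc j).symm⟩
  choose Γ hΓ using fun g => hmat (γ g) (hW g)
  obtain ⟨S, h1, h2, h3⟩ := finite_classes_basis hwi hgen' γ s Γ hΓ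
  exact ⟨S, h1, h2, fun μ hμ hμW => h3 μ hμ (hmat μ hμW)⟩

end Run7.h388
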