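import Mathlib

namespace Run7.h388

/-- `O` is the algebra of regular functions of a structure of affine complex algebraic variety on
the set `X`: it is a finitely generated algebra of complex valued functions, and every algebra
homomorphism `O → ℂ` is the evaluation at exactly one point of `X`. -/
structure IsAffineVariety {X : Type} (O : Subalgebra ℂ (X → ℂ)) : Prop where
  fg : O.FG
  point : ∀ φ : O →ₐ[ℂ] ℂ, ∃! x : X, ∀ f : O, φ f = (f : X → ℂ) x

/-- `F` is a regular map. -/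
def IsRegularMap {X Y : Type} (OX : Subalgebra ℂ (X → ℂ)) (OY : Subalgebra ℂ (Y → ℂ))
    (F : X → Y) : Prop := ∀ f ∈ OY, (fun x => f (F x)) ∈ OX

/-- `F` is an antiregular map. -/
def IsAntiregularMap {X Y : Type} (OX : Subalgebra ℂ (X → ℂ)) (OY : Subalgebra ℂ (Y → ℂ))
    (F : X → Y) : Prop := ∀ f ∈ OY, (fun x => starRingEnd ℂ (f (F x))) ∈ OX

/-- The algebra of regular functions of the product of two affine varieties. -/
def prodAlg {X Y : Type} (OX : Subalgebra ℂ (X → ℂ)) (OY : Subalgebra ℂ (Y → ℂ)) :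
    Subalgebra ℂ (X × Y → ℂ) :=
  Algebra.adjoin ℂ ({F | ∃ f ∈ OX, F = fun p => f p.1} ∪ {F | ∃ f ∈ OY, F = fun p => f p.2})

/-- `O` makes the group `G` an affine algebraic group over `ℂ`. -/
structure IsAlgebraicGroup {G : Type} [Group G] (O : Subalgebra ℂ (G → ℂ)) : Prop where
  variety : IsAffineVariety O
  mul : IsRegularMap (prodAlg O O) O (fun p => p.1 * p.2)
  inv : IsRegularMap O O (fun g => g⁻¹)

/-- The action of `G` on `X` is regular. -/
def IsRegularAction {G X : Type} [Group G] [MulAction G X] (OG : Subalgebra ℂ (G → ℂ))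
    (OX : Subalgebra ℂ (X → ℂ)) : Prop :=
  IsRegularMap (prodAlg OG OX) OX (fun p : G × X => p.1 • p.2)

/-- Zariski closed subsets. -/
def ZClosed {X : Type} (O : Subalgebra ℂ (X → ℂ)) (Z : Set X) : Prop :=
  ∀ x ∉ Z, ∃ f ∈ O, (∀ z ∈ Z, f z = 0) ∧ f x ≠ 0

/-- Zariski connected subsets. -/
def ZConnected {X : Type} (O : Subalgebra ℂ (X → ℂ)) (S : Set X) : Prop :=
  ∀ Z₁ Z₂ : Set X, ZClosed O Z₁ → ZClosed O Z₂ → S ⊆ Z₁ ∪ Z₂ → S ∩ Z₁ ∩ Z₂ = ∅ →
    S ⊆ Z₁ ∨ S ⊆ Z₂

/-- `B` is a Borel subgroup: a maximal connected solvable closed subgroup. -/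
structure IsBorel {G : Type} [Group G] (O : Subalgebra ℂ (G → ℂ)) (B : Subgroup G) : Prop where
  closed : ZClosed O (B : Set G)
  connected : ZConnected O (B : Set G)
  solvable : Group.IsSolvable B
  maximal : ∀ B' : Subgroup G, ZClosed O (B' : Set G) → ZConnected O (B' : Set G) →
    Group.IsSolvable B' → B ≤ B' → B' = B

/-- The algebraic group `G` is reductive: every finite-dimensional rational representation is
completely reducible. -/
def IsReductive {G : Type} [Group G] (O : Subalgebra ℂ (G → ℂ)) : Prop :=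
  ∀ (V : Type) [AddCommGroup V] [Module ℂ V] [FiniteDimensional ℂ V] (ρ : Representation ℂ G V),
    (∀ (v : V) (φ : Module.Dual ℂ V), (fun g => φ (ρ g v)) ∈ O) →
      ∀ U : Submodule ℂ V, (∀ g, ∀ u ∈ U, ρ g u ∈ U) →
        ∃ U' : Submodule ℂ V, (∀ g, ∀ u ∈ U', ρ g u ∈ U') ∧ IsCompl U U'

/-- The algebra of the restrictions to `Z` of the regular functions. -/
def restr {X : Type} (O : Subalgebra ℂ (X → ℂ)) (Z : Set X) : Subalgebra ℂ (Z → ℂ) :=
  O.map (AlgHom.pi fun z : Z => Pi.evalAlgHom ℂ (fun _ : X => ℂ) (z : X))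

theorem mem_restr {X : Type} {O : Subalgebra ℂ (X → ℂ)} {Z : Set X} {f : Z → ℂ} :
    f ∈ restr O Z ↔ ∃ F ∈ O, ∀ z : Z, F z = f z := by
  constructor
  · rintro ⟨F, hF, rfl⟩
    exact ⟨F, hF, fun z => rfl⟩
  · rintro ⟨F, hF, h⟩
    exact ⟨F, hF, funext h⟩

theorem prodAlg_sum {X Y : Type} {OX : Subalgebra ℂ (X → ℂ)} {OY : Subalgebra ℂ (Y → ℂ)}
    {F : X × Y → ℂ} (hF : F ∈ prodAlg OX OY) :
    ∃ (n : ℕ) (a : Fin n → OX) (b : Fin n → OY), ∀ x y,
      F (x, y) = ∑ i, (a i : X → ℂ) x * (b i : Y → ℂ) y := by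
  induction hF using Algebra.adjoin_induction with
  | mem F hF =>
    rcases hF with ⟨f, hf, rfl⟩ | ⟨f, hf, rfl⟩
    · exact ⟨1, fun _ => ⟨f, hf⟩, fun _ => 1, fun x y => by simp⟩
    · exact ⟨1, fun _ => 1, fun _ => ⟨f, hf⟩, fun x y => by simp⟩
  | algebraMap c =>
    exact ⟨1, fun _ => algebraMap ℂ _ c, fun _ => 1, fun x y => by simp⟩
  | add F F' _ _ h h' =>
    obtain ⟨n, a, b, h⟩ := h
    obtain ⟨n', a', b', h'⟩ := h'
    refine ⟨n + n', Fin.append a a', Fin.append b b', fun x y => ?_⟩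
    rw [Pi.add_apply, h, h', Fin.sum_univ_add]
    simp
  | mul F F' _ _ h h' =>
    obtain ⟨n, a, b, h⟩ := h
    obtain ⟨n', a', b', h'⟩ := h'
    refine ⟨n * n', fun i => a (finProdFinEquiv.symm i).1 * a' (finProdFinEquiv.symm i).2,
      fun i => b (finProdFinEquiv.symm i).1 * b' (finProdFinEquiv.symm i).2, fun x y => ?_⟩
    rw [Pi.mul_apply, h, h', Finset.sum_mul_sum, ← Finset.sum_product',
      Finset.univ_product_univ]
    rw [← finProdFinEquiv.symm.sum_comp (fun q : Fin n × Fin n' =>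
      (a q.1 : X → ℂ) x * (b q.1 : Y → ℂ) y * ((a' q.2 : X → ℂ) x * (b' q.2 : Y → ℂ) y))]
    apply Finset.sum_congr rfl
    intro i _
    simp only [MulMemClass.coe_mul, Pi.mul_apply]
    ring

theorem slice_right {X Y : Type} {OX : Subalgebra ℂ (X → ℂ)} {OY : Subalgebra ℂ (Y → ℂ)}
    {F : X × Y → ℂ} (hF : F ∈ prodAlg OX OY) (x : X) : (fun y => F (x, y)) ∈ OY := by
  obtain ⟨n, a, b, h⟩ := prodAlg_sum hF
  have : (fun y => F (x, y)) = ∑ i, ((a i : X → ℂ) x) • (b i : Y → ℂ) := by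
    funext y
    rw [h, Finset.sum_apply]
    rfl
  rw [this]
  exact OY.sum_mem fun i _ => OY.smul_mem (b i).2 _

theorem slice_left {X Y : Type} {OX : Subalgebra ℂ (X → ℂ)} {OY : Subalgebra ℂ (Y → ℂ)}
    {F : X × Y → ℂ} (hF : F ∈ prodAlg OX OY) (y : Y) : (fun x => F (x, y)) ∈ OX := by
  obtain ⟨n, a, b, h⟩ := prodAlg_sum hF
  have : (fun x => F (x, y)) = ∑ i, ((b i : Y → ℂ) y) • (a i : X → ℂ) := by
    funext x
    rw [h, Finset.sum_apply]
    apply Finset.sum_congr rfl
    intro i _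
    simp [mul_comm]
  rw [this]
  exact OX.sum_mem fun i _ => OX.smul_mem (a i).2 _

section Action

variable {G X : Type} [Group G] [MulAction G X] {OG : Subalgebra ℂ (G → ℂ)}
  {OX : Subalgebra ℂ (X → ℂ)}

/-- The action on regular functions: `(g f)(x) = f (g⁻¹ x)`. -/
def act (hact : IsRegularAction OG OX) : G →* (OX ≃ₐ[ℂ] OX) where
  toFun g :=
    { toFun := fun f => ⟨fun x => (f : X → ℂ) (g⁻¹ • x), slice_right (hact f f.2) g⁻¹⟩
      invFun := fun f => ⟨fun x => (f : X → ℂ) (g • x), slice_right (hact f f.2) g⟩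
      left_inv := fun f => Subtype.ext (funext fun x => by simp)
      right_inv := fun f => Subtype.ext (funext fun x => by simp)
      map_mul' := fun f f' => rfl
      map_add' := fun f f' => rfl
      commutes' := fun c => rfl }
  map_one' := by
    refine AlgEquiv.ext fun f => Subtype.ext (funext fun x => ?_)
    change (f : X → ℂ) ((1 : G)⁻¹ • x) = (f : X → ℂ) x
    rw [inv_one, one_smul]
  map_mul' g g' := by
    refine AlgEquiv.ext fun f => Subtype.ext (funext fun x => ?_)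
    change (f : X → ℂ) ((g * g')⁻¹ • x) = (f : X → ℂ) (g'⁻¹ • g⁻¹ • x)
    rw [mul_inv_rev, mul_smul]

theorem act_apply (hact : IsRegularAction OG OX) (g : G) (f : OX) (x : X) :
    (act hact g f : X → ℂ) x = (f : X → ℂ) (g⁻¹ • x) := rfl

/-- Coefficients of the action are regular. -/
theorem act_sum (hG : IsAlgebraicGroup OG) (hact : IsRegularAction OG OX) (f : OX) :
    ∃ (n : ℕ) (a : Fin n → OG) (b : Fin n → OX), ∀ g,
      act hact g f = ∑ i, (a i : G → ℂ) g • b i := by
  obtain ⟨n, a, b, h⟩ := prodAlg_sum (hact f f.2)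
  refine ⟨n, fun i => ⟨fun g => (a i : G → ℂ) g⁻¹, hG.inv _ (a i).2⟩, b, fun g => ?_⟩
  refine Subtype.ext (funext fun x => ?_)
  rw [act_apply]
  have h1 := h g⁻¹ x
  simp only at h1
  rw [h1]
  simp

theorem act_LF (hG : IsAlgebraicGroup OG) (hact : IsRegularAction OG OX) (f : OX) :
    ∃ W : Submodule ℂ OX, FiniteDimensional ℂ W ∧ f ∈ W ∧ ∀ g, ∀ x ∈ W, act hact g x ∈ W := by
  obtain ⟨n, a, b, h⟩ := act_sum hG hact f
  refine ⟨Submodule.span ℂ (Set.range fun g => act hact g f), ?_, ?_, ?_⟩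
  · have h1 : FiniteDimensional ℂ (Submodule.span ℂ (Set.range b)) :=
      FiniteDimensional.span_of_finite ℂ (Set.finite_range b)
    refine Submodule.finiteDimensional_of_le (S₂ := Submodule.span ℂ (Set.range b)) ?_
    rw [Submodule.span_le]
    rintro _ ⟨g, rfl⟩
    simp only
    rw [h]
    exact Submodule.sum_mem _ fun i _ => Submodule.smul_mem _ _ (Submodule.subset_span ⟨i, rfl⟩)
  · exact Submodule.subset_span ⟨1, by simp⟩
  · intro g x hx
    induction hx using Submodule.span_induction with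
    | mem x hx =>
      obtain ⟨g', rfl⟩ := hx
      refine Submodule.subset_span ⟨g * g', ?_⟩
      simp only
      rw [map_mul]; rfl
    | zero => simp
    | add x y _ _ hx hy => rw [map_add]; exact Submodule.add_mem _ hx hy
    | smul c x _ hx => rw [map_smul]; exact Submodule.smul_mem _ _ hx

end Action

end Run7.h388
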